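import Pool.Agent.QPKE99.Circ

/-!
# Oracle algorithms: the hybrid argument, overriding answers
-/

set_option autoImplicit false
set_option linter.unusedSectionVars false

open scoped BigOperators

namespace Pool.Agent.QPKE99

open Pool.Agent.PKE70

variable {D R W Ω α : Type} [AddCommGroup R] [Fintype R] [Fintype W] [Fintype Ω] {q : ℕ}

/-! ### Overriding answers -/

/-- the part of the query sites outside the domain of `v` -/
def siteOut (v : D → Option R) (s : W → Option D) (w : W) : Option D :=
  match s w with
  | none => none
  | some x => match v x with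
    | none => some x
    | some _ => none

/-- the part of the query sites in the domain of `v` -/
def siteIn (v : D → Option R) (s : W → Option D) (w : W) : Option D :=
  match s w with
  | none => none
  | some x => match v x with
    | none => none
    | some _ => some x

lemma gate_ovr (v : D → Option R) (s : W → Option D) (f : D → R)
    (u : EuclideanSpace ℂ (R × W)) :
    gate s (ovr f v) u = gate (siteIn v s) (ovr (fun _ => 0) v) (gate (siteOut v s) f u) := by
  ext ⟨y, w⟩
  rw [gate_apply, gate_apply, gate_apply]
  simp only
  rcases hs : s w with _ | x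
  · simp [siteIn, siteOut, hs]
  · rcases hv : v x with _ | z
    · simp [siteIn, siteOut, hs, hv, ovr]
    · simp [siteIn, siteOut, hs, hv, ovr]

/-- the circuit with the answers in `v` overriding those of the oracle -/
noncomputable def Circuit.ovrd (K : Circuit D R W α q) (v : D → Option R) :
    Circuit D R W α q where
  start := K.start
  U t := match t with
    | 0 => K.U 0
    | t + 1 => (gate (siteIn v (K.site t)) (ovr (fun _ => 0) v)).trans (K.U (t + 1))
  site t := siteOut v (K.site t)
  out := K.out

lemma Circuit.state_ovrd (K : Circuit D R W α q) (v : D → Option R) (f : D → R) (t : ℕ) :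
    (K.ovrd v).state f t = K.state (ovr f v) t := by
  induction t with
  | zero => rfl
  | succ t ih =>
    show ((gate (siteIn v (K.site t)) (ovr (fun _ => 0) v)).trans (K.U (t + 1)))
      (gate (siteOut v (K.site t)) f ((K.ovrd v).state f t)) = K.U (t + 1) _
    rw [ih, LinearIsometryEquiv.trans_apply, ← gate_ovr]

lemma Circuit.prob_ovrd (K : Circuit D R W α q) (v : D → Option R) (f : D → R) (a : α) :
    (K.ovrd v).prob f a = K.prob (ovr f v) a := by
  unfold Circuit.prob
  simp only [Circuit.state_ovrd]
  rfl

namespace Alg

/-- the algorithm with the answers in `v` overriding those of the oracle -/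
noncomputable def ovrd (v : D → Option R) : Alg D R W Ω α q → Alg D R W Ω α q
  | quantum K => quantum (K.ovrd v)
  | classical T hT => classical (fun ω => (T ω).withAns v)
      (fun ω f => (QAlg.cost_withAns f v (T ω)).trans (hT ω _))

lemma prob_ovrd (A : Alg D R W Ω α q) (v : D → Option R) (f : D → R) (a : α) :
    (A.ovrd v).prob f a = A.prob (ovr f v) a := by
  cases A with
  | quantum K => exact K.prob_ovrd v f a
  | classical T hT =>
    simp only [ovrd, Alg.prob]
    refine Finset.expect_congr rfl fun ω _ => ?_
    rw [QAlg.run_withAns]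

lemma prob_nonneg (A : Alg D R W Ω α q) (f : D → R) (a : α) : 0 ≤ A.prob f a := by
  classical
  cases A with
  | quantum K => exact K.prob_nonneg f a
  | classical T hT =>
    simp only [Alg.prob]
    exact Finset.expect_nonneg fun ω _ => by split_ifs <;> norm_num

lemma sum_classical [Fintype α] (T : Ω → QAlg D R α) (f : D → R) (d : α → ℝ) :
    open Classical in
    ∑ a, d a * (𝔼 ω : Ω, if (T ω).run f = a then (1 : ℝ) else 0) = 𝔼 ω : Ω, d ((T ω).run f) := by
  classical
  simp only [Finset.mul_expect]
  rw [← Finset.expect_sum_comm]
  refine Finset.expect_congr rfl fun ω _ => ?_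
  simp only [mul_ite, mul_one, mul_zero]
  rw [Finset.sum_ite_eq Finset.univ]
  simp

lemma sum_prob_le [Fintype α] (A : Alg D R W Ω α q) (f : D → R) : ∑ a, A.prob f a ≤ 1 := by
  classical
  cases A with
  | quantum K => exact (K.sum_prob f).le
  | classical T hT =>
    have h := sum_classical T f (fun _ => 1)
    simp only [one_mul] at h
    simp only [Alg.prob]
    rw [h]
    rcases isEmpty_or_nonempty Ω with hΩ | hΩ
    · simp
    · rw [Fintype.expect_const]

lemma prob_le_one [Fintype α] (A : Alg D R W Ω α q) (f : D → R) (a : α) : A.prob f a ≤ 1 :=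
  (Finset.single_le_sum (f := fun a => A.prob f a) (fun a _ => A.prob_nonneg f a)
    (Finset.mem_univ a)).trans (A.sum_prob_le f)

variable [DecidableEq D]

/-- the total weight with which `x` is queried -/
noncomputable def wt (h : D → R) (x : D) : Alg D R W Ω α q → ℝ
  | quantum K => K.wt h x
  | classical T _ => 𝔼 ω : Ω, if x ∈ (T ω).queries h then 1 else 0

lemma wt_nonneg (A : Alg D R W Ω α q) (h : D → R) (x : D) : 0 ≤ A.wt h x := by
  cases A with
  | quantum K => exact K.wt_nonneg h x
  | classical T hT =>
    simp only [Alg.wt]
    exact Finset.expect_nonneg fun ω _ => by split_ifs <;> norm_num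

lemma sum_wt_le [Fintype D] (A : Alg D R W Ω α q) (h : D → R) : ∑ x, A.wt h x ≤ q := by
  cases A with
  | quantum K => exact K.sum_wt_le h
  | classical T hT =>
    simp only [Alg.wt]
    rw [← Finset.expect_sum_comm]
    rcases isEmpty_or_nonempty Ω with hΩ | hΩ
    · simp
    · refine Finset.expect_le Finset.univ_nonempty fun ω _ => ?_
      rw [Finset.sum_boole]
      have h1 : ((Finset.univ.filter fun x => x ∈ (T ω).queries h).card : ℝ) ≤
          ((T ω).queries h).card := by
        exact_mod_cast Finset.card_le_card fun x hx => (Finset.mem_filter.mp hx).2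
      have h2 : (((T ω).queries h).card : ℝ) ≤ q := by
        exact_mod_cast (QAlg.card_queries_le h (T ω)).trans (hT ω h)
      exact h1.trans h2

lemma wt_ite_nonneg [Fintype D] (A : Alg D R W Ω α q) (h : D → R) (P : D → Prop)
    [DecidablePred P] : 0 ≤ ∑ x, if P x then A.wt h x else 0 :=
  Finset.sum_nonneg fun x _ => by
    split_ifs
    · exact A.wt_nonneg h x
    · exact le_rfl

lemma wt_ite_le [Fintype D] (A : Alg D R W Ω α q) (h : D → R) (P : D → Prop)
    [DecidablePred P] : (∑ x, if P x then A.wt h x else 0) ≤ q :=
  (Finset.sum_le_sum fun x _ => by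
    split_ifs
    · exact le_rfl
    · exact A.wt_nonneg h x).trans (A.sum_wt_le h)

open Classical in
/-- the hybrid argument -/
lemma bbbv [Fintype D] [Fintype α] (A : Alg D R W Ω α q) (f h : D → R) (d : α → ℝ)
    (hd : ∀ a, |d a| ≤ 1) :
    |∑ a, d a * (A.prob f a - A.prob h a)| ≤
      4 * Real.sqrt (q * ∑ x, if f x ≠ h x then A.wt h x else 0) := by
  cases A with
  | quantum K => exact K.bbbv f h d hd
  | classical T hT =>
    set A : Alg D R W Ω α q := classical T hT with hA
    set s : ℝ := ∑ x, if f x ≠ h x then A.wt h x else 0 with hs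
    have hs0 : 0 ≤ s := A.wt_ite_nonneg h _
    have hsq : s ≤ q := A.wt_ite_le h _
    have h1 : ∑ a, d a * (A.prob f a - A.prob h a) =
        𝔼 ω : Ω, (d ((T ω).run f) - d ((T ω).run h)) := by
      simp only [mul_sub, Finset.sum_sub_distrib, Finset.expect_sub_distrib]
      congr 1
      · exact sum_classical T f d
      · exact sum_classical T h d
    have h2 : |𝔼 ω : Ω, (d ((T ω).run f) - d ((T ω).run h))| ≤ 2 * s := by
      refine (Finset.abs_expect_le _ _).trans ?_
      have h3 : 2 * s = 𝔼 ω : Ω, 2 * ∑ x, (if f x ≠ h x then
          (if x ∈ (T ω).queries h then (1 : ℝ) else 0) else 0) := by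
        rw [← Finset.mul_expect, Finset.expect_sum_comm]
        congr 1
        rw [hs]
        refine Finset.sum_congr rfl fun x _ => ?_
        by_cases hx : f x = h x
        · simp [hx]
        · simp only [ne_eq, hx, not_false_eq_true, if_true]
          rfl
      rw [h3]
      refine Finset.expect_le_expect fun ω _ => ?_
      have h4 : 0 ≤ ∑ x, (if f x ≠ h x then
          (if x ∈ (T ω).queries h then (1 : ℝ) else 0) else 0) :=
        Finset.sum_nonneg fun x _ => by split_ifs <;> norm_num
      by_cases hall : ∀ x ∈ (T ω).queries h, f x = h x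
      · rw [((T ω).local_run hall).1, sub_self, abs_zero]
        positivity
      · push Not at hall
        obtain ⟨x, hx1, hx2⟩ := hall
        have h5 : (1 : ℝ) ≤ ∑ x, (if f x ≠ h x then
            (if x ∈ (T ω).queries h then (1 : ℝ) else 0) else 0) := by
          have h6 := Finset.single_le_sum (s := Finset.univ) (f := fun x =>
            (if f x ≠ h x then (if x ∈ (T ω).queries h then (1 : ℝ) else 0) else 0))
            (fun x _ => by split_ifs <;> norm_num) (Finset.mem_univ x)
          simp only [ne_eq, hx2, not_false_eq_true, if_true, hx1] at h6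
          exact h6
        have h7 := abs_sub (d ((T ω).run f)) (d ((T ω).run h))
        have h8 := hd ((T ω).run f)
        have h9 := hd ((T ω).run h)
        linarith
    rw [h1]
    refine h2.trans ?_
    have h10 : s ≤ Real.sqrt (q * s) := by
      refine Real.le_sqrt_of_sq_le ?_
      nlinarith
    have h11 : 0 ≤ Real.sqrt (q * s) := Real.sqrt_nonneg _
    linarith

end Alg

end Pool.Agent.QPKE99
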