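import Pool.Agent.QPKE99.Swap

/-!
# Classical key generation: the attack, for a fixed public key and fixed knowledge
-/

set_option autoImplicit false
set_option linter.unusedSectionVars false

open scoped BigOperators

namespace Pool.Agent.QPKE99

open Pool.Agent.PKE70

open Classical

variable {D R PK SK C WE ΩE WD ΩD ΩG : Type} [Fintype D] [DecidableEq D]
  [AddCommGroup R] [Fintype R] [Fintype PK] [Fintype SK] [Fintype C]
  [Fintype WE] [Fintype ΩE] [Fintype WD] [Fintype ΩD] [Fintype ΩG] {q : ℕ}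

section

variable (enc : PK → Bool → Alg D R WE ΩE C q) (dec : SK → C → Alg D R WD ΩD Bool q)

/-- the success probability when encryption uses the oracle `F₁` and decryption `F₂` -/
noncomputable def suc (pk : PK) (F₁ : D → R) (sk : SK) (F₂ : D → R) : ℝ :=
  𝔼 b : Bool, ∑ c, (enc pk b).prob F₁ c * (dec sk c).prob F₂ b

/-- changing the oracle of the encryption -/
lemma suc_enc (pk : PK) (F F' : D → R) (sk : SK) (F₂ : D → R) :
    |suc enc dec pk F sk F₂ - suc enc dec pk F' sk F₂| ≤
      𝔼 b : Bool, 4 * Real.sqrt (q * ∑ x, if F x ≠ F' x then (enc pk b).wt F' x else 0) := by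
  unfold suc
  rw [← Finset.expect_sub_distrib]
  refine (Finset.abs_expect_le _ _).trans (Finset.expect_le_expect fun b _ => ?_)
  have h := (enc pk b).bbbv F F' (fun c => (dec sk c).prob F₂ b) (fun c => by
    rw [abs_of_nonneg ((dec sk c).prob_nonneg F₂ b)]
    exact (dec sk c).prob_le_one F₂ b)
  refine le_trans (le_of_eq ?_) h
  rw [← Finset.sum_sub_distrib]
  congr 1
  exact Finset.sum_congr rfl fun c _ => by ring

/-- changing the oracle of the decryption -/
lemma suc_dec (pk : PK) (F : D → R) (sk : SK) (F₂ F₂' : D → R) :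
    |suc enc dec pk F sk F₂ - suc enc dec pk F sk F₂'| ≤
      𝔼 b : Bool, ∑ c, (enc pk b).prob F c *
        (4 * Real.sqrt (q * ∑ x, if F₂ x ≠ F₂' x then (dec sk c).wt F₂' x else 0)) := by
  unfold suc
  rw [← Finset.expect_sub_distrib]
  refine (Finset.abs_expect_le _ _).trans (Finset.expect_le_expect fun b _ => ?_)
  rw [← Finset.sum_sub_distrib]
  refine (Finset.abs_sum_le_sum_abs _ _).trans (Finset.sum_le_sum fun c _ => ?_)
  rw [← mul_sub, abs_mul, abs_of_nonneg ((enc pk b).prob_nonneg F c)]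
  refine mul_le_mul_of_nonneg_left ?_ ((enc pk b).prob_nonneg F c)
  have h := (dec sk c).bbbv F₂ F₂' (fun b' => if b' = b then 1 else 0) (fun b' => by
    split_ifs <;> simp)
  simpa using h

end

section local_bound

variable (T : ΩG → QAlg D R (PK × SK)) (enc : PK → Bool → Alg D R WE ΩE C q)
  (dec : SK → C → Alg D R WD ΩD Bool q)

/-- the coins and oracles compatible with the public key and the knowledge `ρ` -/
noncomputable def cons (pk : PK) (ρ : D → Option R) : Finset (ΩG × (D → R)) :=
  Finset.univ.filter fun z => Ext ρ z.2 ∧ ((T z.1).run z.2).1 = pk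

/-- the hidden queries of key generation -/
noncomputable def hid (z : ΩG × (D → R)) : Finset D := (T z.1).queries z.2

/-- the answers to the hidden queries -/
noncomputable def ans (z : ΩG × (D → R)) : D → Option R := res (hid T z) z.2

/-- the secret key -/
def skey (z : ΩG × (D → R)) : SK := ((T z.1).run z.2).2

omit [AddCommGroup R] in
lemma ovr_ans_ne {ρ : D → Option R} {z : ΩG × (D → R)} (hz : Ext ρ z.2) {F : D → R}
    (hF : Ext ρ F) {x : D} (h : ovr F (ans T z) x ≠ F x) : x ∈ hid T z ∧ ρ x = none := by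
  unfold ans at h
  rw [ovr_res] at h
  by_cases hx : x ∈ hid T z
  · refine ⟨hx, ?_⟩
    rw [if_pos hx] at h
    rcases hρ : ρ x with _ | y
    · rfl
    · exact absurd ((hz x y hρ).trans (hF x y hρ).symm) h
  · rw [if_neg hx] at h
    exact absurd rfl h

/-- The attack for a fixed public key and fixed knowledge `ρ`: one of the compatible key pairs may
be used for decryption, with the answers of its hidden queries overriding the oracle. -/
theorem local_attack (pk : PK) (ρ : D → Option R) (β : ℝ) (hβ0 : 0 ≤ β)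
    (hβ : ∀ x, ρ x = none → (((cons T pk ρ).filter fun z => x ∈ hid T z).card : ℝ) ≤ β)
    (hne : (cons T pk ρ).Nonempty) :
    ∃ z' ∈ cons T pk ρ, ∑ z ∈ cons T pk ρ, suc enc dec pk z.2 (skey T z) z.2 ≤
      ∑ z ∈ cons T pk ρ, suc enc dec pk z.2 (skey T z') (ovr z.2 (ans T z')) +
        12 * (q * Real.sqrt ((cons T pk ρ).card * β)) := by
  set Zs := cons T pk ρ with hZs
  set μ : ℝ := (Zs.card : ℝ) with hμ
  set N : ℝ := ((exts ρ).card : ℝ) with hN
  set B : ℝ := q * Real.sqrt (μ * β) with hB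
  have hB0 : 0 ≤ B := by positivity
  have hμ0 : 0 < μ := by rw [hμ]; exact_mod_cast hne.card_pos
  have hN0 : 0 < N := by
    obtain ⟨z, hz⟩ := hne
    rw [hZs, cons, Finset.mem_filter] at hz
    rw [hN]
    exact_mod_cast Finset.card_pos.mpr ⟨z.2, mem_exts.mpr hz.2.1⟩
  have hmem : ∀ z ∈ Zs, Ext ρ z.2 := fun z hz => by
    rw [hZs, cons, Finset.mem_filter] at hz
    exact hz.2.1
  have hkey : ∀ z ∈ Zs, ∀ F ∈ exts ρ, skey T (z.1, ovr F (ans T z)) = skey T z := by
    intro z hz F hF
    unfold skey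
    have : (T z.1).run (ovr F (ans T z)) = (T z.1).run z.2 :=
      ((T z.1).local_run (fun x hx => by
        unfold ans hid
        rw [ovr_res, if_pos hx])).1
    simp only
    rw [this]
  -- swapping
  have hswap : ∀ G : ΩG → (D → R) → ℝ,
      ∑ z ∈ Zs, ∑ F ∈ exts ρ, G z.1 (ovr F (ans T z)) = N * ∑ z ∈ Zs, G z.1 z.2 := fun G =>
    swap_sum T ρ (fun _ a => a.1 = pk) G
  -- averaged hybrid bounds
  have hencb : ∀ F ∈ exts ρ, ∀ (b : Bool), ∑ z ∈ Zs, Real.sqrt (q * ∑ x,
      if ovr F (ans T z) x ≠ F x then (enc pk b).wt F x else 0) ≤ B := by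
    intro F hF b
    refine le_trans (Finset.sum_le_sum fun z hz => Real.sqrt_le_sqrt
      (mul_le_mul_of_nonneg_left (Finset.sum_le_sum fun x _ => ?_) (Nat.cast_nonneg q)))
      (avg_weight Zs (hid T) (fun x => ρ x = none) β q hβ0 (Nat.cast_nonneg q) hβ
        (fun x => (enc pk b).wt F x) ((enc pk b).wt_nonneg F) ((enc pk b).sum_wt_le F))
    by_cases hx : ovr F (ans T z) x ≠ F x
    · have h := ovr_ans_ne T (hmem z hz) (mem_exts.mp hF) hx
      simp [hx, h]
    · simp only [hx, if_false]
      split_ifs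
      · exact (enc pk b).wt_nonneg F x
      · exact le_rfl
  have hdecb : ∀ F ∈ exts ρ, ∀ (sk : SK) (c : C) (v : D → Option R), ∑ z ∈ Zs, Real.sqrt
      (q * ∑ x, if ovr (ovr F (ans T z)) v x ≠ ovr F v x then
        (dec sk c).wt (ovr F v) x else 0) ≤ B := by
    intro F hF sk c v
    refine le_trans (Finset.sum_le_sum fun z hz => Real.sqrt_le_sqrt
      (mul_le_mul_of_nonneg_left (Finset.sum_le_sum fun x _ => ?_) (Nat.cast_nonneg q)))
      (avg_weight Zs (hid T) (fun x => ρ x = none) β q hβ0 (Nat.cast_nonneg q) hβ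
        (fun x => (dec sk c).wt (ovr F v) x) ((dec sk c).wt_nonneg _)
        ((dec sk c).sum_wt_le _))
    by_cases hx : ovr (ovr F (ans T z)) v x ≠ ovr F v x
    · have h1 : ovr F (ans T z) x ≠ F x := by
        intro h2
        apply hx
        rcases hv : v x with _ | y
        · rw [ovr_of_none hv, ovr_of_none hv, h2]
        · rw [ovr_some hv, ovr_some hv]
      have h := ovr_ans_ne T (hmem z hz) (mem_exts.mp hF) h1
      simp [hx, h]
    · simp only [hx, if_false]
      split_ifs
      · exact (dec sk c).wt_nonneg _ x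
      · exact le_rfl
  -- the real success
  have e0 : N * ∑ z ∈ Zs, suc enc dec pk z.2 (skey T z) z.2 =
      ∑ z ∈ Zs, ∑ F ∈ exts ρ, suc enc dec pk (ovr F (ans T z)) (skey T z) (ovr F (ans T z)) := by
    rw [← hswap (fun ω f => suc enc dec pk f (skey T (ω, f)) f)]
    refine Finset.sum_congr rfl fun z hz => Finset.sum_congr rfl fun F hF => ?_
    rw [hkey z hz F hF]
  -- first change: encryption
  have encdiff : ∀ (sk : ΩG × (D → R) → SK) (F₂ : ΩG × (D → R) → (D → R) → (D → R)),
      |∑ F ∈ exts ρ, ∑ z ∈ Zs, (suc enc dec pk (ovr F (ans T z)) (sk z) (F₂ z F) -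
        suc enc dec pk F (sk z) (F₂ z F))| ≤ 4 * (N * B) := by
    intro sk F₂
    refine (Finset.abs_sum_le_sum_abs _ _).trans ?_
    have h1 : 4 * (N * B) = ∑ F ∈ exts ρ, 4 * B := by
      rw [Finset.sum_const, nsmul_eq_mul]; ring
    rw [h1]
    refine Finset.sum_le_sum fun F hF => (Finset.abs_sum_le_sum_abs _ _).trans ?_
    refine (Finset.sum_le_sum fun z hz => suc_enc enc dec pk _ F (sk z) (F₂ z F)).trans ?_
    rw [← Finset.expect_sum_comm]
    refine Finset.expect_le Finset.univ_nonempty fun b _ => ?_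
    rw [← Finset.mul_sum]
    exact mul_le_mul_of_nonneg_left (hencb F hF b) (by norm_num)
  have d1 := encdiff (fun z => skey T z) (fun z F => ovr F (ans T z))
  set H1 : ℝ := ∑ F ∈ exts ρ, ∑ z ∈ Zs, suc enc dec pk F (skey T z) (ovr F (ans T z)) with hH1
  have e1 : N * ∑ z ∈ Zs, suc enc dec pk z.2 (skey T z) z.2 ≤ H1 + 4 * (N * B) := by
    rw [e0, Finset.sum_comm]
    have : ∑ F ∈ exts ρ, ∑ z ∈ Zs,
        suc enc dec pk (ovr F (ans T z)) (skey T z) (ovr F (ans T z)) - H1 =
        ∑ F ∈ exts ρ, ∑ z ∈ Zs, (suc enc dec pk (ovr F (ans T z)) (skey T z)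
          (ovr F (ans T z)) - suc enc dec pk F (skey T z) (ovr F (ans T z))) := by
      simp only [hH1, Finset.sum_sub_distrib]
    have h2 := (abs_le.mp d1).2
    rw [← this] at h2
    linarith
  -- second change: decryption, third change: encryption
  have e2 : ∀ z' ∈ Zs, μ * ∑ F ∈ exts ρ, suc enc dec pk F (skey T z') (ovr F (ans T z')) ≤
      N * ∑ z ∈ Zs, suc enc dec pk z.2 (skey T z') (ovr z.2 (ans T z')) + 8 * (N * B) := by
    intro z' hz'
    have h1 : μ * ∑ F ∈ exts ρ, suc enc dec pk F (skey T z') (ovr F (ans T z')) =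
        ∑ F ∈ exts ρ, ∑ z ∈ Zs, suc enc dec pk F (skey T z') (ovr F (ans T z')) := by
      rw [Finset.mul_sum]
      refine Finset.sum_congr rfl fun F _ => ?_
      rw [Finset.sum_const, nsmul_eq_mul]
    have h2 : |∑ F ∈ exts ρ, ∑ z ∈ Zs, (suc enc dec pk F (skey T z')
        (ovr (ovr F (ans T z)) (ans T z')) -
        suc enc dec pk F (skey T z') (ovr F (ans T z')))| ≤ 4 * (N * B) := by
      refine (Finset.abs_sum_le_sum_abs _ _).trans ?_
      have h1 : 4 * (N * B) = ∑ F ∈ exts ρ, 4 * B := by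
        rw [Finset.sum_const, nsmul_eq_mul]; ring
      rw [h1]
      refine Finset.sum_le_sum fun F hF => (Finset.abs_sum_le_sum_abs _ _).trans ?_
      refine (Finset.sum_le_sum fun z hz => suc_dec enc dec pk F (skey T z') _ _).trans ?_
      rw [← Finset.expect_sum_comm]
      refine Finset.expect_le Finset.univ_nonempty fun b _ => ?_
      rw [Finset.sum_comm]
      simp only [← Finset.mul_sum]
      calc ∑ c, (enc pk b).prob F c * (4 * ∑ z ∈ Zs, Real.sqrt (q * ∑ x,
            if ovr (ovr F (ans T z)) (ans T z') x ≠ ovr F (ans T z') x then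
              (dec (skey T z') c).wt (ovr F (ans T z')) x else 0))
          ≤ ∑ c, (enc pk b).prob F c * (4 * B) := by
            refine Finset.sum_le_sum fun c _ => mul_le_mul_of_nonneg_left ?_
              ((enc pk b).prob_nonneg F c)
            exact mul_le_mul_of_nonneg_left (hdecb F hF _ c _) (by norm_num)
        _ = (∑ c, (enc pk b).prob F c) * (4 * B) := by rw [Finset.sum_mul]
        _ ≤ 1 * (4 * B) :=
            mul_le_mul_of_nonneg_right ((enc pk b).sum_prob_le F) (by positivity)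
        _ = 4 * B := one_mul _
    have h3 := encdiff (fun _ => skey T z') (fun z F => ovr (ovr F (ans T z)) (ans T z'))
    have h4 : N * ∑ z ∈ Zs, suc enc dec pk z.2 (skey T z') (ovr z.2 (ans T z')) =
        ∑ F ∈ exts ρ, ∑ z ∈ Zs, suc enc dec pk (ovr F (ans T z)) (skey T z')
          (ovr (ovr F (ans T z)) (ans T z')) := by
      rw [← hswap (fun _ f => suc enc dec pk f (skey T z') (ovr f (ans T z'))), Finset.sum_comm]
    rw [h1, h4]
    simp only [Finset.sum_sub_distrib] at h2 h3
    have h5 := (abs_le.mp h2).1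
    have h6 := (abs_le.mp h3).1
    linarith
  -- choice of z'
  by_contra hcon
  push Not at hcon
  have h7 : ∑ z' ∈ Zs, μ * ∑ F ∈ exts ρ, suc enc dec pk F (skey T z') (ovr F (ans T z')) <
      ∑ z' ∈ Zs, (N * (∑ z ∈ Zs, suc enc dec pk z.2 (skey T z) z.2 - 12 * B) +
        8 * (N * B)) := by
    refine Finset.sum_lt_sum_of_nonempty hne fun z' hz' => (e2 z' hz').trans_lt ?_
    have h8 := hcon z' hz'
    have h9 := mul_lt_mul_of_pos_left h8 hN0
    rw [mul_add] at h9
    linarith
  have h10 : ∑ z' ∈ Zs, μ * ∑ F ∈ exts ρ, suc enc dec pk F (skey T z') (ovr F (ans T z')) =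
      μ * H1 := by
    rw [← Finset.mul_sum, hH1, Finset.sum_comm]
  rw [h10, Finset.sum_const, nsmul_eq_mul] at h7
  have h11 := lt_of_mul_lt_mul_left h7 hμ0.le
  linarith

end local_bound

end Pool.Agent.QPKE99
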