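import Pool.Agent.QPKE99.Avx

/-!
# The activity of the amplitudes of a quantum circuit
-/

set_option autoImplicit false
set_option linter.unusedSectionVars false

open scoped BigOperators

namespace Pool.Agent.QPKE99

open Pool.Agent.PKE70

open Classical

variable {D R W α : Type} [Fintype D] [DecidableEq D] [AddCommGroup R] [Fintype R] [Fintype W]
  {q : ℕ}

/-- the activity at `x` of a family of vectors indexed by the oracles -/
noncomputable def actv (x : D) (v : (D → R) → EuclideanSpace ℂ (R × W)) : ℝ :=
  ∑ f, ∑ i, ‖v f i - avx x (fun f => v f i) f‖ ^ 2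

lemma avx_apply (x : D) (v : (D → R) → EuclideanSpace ℂ (R × W)) (f : D → R) (i : R × W) :
    (avx x v f) i = avx x (fun f => v f i) f := by
  unfold avx
  simp

lemma avx_const {E : Type} [AddCommGroup E] [Module ℝ E] (x : D) (c : E) (f : D → R) :
    avx x (fun _ => c) f = c := by
  unfold avx
  rw [Finset.sum_const, Finset.card_univ, ← Nat.cast_smul_eq_nsmul ℝ, smul_smul,
    inv_mul_cancel₀, one_smul]
  exact_mod_cast Fintype.card_ne_zero

lemma actv_eq (x : D) (v : (D → R) → EuclideanSpace ℂ (R × W)) :
    actv x v = ∑ f, ‖v f - avx x v f‖ ^ 2 := by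
  unfold actv
  refine Finset.sum_congr rfl fun f _ => ?_
  rw [norm_sq_eq]
  refine Finset.sum_congr rfl fun i _ => ?_
  rw [PiLp.sub_apply, avx_apply]

lemma actv_unitary (x : D) (v : (D → R) → EuclideanSpace ℂ (R × W))
    (U : EuclideanSpace ℂ (R × W) ≃ₗᵢ[ℂ] EuclideanSpace ℂ (R × W)) :
    actv x (fun f => U (v f)) = actv x v := by
  rw [actv_eq, actv_eq]
  refine Finset.sum_congr rfl fun f _ => ?_
  have h : avx x (fun f => U (v f)) f = U (avx x v f) := by
    unfold avx
    rw [← map_sum]
    exact (LinearMap.map_smul_of_tower U.toLinearEquiv.toLinearMap _ _).symm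
  rw [h, ← map_sub, LinearIsometryEquiv.norm_map]

lemma exts_none : exts (fun _ => none : D → Option R) = Finset.univ := by
  ext f
  rw [mem_exts]
  simp [Ext]

lemma actv_gate (x : D) (v : (D → R) → EuclideanSpace ℂ (R × W)) (s : W → Option D) :
    actv x (fun f => gate s f (v f)) ≤ actv x v + ∑ f, wt s (v f) x := by
  have hsplit : ∀ u : (D → R) → EuclideanSpace ℂ (R × W), actv x u =
      ∑ w : W, ∑ f, ∑ y : R, ‖u f (y, w) - avx x (fun f => u f (y, w)) f‖ ^ 2 := by
    intro u
    unfold actv
    rw [Finset.sum_comm (s := (Finset.univ : Finset W))]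
    refine Finset.sum_congr rfl fun f _ => ?_
    rw [Fintype.sum_prod_type, Finset.sum_comm]
  have hwt : ∑ f, wt s (v f) x =
      ∑ w : W, if s w = some x then ∑ f, ∑ y : R, ‖v f (y, w)‖ ^ 2 else 0 := by
    unfold wt
    have h1 : ∀ f : D → R, (∑ i : R × W, if s i.2 = some x then ‖v f i‖ ^ 2 else 0) =
        ∑ w : W, if s w = some x then ∑ y : R, ‖v f (y, w)‖ ^ 2 else 0 := by
      intro f
      rw [Fintype.sum_prod_type, Finset.sum_comm]
      refine Finset.sum_congr rfl fun w _ => ?_
      by_cases h : s w = some x <;> simp [h]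
    simp only [h1]
    rw [Finset.sum_comm]
    refine Finset.sum_congr rfl fun w _ => ?_
    by_cases h : s w = some x <;> simp [h]
  rw [hsplit, hsplit, hwt, ← Finset.sum_add_distrib]
  refine Finset.sum_le_sum fun w _ => ?_
  by_cases hw : s w = some x
  · simp only [hw, if_true]
    have h1 : ∀ y : R, ∑ f, ‖gate s f (v f) (y, w) -
        avx x (fun f => gate s f (v f) (y, w)) f‖ ^ 2 ≤ ∑ f, ‖gate s f (v f) (y, w)‖ ^ 2 := by
      intro y
      have h := sum_norm_sub_avx_le (ρ := fun _ => none) (x := x) rfl
        (fun f : D → R => gate s f (v f) (y, w))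
      rw [exts_none] at h
      exact h
    rw [Finset.sum_comm]
    refine (Finset.sum_le_sum fun y _ => h1 y).trans ?_
    rw [Finset.sum_comm]
    have h2 : ∀ f : D → R, ∑ y : R, ‖gate s f (v f) (y, w)‖ ^ 2 = ∑ y : R, ‖v f (y, w)‖ ^ 2 := by
      intro f
      simp only [gate_apply, hw, Option.map_some, Option.getD_some]
      exact Fintype.sum_equiv (Equiv.subRight (f x)) _ _ fun y => rfl
    simp only [h2]
    have h3 : 0 ≤ ∑ f, ∑ y : R, ‖v f (y, w) - avx x (fun f => v f (y, w)) f‖ ^ 2 :=
      Finset.sum_nonneg fun f _ => Finset.sum_nonneg fun y _ => by positivity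
    linarith
  · simp only [hw, if_false, add_zero]
    refine le_of_eq (Finset.sum_congr rfl fun f _ => ?_)
    have hc : ∀ (f : D → R) (z : R), ((s w).map (Function.update f x z)).getD 0 =
        ((s w).map f).getD 0 := by
      intro f z
      rcases hs : s w with _ | x'
      · rfl
      · have hne : x' ≠ x := fun h => hw (by rw [hs, h])
        simp [Function.update_of_ne hne]
    have h1 : ∀ y : R, gate s f (v f) (y, w) - avx x (fun f => gate s f (v f) (y, w)) f =
        v f (y - ((s w).map f).getD 0, w) -
          avx x (fun f' => v f' (y - ((s w).map f).getD 0, w)) f := by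
      intro y
      unfold avx
      simp only [gate_apply, hc]
    simp only [h1]
    exact Fintype.sum_equiv (Equiv.subRight (((s w).map f).getD 0)) _ _ fun y => rfl

/-- The total activity is at most the number of queries. -/
theorem sum_actv_state (K : Circuit D R W α q) (t : ℕ) :
    ∑ x, actv x (fun f => K.state f t) ≤ t * Fintype.card (D → R) := by
  induction t with
  | zero =>
    refine le_of_eq ?_
    simp only [Nat.cast_zero, zero_mul]
    refine Finset.sum_eq_zero fun x _ => ?_
    unfold actv
    refine Finset.sum_eq_zero fun f _ => Finset.sum_eq_zero fun i _ => ?_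
    have h : ∀ f : D → R, K.state f 0 = K.U 0 (EuclideanSpace.single K.start 1) := fun f => rfl
    simp only [h, avx_const]
    simp
  | succ t ih =>
    have h1 : ∀ x, actv x (fun f => K.state f (t + 1)) ≤
        actv x (fun f => K.state f t) + ∑ f, wt (K.site t) (K.state f t) x := by
      intro x
      have h2 : (fun f => K.state f (t + 1)) =
          fun f => K.U (t + 1) (gate (K.site t) f (K.state f t)) := rfl
      rw [h2, actv_unitary x (fun f => gate (K.site t) f (K.state f t))]
      exact actv_gate x _ _
    calc ∑ x, actv x (fun f => K.state f (t + 1))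
        ≤ ∑ x, (actv x (fun f => K.state f t) + ∑ f, wt (K.site t) (K.state f t) x) :=
          Finset.sum_le_sum fun x _ => h1 x
      _ = ∑ x, actv x (fun f => K.state f t) + ∑ f, ∑ x, wt (K.site t) (K.state f t) x := by
          rw [Finset.sum_add_distrib]
          congr 1
          rw [Finset.sum_comm]
      _ ≤ t * Fintype.card (D → R) + ∑ _f : D → R, (1 : ℝ) := by
          refine add_le_add ih (Finset.sum_le_sum fun f _ => ?_)
          have := sum_wt_le (K.site t) (K.state f t)
          rwa [K.norm_state, one_pow] at this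
      _ = ((t + 1 : ℕ) : ℝ) * Fintype.card (D → R) := by
          rw [Finset.sum_const, nsmul_eq_mul, Finset.card_univ]
          push_cast
          ring

end Pool.Agent.QPKE99
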