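import Pool.Agent.QPKE99.Swap

/-!
# Averaging over one value of the oracle
-/

set_option autoImplicit false
set_option linter.unusedSectionVars false

open scoped BigOperators

namespace Pool.Agent.QPKE99

open Pool.Agent.PKE70

open Classical

variable {D R : Type} [Fintype D] [DecidableEq D] [Fintype R] [Nonempty R]

/-- average over the value of the oracle at `x` -/
noncomputable def avx {E : Type} [AddCommMonoid E] [Module ℝ E] (x : D) (a : (D → R) → E)
    (f : D → R) : E :=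
  (Fintype.card R : ℝ)⁻¹ • ∑ y, a (Function.update f x y)

lemma avx_update {E : Type} [AddCommMonoid E] [Module ℝ E] (x : D) (a : (D → R) → E)
    (f : D → R) (y : R) : avx x a (Function.update f x y) = avx x a f := by
  unfold avx
  simp

lemma avx_sub {E : Type} [AddCommGroup E] [Module ℝ E] (x : D) (a b : (D → R) → E)
    (f : D → R) : avx x (fun f => a f - b f) f = avx x a f - avx x b f := by
  unfold avx
  rw [Finset.sum_sub_distrib, smul_sub]

lemma avx_comm {E : Type} [AddCommMonoid E] [Module ℝ E] {x x' : D} (h : x ≠ x')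
    (a : (D → R) → E) (f : D → R) : avx x (avx x' a) f = avx x' (avx x a) f := by
  unfold avx
  simp only [← Finset.smul_sum]
  rw [Finset.sum_comm]
  simp only [Function.update_comm h]

/-- the partial function `ρ` with the value `y` at `x` added -/
def upd (ρ : D → Option R) (x : D) (y : R) : D → Option R := Function.update ρ x (some y)

lemma mem_exts_upd {ρ : D → Option R} {x : D} (hx : ρ x = none) {y : R} {f : D → R} :
    f ∈ exts (upd ρ x y) ↔ f ∈ exts ρ ∧ f x = y := by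
  rw [mem_exts, mem_exts]
  constructor
  · intro h
    refine ⟨fun x' y' h' => h x' y' ?_, h x y (by simp [upd])⟩
    have hne : x' ≠ x := by
      rintro rfl
      rw [hx] at h'
      exact absurd h' (by simp)
    unfold upd
    rw [Function.update_of_ne hne]
    exact h'
  · rintro ⟨h, rfl⟩ x' y' h'
    by_cases hne : x' = x
    · subst hne
      simpa [upd] using h'
    · unfold upd at h'
      rw [Function.update_of_ne hne] at h'
      exact h x' y' h'

lemma update_mem_exts {ρ : D → Option R} {x : D} (hx : ρ x = none) {f : D → R}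
    (hf : f ∈ exts ρ) (y : R) : Function.update f x y ∈ exts ρ := by
  rw [mem_exts] at hf ⊢
  intro x' y' h'
  have hne : x' ≠ x := by
    rintro rfl
    rw [hx] at h'
    exact absurd h' (by simp)
  rw [Function.update_of_ne hne]
  exact hf x' y' h'

lemma sum_exts_update {ρ : D → Option R} {x : D} (hx : ρ x = none) (h : (D → R) → ℝ) :
    ∑ f ∈ exts ρ, ∑ y, h (Function.update f x y) = Fintype.card R * ∑ f ∈ exts ρ, h f := by
  have hr : (Fintype.card R : ℝ) * ∑ f ∈ exts ρ, h f = ∑ f ∈ exts ρ, ∑ _y : R, h f := by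
    rw [Finset.mul_sum]
    refine Finset.sum_congr rfl fun f _ => ?_
    rw [Finset.sum_const, nsmul_eq_mul, Finset.card_univ]
  rw [hr, ← Finset.sum_product', ← Finset.sum_product']
  let e : (D → R) × R → (D → R) × R := fun p => (Function.update p.1 x p.2, p.1 x)
  have hmem : ∀ p ∈ exts ρ ×ˢ (Finset.univ : Finset R), e p ∈ exts ρ ×ˢ (Finset.univ : Finset R) := by
    rintro ⟨f, y⟩ hp
    rw [Finset.mem_product] at hp ⊢
    exact ⟨update_mem_exts hx hp.1 y, Finset.mem_univ _⟩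
  have hinv : ∀ p ∈ exts ρ ×ˢ (Finset.univ : Finset R), e (e p) = p := by
    rintro ⟨f, y⟩ -
    simp [e]
  exact Finset.sum_nbij' e e hmem hmem hinv hinv fun p _ => rfl

lemma sum_exts_split {ρ : D → Option R} {x : D} (hx : ρ x = none) (h : (D → R) → ℝ) :
    ∑ f ∈ exts ρ, h f = ∑ y, ∑ f ∈ exts (upd ρ x y), h f := by
  rw [← Finset.sum_fiberwise_of_maps_to (s := exts ρ) (t := Finset.univ) (g := fun f => f x)
    (fun f _ => Finset.mem_univ _)]
  refine Finset.sum_congr rfl fun y _ => Finset.sum_congr ?_ fun _ _ => rfl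
  ext f
  rw [mem_exts_upd hx, Finset.mem_filter]

lemma sum_exts_upd {ρ : D → Option R} {x : D} (hx : ρ x = none) (h : (D → R) → ℝ)
    (hh : ∀ f y, h (Function.update f x y) = h f) (y : R) :
    ∑ f ∈ exts ρ, h f = Fintype.card R * ∑ f ∈ exts (upd ρ x y), h f := by
  rw [sum_exts_split hx]
  have h1 : ∀ y', ∑ f ∈ exts (upd ρ x y'), h f = ∑ f ∈ exts (upd ρ x y), h f := by
    intro y'
    refine Finset.sum_nbij' (fun f => Function.update f x y) (fun f => Function.update f x y')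
      ?_ ?_ ?_ ?_ ?_
    · intro f hf
      rw [mem_exts_upd hx] at hf ⊢
      exact ⟨update_mem_exts hx hf.1 y, by simp⟩
    · intro f hf
      rw [mem_exts_upd hx] at hf ⊢
      exact ⟨update_mem_exts hx hf.1 y', by simp⟩
    · intro f hf
      rw [mem_exts_upd hx] at hf
      simp [← hf.2]
    · intro f hf
      rw [mem_exts_upd hx] at hf
      simp [← hf.2]
    · intro f _
      rw [hh]
  simp only [h1]
  rw [Finset.sum_const, nsmul_eq_mul, Finset.card_univ]

/-- the variance formula -/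
lemma sum_norm_sub_avx {ρ : D → Option R} {x : D} (hx : ρ x = none) (a : (D → R) → ℂ) :
    ∑ f ∈ exts ρ, ‖a f - avx x a f‖ ^ 2 =
      ∑ f ∈ exts ρ, ‖a f‖ ^ 2 - ∑ f ∈ exts ρ, ‖avx x a f‖ ^ 2 := by
  have hn : (Fintype.card R : ℝ) ≠ 0 := by
    exact_mod_cast Fintype.card_ne_zero
  have h1 : ∀ f, ‖a f - avx x a f‖ ^ 2 =
      ‖a f‖ ^ 2 - 2 * inner ℝ (a f) (avx x a f) + ‖avx x a f‖ ^ 2 := fun f =>
    norm_sub_sq_real _ _
  have h2 : ∑ f ∈ exts ρ, (inner ℝ (a f) (avx x a f) : ℝ) =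
      ∑ f ∈ exts ρ, ‖avx x a f‖ ^ 2 := by
    have h3 := sum_exts_update hx (fun f => (inner ℝ (a f) (avx x a f) : ℝ))
    simp only [avx_update] at h3
    have h4 : ∀ f, ∑ y, (inner ℝ (a (Function.update f x y)) (avx x a f) : ℝ) =
        Fintype.card R * ‖avx x a f‖ ^ 2 := by
      intro f
      rw [← sum_inner]
      have h5 : ∑ y, a (Function.update f x y) = (Fintype.card R : ℝ) • avx x a f := by
        unfold avx
        rw [smul_smul, mul_inv_cancel₀ hn, one_smul]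
      rw [h5, real_inner_smul_left, real_inner_self_eq_norm_sq]
    simp only [h4] at h3
    rw [← Finset.mul_sum] at h3
    exact (mul_left_cancel₀ hn h3).symm
  simp only [h1, Finset.sum_add_distrib, Finset.sum_sub_distrib, ← Finset.mul_sum, h2]
  ring

lemma sum_norm_avx_le {ρ : D → Option R} {x : D} (hx : ρ x = none) (a : (D → R) → ℂ) :
    ∑ f ∈ exts ρ, ‖avx x a f‖ ^ 2 ≤ ∑ f ∈ exts ρ, ‖a f‖ ^ 2 := by
  have h := sum_norm_sub_avx hx a
  have h2 : 0 ≤ ∑ f ∈ exts ρ, ‖a f - avx x a f‖ ^ 2 := Finset.sum_nonneg fun f _ => by positivity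
  linarith

lemma sum_norm_sub_avx_le {ρ : D → Option R} {x : D} (hx : ρ x = none) (a : (D → R) → ℂ) :
    ∑ f ∈ exts ρ, ‖a f - avx x a f‖ ^ 2 ≤ ∑ f ∈ exts ρ, ‖a f‖ ^ 2 := by
  have h := sum_norm_sub_avx hx a
  have h2 : 0 ≤ ∑ f ∈ exts ρ, ‖avx x a f‖ ^ 2 := Finset.sum_nonneg fun f _ => by positivity
  linarith

/-- Minkowski's inequality, in the form needed -/
lemma mink {J : Type} (s : Finset J) (u v : J → ℂ) (c : ℝ) (n : ℕ)
    (hu : ∑ j ∈ s, ‖u j‖ ^ 2 ≤ c) (hv : ∑ j ∈ s, ‖v j‖ ^ 2 ≤ c * n ^ 2) :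
    ∑ j ∈ s, ‖u j + v j‖ ^ 2 ≤ c * (n + 1) ^ 2 := by
  rcases Nat.eq_zero_or_pos n with hn | hn
  · subst hn
    simp only [Nat.cast_zero, ne_eq, OfNat.ofNat_ne_zero, not_false_eq_true, zero_pow, mul_zero]
      at hv
    have h1 : ∀ j ∈ s, v j = 0 := by
      intro j hj
      have h2 := (Finset.single_le_sum (fun j _ => by positivity) hj).trans hv
      have h3 : ‖v j‖ ^ 2 = 0 := le_antisymm h2 (by positivity)
      simpa using h3
    calc ∑ j ∈ s, ‖u j + v j‖ ^ 2 = ∑ j ∈ s, ‖u j‖ ^ 2 :=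
          Finset.sum_congr rfl fun j hj => by rw [h1 j hj, add_zero]
      _ ≤ c := hu
      _ = c * ((0 : ℕ) + 1) ^ 2 := by simp
  · have hn' : (0 : ℝ) < n := by exact_mod_cast hn
    have h1 : ∀ j ∈ s, ‖u j + v j‖ ^ 2 ≤ (n + 1) * ‖u j‖ ^ 2 + ((n + 1) / n) * ‖v j‖ ^ 2 := by
      intro j _
      have h2 : ‖u j + v j‖ ^ 2 ≤ (‖u j‖ + ‖v j‖) ^ 2 :=
        pow_le_pow_left₀ (norm_nonneg _) (norm_add_le _ _) 2
      refine h2.trans ?_
      have h3 : 0 ≤ (n * ‖u j‖ - ‖v j‖) ^ 2 / n := by positivity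
      have h4 : (n + 1) * ‖u j‖ ^ 2 + ((n + 1) / n) * ‖v j‖ ^ 2 - (‖u j‖ + ‖v j‖) ^ 2 =
          (n * ‖u j‖ - ‖v j‖) ^ 2 / n := by
        field_simp
        ring
      linarith
    calc ∑ j ∈ s, ‖u j + v j‖ ^ 2
        ≤ ∑ j ∈ s, ((n + 1) * ‖u j‖ ^ 2 + ((n + 1) / n) * ‖v j‖ ^ 2) := Finset.sum_le_sum h1
      _ = (n + 1) * ∑ j ∈ s, ‖u j‖ ^ 2 + ((n + 1) / n) * ∑ j ∈ s, ‖v j‖ ^ 2 := by
          rw [Finset.sum_add_distrib, Finset.mul_sum, Finset.mul_sum]
      _ ≤ (n + 1) * c + ((n + 1) / n) * (c * n ^ 2) := by gcongr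
      _ = c * (n + 1) ^ 2 := by field_simp; ring

/-- the part of the oracle not queried by `T` may be replaced -/
lemma swap_sum_simple {α : Type} (T : QAlg D R α) (ρ : D → Option R) (G : (D → R) → ℝ) :
    ∑ f ∈ exts ρ, ∑ F ∈ exts ρ, G (ovr F (res (T.queries f) f)) =
      (exts ρ).card * ∑ f ∈ exts ρ, G f := by
  obtain ⟨P, hP⟩ : ∃ P : Prop, P := ⟨True, trivial⟩
  have h := swap_sum (Ω := Unit) (fun _ => T) ρ (fun _ _ => P) (fun _ f => G f)
  have h1 : ∀ (H : (D → R) → ℝ), ∑ z ∈ Finset.univ.filter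
      (fun z : Unit × (D → R) => Ext ρ z.2 ∧ P), H z.2 = ∑ f ∈ exts ρ, H f := by
    intro H
    refine Finset.sum_nbij' (fun z => z.2) (fun f => ((), f)) ?_ ?_ ?_ ?_ ?_
    · intro z hz
      rw [Finset.mem_filter] at hz
      exact mem_exts.mpr hz.2.1
    · intro f hf
      rw [Finset.mem_filter]
      exact ⟨Finset.mem_univ _, mem_exts.mp hf, hP⟩
    · rintro ⟨_, f⟩ _; rfl
    · intro f _; rfl
    · intro z _; rfl
  rw [h1 (fun f => G f), h1 (fun f => ∑ F ∈ exts ρ, G (ovr F (res (T.queries f) f)))] at h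
  exact h

end Pool.Agent.QPKE99
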