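import Pool.Agent.QPKE99.Defs
import Pool.Agent.PKE70.Basic

/-!
# Quantum oracle circuits: query weights and the hybrid argument
-/

set_option autoImplicit false
set_option linter.unusedSectionVars false

open scoped BigOperators

namespace Pool.Agent.QPKE99

open Pool.Agent.PKE70

variable {D R W Ω α : Type} [AddCommGroup R] [Fintype R] [Fintype W] {q : ℕ}

lemma gate_apply (s : W → Option D) (f : D → R) (v : EuclideanSpace ℂ (R × W)) (i : R × W) :
    gate s f v i = v (i.1 - ((s i.2).map f).getD 0, i.2) := rfl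

open Classical in
/-- the weight with which the point `x` is queried -/
noncomputable def wt (s : W → Option D) (v : EuclideanSpace ℂ (R × W)) (x : D) : ℝ :=
  ∑ i : R × W, if s i.2 = some x then ‖v i‖ ^ 2 else 0

lemma wt_nonneg (s : W → Option D) (v : EuclideanSpace ℂ (R × W)) (x : D) : 0 ≤ wt s v x := by
  classical
  unfold wt
  exact Finset.sum_nonneg fun i _ => by split_ifs <;> positivity

open Classical in
lemma sum_wt_eq [Fintype D] (s : W → Option D) (v : EuclideanSpace ℂ (R × W)) (P : D → Prop) :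
    ∑ x, (if P x then wt s v x else 0) =
      ∑ i : R × W, if (∃ x, s i.2 = some x ∧ P x) then ‖v i‖ ^ 2 else 0 := by
  unfold wt
  have : ∀ x, (if P x then ∑ i : R × W, (if s i.2 = some x then ‖v i‖ ^ 2 else 0) else 0) =
      ∑ i : R × W, if s i.2 = some x ∧ P x then ‖v i‖ ^ 2 else 0 := by
    intro x
    by_cases h : P x
    · simp [h]
    · simp [h]
  simp only [this]
  rw [Finset.sum_comm]
  refine Finset.sum_congr rfl fun i _ => ?_
  rcases hs : s i.2 with _ | x0
  · simp
  · have : ∀ x, (if some x0 = some x ∧ P x then ‖v i‖ ^ 2 else 0) =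
        if x = x0 then (if P x0 then ‖v i‖ ^ 2 else 0) else 0 := by
      intro x
      by_cases h : x = x0
      · subst h; simp
      · have h' : ¬ (some x0 = some x) := fun h' => h (Option.some.inj h').symm
        simp [h, h']
    simp only [this]
    rw [Finset.sum_ite_eq' Finset.univ x0]
    simp

lemma norm_sq_eq (v : EuclideanSpace ℂ (R × W)) : ‖v‖ ^ 2 = ∑ i, ‖v i‖ ^ 2 :=
  EuclideanSpace.norm_sq_eq v

lemma sum_wt_le [Fintype D] (s : W → Option D) (v : EuclideanSpace ℂ (R × W)) :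
    ∑ x, wt s v x ≤ ‖v‖ ^ 2 := by
  classical
  have h := sum_wt_eq s v (fun _ => True)
  simp only [if_true, and_true] at h
  rw [h, norm_sq_eq]
  refine Finset.sum_le_sum fun i _ => ?_
  split_ifs
  · exact le_rfl
  · positivity

open Classical in
lemma gate_sub_le [Fintype D] (s : W → Option D) (f h : D → R) (v : EuclideanSpace ℂ (R × W)) :
    ‖gate s f v - gate s h v‖ ≤
      2 * Real.sqrt (∑ x, if f x ≠ h x then wt s v x else 0) := by
  obtain ⟨P, hP⟩ : ∃ P : D → Prop, ∀ x, P x ↔ f x ≠ h x := ⟨_, fun _ => Iff.rfl⟩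
  set u : EuclideanSpace ℂ (R × W) :=
    WithLp.toLp 2 (fun i => if (∃ x, s i.2 = some x ∧ P x) then v i else 0) with hu
  have hui : ∀ i, u i = if (∃ x, s i.2 = some x ∧ P x) then v i else 0 := fun i => rfl
  have h1 : gate s f v - gate s h v = gate s f u - gate s h u := by
    ext i
    simp only [PiLp.sub_apply, gate_apply, hui]
    by_cases hi : ∃ x, s i.2 = some x ∧ P x
    · simp only [hi, if_true]
    · simp only [hi, if_false, sub_zero]
      rcases hs : s i.2 with _ | x0
      · simp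
      · have : f x0 = h x0 := by
          by_contra hne
          exact hi ⟨x0, hs, (hP x0).mpr hne⟩
        simp [this]
  have h2 : ‖u‖ ^ 2 = ∑ x, if f x ≠ h x then wt s v x else 0 := by
    have h3 : (∑ x, if f x ≠ h x then wt s v x else 0) = ∑ x, if P x then wt s v x else 0 := by
      refine Finset.sum_congr rfl fun x _ => ?_
      by_cases hx : f x = h x
      · have : ¬ P x := fun h' => (hP x).mp h' hx
        simp [hx, this]
      · have : P x := (hP x).mpr hx
        simp [hx, this]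
    rw [h3, norm_sq_eq, sum_wt_eq]
    refine Finset.sum_congr rfl fun i _ => ?_
    rw [hui]
    split_ifs <;> simp
  rw [h1, ← h2, Real.sqrt_sq (norm_nonneg _)]
  calc ‖gate s f u - gate s h u‖ ≤ ‖gate s f u‖ + ‖gate s h u‖ := norm_sub_le _ _
    _ = 2 * ‖u‖ := by rw [LinearIsometryEquiv.norm_map, LinearIsometryEquiv.norm_map]; ring

namespace Circuit

variable (K : Circuit D R W α q)

lemma norm_state (f : D → R) (t : ℕ) : ‖K.state f t‖ = 1 := by
  classical
  induction t with
  | zero =>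
    unfold Circuit.state
    rw [LinearIsometryEquiv.norm_map]
    simp
  | succ t ih =>
    unfold Circuit.state
    rw [LinearIsometryEquiv.norm_map, LinearIsometryEquiv.norm_map, ih]

open Classical in
lemma state_dist [Fintype D] (f h : D → R) (t : ℕ) :
    ‖K.state f t - K.state h t‖ ≤ ∑ j ∈ Finset.range t,
      2 * Real.sqrt (∑ x, if f x ≠ h x then Pool.Agent.QPKE99.wt (K.site j) (K.state h j) x else 0) := by
  induction t with
  | zero => simp [Circuit.state]
  | succ t ih =>
    rw [Finset.sum_range_succ]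
    have h1 : K.state f (t + 1) - K.state h (t + 1) =
        K.U (t + 1) (gate (K.site t) f (K.state f t - K.state h t) +
          (gate (K.site t) f (K.state h t) - gate (K.site t) h (K.state h t))) := by
      show K.U (t + 1) _ - K.U (t + 1) _ = _
      rw [← map_sub]
      congr 1
      rw [map_sub]
      abel
    rw [h1, LinearIsometryEquiv.norm_map]
    refine (norm_add_le _ _).trans (add_le_add ?_ (gate_sub_le _ _ _ _))
    rw [LinearIsometryEquiv.norm_map]
    exact ih

/-- the total weight with which `x` is queried -/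
noncomputable def wt (h : D → R) (x : D) : ℝ :=
  ∑ j ∈ Finset.range q, Pool.Agent.QPKE99.wt (K.site j) (K.state h j) x

lemma wt_nonneg (h : D → R) (x : D) : 0 ≤ K.wt h x :=
  Finset.sum_nonneg fun _ _ => Pool.Agent.QPKE99.wt_nonneg _ _ _

lemma sum_wt_le [Fintype D] (h : D → R) : ∑ x, K.wt h x ≤ q := by
  unfold Circuit.wt
  rw [Finset.sum_comm]
  calc ∑ j ∈ Finset.range q, ∑ x, Pool.Agent.QPKE99.wt (K.site j) (K.state h j) x
      ≤ ∑ j ∈ Finset.range q, (1 : ℝ) := by
        refine Finset.sum_le_sum fun j _ => ?_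
        have := Pool.Agent.QPKE99.sum_wt_le (K.site j) (K.state h j)
        rwa [K.norm_state, one_pow] at this
    _ = q := by simp

open Classical in
lemma dist_sq_le [Fintype D] (f h : D → R) :
    ‖K.state f q - K.state h q‖ ^ 2 ≤
      4 * (q * ∑ x, if f x ≠ h x then K.wt h x else 0) := by
  set a : ℕ → ℝ := fun j =>
    ∑ x, if f x ≠ h x then Pool.Agent.QPKE99.wt (K.site j) (K.state h j) x else 0 with ha
  have ha0 : ∀ j, 0 ≤ a j := fun j => Finset.sum_nonneg fun x _ => by
    split_ifs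
    · exact Pool.Agent.QPKE99.wt_nonneg _ _ _
    · exact le_rfl
  have h1 := K.state_dist f h q
  have h2 : (∑ x, if f x ≠ h x then K.wt h x else 0) = ∑ j ∈ Finset.range q, a j := by
    rw [ha]
    simp only
    rw [Finset.sum_comm]
    refine Finset.sum_congr rfl fun x _ => ?_
    unfold Circuit.wt
    split_ifs <;> simp
  rw [h2]
  have h3 : (∑ j ∈ Finset.range q, Real.sqrt (a j)) ^ 2 ≤ q * ∑ j ∈ Finset.range q, a j := by
    have := sq_sum_le_card_mul_sum_sq (s := Finset.range q) (f := fun j => Real.sqrt (a j))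
    simp only [Finset.card_range, Real.sq_sqrt (ha0 _)] at this
    exact this
  have h4 : ‖K.state f q - K.state h q‖ ≤ 2 * ∑ j ∈ Finset.range q, Real.sqrt (a j) := by
    rw [Finset.mul_sum]
    exact h1
  calc ‖K.state f q - K.state h q‖ ^ 2 ≤ (2 * ∑ j ∈ Finset.range q, Real.sqrt (a j)) ^ 2 :=
        pow_le_pow_left₀ (norm_nonneg _) h4 2
    _ = 4 * (∑ j ∈ Finset.range q, Real.sqrt (a j)) ^ 2 := by ring
    _ ≤ 4 * (q * ∑ j ∈ Finset.range q, a j) := by linarith

lemma sum_prob_mul [Fintype α] (f : D → R) (d : α → ℝ) :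
    ∑ a, d a * K.prob f a = ∑ i, d (K.out i) * ‖K.state f q i‖ ^ 2 := by
  classical
  unfold Circuit.prob
  simp only [Finset.mul_sum]
  rw [Finset.sum_comm]
  refine Finset.sum_congr rfl fun i _ => ?_
  simp only [mul_ite, mul_zero]
  rw [Finset.sum_ite_eq Finset.univ (K.out i)]
  simp

lemma prob_nonneg (f : D → R) (a : α) : 0 ≤ K.prob f a := by
  classical
  unfold Circuit.prob
  exact Finset.sum_nonneg fun i _ => by split_ifs <;> positivity

lemma sum_prob [Fintype α] (f : D → R) : ∑ a, K.prob f a = 1 := by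
  have h := K.sum_prob_mul f (fun _ => 1)
  simp only [one_mul] at h
  rw [h, ← norm_sq_eq, K.norm_state, one_pow]

end Circuit

/-- changing the state changes the outcome probabilities only a little -/
lemma sum_sq_sub_le {I : Type} [Fintype I] (u v : EuclideanSpace ℂ I) (d : I → ℝ)
    (hd : ∀ i, |d i| ≤ 1) :
    |∑ i, d i * (‖u i‖ ^ 2 - ‖v i‖ ^ 2)| ≤ (‖u‖ + ‖v‖) * ‖u - v‖ := by
  have h1 : ∀ i, |d i * (‖u i‖ ^ 2 - ‖v i‖ ^ 2)| ≤ (‖u i‖ + ‖v i‖) * ‖(u - v) i‖ := by
    intro i
    rw [abs_mul]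
    have h2 : |‖u i‖ ^ 2 - ‖v i‖ ^ 2| = (‖u i‖ + ‖v i‖) * |‖u i‖ - ‖v i‖| := by
      rw [show ‖u i‖ ^ 2 - ‖v i‖ ^ 2 = (‖u i‖ + ‖v i‖) * (‖u i‖ - ‖v i‖) by ring, abs_mul,
        abs_of_nonneg (by positivity)]
    rw [h2]
    have h3 : |‖u i‖ - ‖v i‖| ≤ ‖(u - v) i‖ := by
      rw [PiLp.sub_apply]
      exact abs_norm_sub_norm_le _ _
    calc |d i| * ((‖u i‖ + ‖v i‖) * |‖u i‖ - ‖v i‖|)
        ≤ 1 * ((‖u i‖ + ‖v i‖) * |‖u i‖ - ‖v i‖|) :=
          mul_le_mul_of_nonneg_right (hd i) (by positivity)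
      _ ≤ (‖u i‖ + ‖v i‖) * ‖(u - v) i‖ := by
          rw [one_mul]
          exact mul_le_mul_of_nonneg_left h3 (by positivity)
  have h4 : |∑ i, d i * (‖u i‖ ^ 2 - ‖v i‖ ^ 2)| ≤ ∑ i, (‖u i‖ + ‖v i‖) * ‖(u - v) i‖ :=
    (Finset.abs_sum_le_sum_abs _ _).trans (Finset.sum_le_sum fun i _ => h1 i)
  have h5 : ∀ a b : EuclideanSpace ℂ I, ∑ i, ‖a i‖ * ‖b i‖ ≤ ‖a‖ * ‖b‖ := by
    intro a b
    have h6 := Finset.sum_mul_sq_le_sq_mul_sq Finset.univ (fun i => ‖a i‖) (fun i => ‖b i‖)
    rw [← EuclideanSpace.norm_sq_eq, ← EuclideanSpace.norm_sq_eq, ← mul_pow] at h6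
    exact (pow_le_pow_iff_left₀ (Finset.sum_nonneg fun i _ => by positivity) (by positivity)
      two_ne_zero).mp h6
  refine h4.trans ?_
  have h7 := h5 u (u - v)
  have h8 := h5 v (u - v)
  calc ∑ i, (‖u i‖ + ‖v i‖) * ‖(u - v) i‖
      = ∑ i, ‖u i‖ * ‖(u - v) i‖ + ∑ i, ‖v i‖ * ‖(u - v) i‖ := by
        rw [← Finset.sum_add_distrib]
        exact Finset.sum_congr rfl fun i _ => by ring
    _ ≤ ‖u‖ * ‖u - v‖ + ‖v‖ * ‖u - v‖ := add_le_add h7 h8
    _ = (‖u‖ + ‖v‖) * ‖u - v‖ := by ring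

/-- the hybrid argument for circuits -/
lemma Circuit.bbbv [Fintype D] [Fintype α] (K : Circuit D R W α q) (f h : D → R) (d : α → ℝ)
    (hd : ∀ a, |d a| ≤ 1) :
    open Classical in
    |∑ a, d a * (K.prob f a - K.prob h a)| ≤
      4 * Real.sqrt (q * ∑ x, if f x ≠ h x then K.wt h x else 0) := by
  classical
  have h1 : ∑ a, d a * (K.prob f a - K.prob h a) =
      ∑ i, d (K.out i) * (‖K.state f q i‖ ^ 2 - ‖K.state h q i‖ ^ 2) := by
    simp only [mul_sub, Finset.sum_sub_distrib]
    rw [K.sum_prob_mul, K.sum_prob_mul]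
  rw [h1]
  refine (sum_sq_sub_le _ _ _ fun i => hd _).trans ?_
  rw [K.norm_state, K.norm_state]
  have h2 := K.dist_sq_le f h
  have h3 : ‖K.state f q - K.state h q‖ ≤
      2 * Real.sqrt (q * ∑ x, if f x ≠ h x then K.wt h x else 0) := by
    have h4 : 0 ≤ 2 * Real.sqrt (q * ∑ x, if f x ≠ h x then K.wt h x else 0) := by positivity
    refine (pow_le_pow_iff_left₀ (norm_nonneg _) h4 two_ne_zero).mp ?_
    rw [mul_pow, Real.sq_sqrt]
    · linarith
    · have : 0 ≤ ∑ x, if f x ≠ h x then K.wt h x else 0 :=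
        Finset.sum_nonneg fun x _ => by
          split_ifs
          · exact K.wt_nonneg _ _
          · exact le_rfl
      positivity
  linarith

end Pool.Agent.QPKE99
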