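import Pool.Agent.QPKE99.Tree

/-!
# Classical encryption: learning after the ciphertext
-/

set_option autoImplicit false
set_option linter.unusedSectionVars false

open scoped BigOperators

namespace Pool.Agent.QPKE99

open Pool.Agent.PKE70

open Classical

variable {D R SK C WD ΩD ΩE : Type} [Fintype D] [DecidableEq D]
  [AddCommGroup R] [Fintype R] [Fintype SK] [Fintype C]
  [Fintype ΩE] [Fintype WD] [Fintype ΩD] {q : ℕ}

section

variable (T : Bool × ΩE → QAlg D R C)

/-- the oracle of a pair (coins, oracle) -/
def orc {Ω : Type} (z : Ω × (D → R)) : D → R := z.2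

/-- the weights for learning the queries of the encryption -/
noncomputable def wenc (c : C) (x : D) (z : (Bool × ΩE) × (D → R)) : ℝ :=
  if (T z.1).run z.2 = c ∧ x ∈ (T z.1).queries z.2 then 1 else 0

lemma wenc_nonneg (c : C) (x : D) (z : (Bool × ΩE) × (D → R)) : 0 ≤ wenc T c x z := by
  unfold wenc
  split_ifs <;> norm_num

/-- the bits, coins and oracles compatible with the ciphertext and the knowledge -/
noncomputable def consE (c : C) (σ : D → Option R) : Finset ((Bool × ΩE) × (D → R)) :=
  Finset.univ.filter fun z => Ext σ z.2 ∧ (T z.1).run z.2 = c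

lemma act_wenc (c : C) (σ : D → Option R) (x : D) :
    act orc (wenc T c) σ x = ((consE T c σ).filter fun z => x ∈ (T z.1).queries z.2).card := by
  unfold act wenc consE
  rw [Finset.filter_filter, ← Finset.sum_boole]
  refine Finset.sum_congr rfl fun z _ => ?_
  unfold orc
  by_cases h1 : Ext σ z.2 <;> by_cases h2 : (T z.1).run z.2 = c <;>
    by_cases h3 : x ∈ (T z.1).queries z.2 <;> simp [h1, h2, h3]

/-- the knowledge after the second learning stage -/
noncomputable def kn (t : ℕ) (ρ : D → Option R) (p : Bool × ΩE) (f : D → R) : D → Option R :=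
  know orc (wenc T ((T p).run f)) t ρ f

/-- encryption followed by the second learning stage -/
noncomputable def comb (t : ℕ) (ρ : D → Option R) (p : Bool × ΩE) :
    QAlg D R (C × (D → Option R)) :=
  (T p).bind fun c => (learnAlg orc (wenc T c) t ρ).bind fun σ => QAlg.ret (c, σ)

lemma run_comb (t : ℕ) (ρ : D → Option R) (p : Bool × ΩE) (f : D → R) :
    (comb T t ρ p).run f = ((T p).run f, kn T t ρ p f) := by
  unfold comb
  rw [QAlg.run_bind, QAlg.run_bind, QAlg.run_ret, run_learnAlg]
  rfl

lemma cost_comb (hT : ∀ p f, (T p).cost f ≤ q) (t : ℕ) (ρ : D → Option R) (p : Bool × ΩE)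
    (f : D → R) : (comb T t ρ p).cost f ≤ q + t := by
  unfold comb
  rw [QAlg.cost_bind, QAlg.cost_bind, QAlg.cost_ret, add_zero]
  exact add_le_add (hT p f) (cost_learnAlg _ _ _ _ _)

lemma queries_comb (t : ℕ) (ρ : D → Option R) (p : Bool × ΩE) (f : D → R) :
    (comb T t ρ p).queries f = (T p).queries f ∪
      (learnAlg orc (wenc T ((T p).run f)) t ρ).queries f := by
  unfold comb
  rw [QAlg.queries_bind, QAlg.queries_bind, QAlg.queries_ret, Finset.union_empty]

lemma ovr_comb_ne {t : ℕ} {ρ : D → Option R} {p : Bool × ΩE} {f F : D → R} (hf : Ext ρ f)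
    (hF : Ext ρ F) {x : D}
    (h : ovr F (res ((comb T t ρ p).queries f) f) x ≠ ovr F (kn T t ρ p f) x) :
    x ∈ (T p).queries f ∧ kn T t ρ p f x = none := by
  rw [ovr_res] at h
  have hk := know_eq_queries orc (wenc T ((T p).run f)) t ρ f x
  have hkn : kn T t ρ p f x = know orc (wenc T ((T p).run f)) t ρ f x := rfl
  by_cases h2 : x ∈ (learnAlg orc (wenc T ((T p).run f)) t ρ).queries f
  · rw [if_pos h2] at hk
    have h3 : x ∈ (comb T t ρ p).queries f := by
      rw [queries_comb]
      exact Finset.mem_union_right _ h2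
    rw [if_pos h3, ovr_some (hkn.trans hk)] at h
    exact absurd rfl h
  · rw [if_neg h2] at hk
    rcases hρ : ρ x with _ | y
    · by_cases h1 : x ∈ (T p).queries f
      · exact ⟨h1, by rw [hkn, hk, hρ]⟩
      · have h3 : x ∉ (comb T t ρ p).queries f := by
          rw [queries_comb, Finset.mem_union]
          push Not
          exact ⟨h1, h2⟩
        rw [if_neg h3, ovr_of_none (by rw [hkn, hk, hρ])] at h
        exact absurd rfl h
    · rw [ovr_some (y := y) (by rw [hkn, hk, hρ])] at h
      have h4 : f x = y := hf x y hρ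
      have h5 : F x = y := hF x y hρ
      split_ifs at h
      · exact absurd h4 h
      · exact absurd h5 h

/-- grouping by ciphertext and knowledge -/
lemma sum_consE (t : ℕ) (ρ : D → Option R)
    (H : (Bool × ΩE) → (D → R) → C → (D → Option R) → ℝ) :
    ∑ p, ∑ f ∈ exts ρ, H p f ((T p).run f) (kn T t ρ p f) =
      ∑ c, ∑ σ ∈ views orc (wenc T c) t ρ, ∑ z ∈ consE T c σ, H z.1 z.2 c σ := by
  have h1 : ∀ c, ∑ σ ∈ views orc (wenc T c) t ρ, ∑ z ∈ consE T c σ, H z.1 z.2 c σ =
      ∑ z : (Bool × ΩE) × (D → R), if Ext ρ z.2 then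
        (if (T z.1).run z.2 = c then H z.1 z.2 c (know orc (wenc T c) t ρ z.2) else 0) else 0 := by
    intro c
    have h2 := sum_views orc (wenc T c) (orc : (Bool × ΩE) × (D → R) → (D → R)) t ρ
      (fun z σ => if (T z.1).run z.2 = c then H z.1 z.2 c σ else 0)
    refine Eq.trans ?_ h2.symm
    refine Finset.sum_congr rfl fun σ _ => ?_
    unfold consE
    rw [Finset.sum_filter]
    refine Finset.sum_congr rfl fun z _ => ?_
    unfold orc
    by_cases h1 : Ext σ z.2 <;> by_cases h2 : (T z.1).run z.2 = c <;> simp [h1, h2]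
  simp only [h1]
  conv_rhs => rw [Finset.sum_comm, Fintype.sum_prod_type]
  refine Finset.sum_congr rfl fun p _ => ?_
  unfold exts
  rw [Finset.sum_filter]
  refine Finset.sum_congr rfl fun f _ => ?_
  by_cases hf : Ext ρ f
  · simp only [hf, if_true]
    rw [Finset.sum_ite_eq Finset.univ]
    simp [kn]
  · simp [hf]

/-- the time of the second learning stage -/
lemma exists_time_enc (hT : ∀ p f, (T p).cost f ≤ q) {Tm : ℕ} (hTm : 0 < Tm)
    (ρ : D → Option R) :
    ∃ t < Tm, ∑ c, ∑ σ ∈ views orc (wenc T c) t ρ, best orc (wenc T c) σ ≤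
      q * (Fintype.card (Bool × ΩE) * (exts ρ).card) / Tm := by
  refine exists_time hTm (fun t => ∑ c, ∑ σ ∈ views orc (wenc T c) t ρ,
    best orc (wenc T c) σ) _ ?_
  rw [Finset.sum_comm]
  calc ∑ c, ∑ t ∈ Finset.range Tm, ∑ σ ∈ views orc (wenc T c) t ρ, best orc (wenc T c) σ
      ≤ ∑ c, ∑ z : (Bool × ΩE) × (D → R), if Ext ρ z.2 then
          (∑ x, wenc T c x z) else 0 := by
        refine Finset.sum_le_sum fun c _ => ?_
        refine (sum_best_le orc (wenc T c) (wenc_nonneg T c) Tm ρ).trans ?_
        refine Finset.sum_le_sum fun z _ => ?_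
        unfold orc
        by_cases h : Ext ρ z.2
        · simp only [h, if_true]
          refine Finset.sum_le_sum fun x _ => ?_
          split_ifs
          · exact le_rfl
          · exact wenc_nonneg T c x z
        · simp [h]
    _ = ∑ z : (Bool × ΩE) × (D → R), if Ext ρ z.2 then
          (((T z.1).queries z.2).card : ℝ) else 0 := by
        rw [Finset.sum_comm]
        refine Finset.sum_congr rfl fun z _ => ?_
        by_cases h : Ext ρ z.2
        · simp only [h, if_true]
          rw [Finset.sum_comm]
          unfold wenc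
          have : ∀ x : D, ∑ c, (if (T z.1).run z.2 = c ∧ x ∈ (T z.1).queries z.2 then
              (1 : ℝ) else 0) = if x ∈ (T z.1).queries z.2 then 1 else 0 := by
            intro x
            by_cases hx : x ∈ (T z.1).queries z.2
            · simp [hx]
            · simp [hx]
          simp only [this]
          rw [Finset.sum_boole]
          simp
        · simp [h]
    _ ≤ ∑ z : (Bool × ΩE) × (D → R), if Ext ρ z.2 then (q : ℝ) else 0 := by
        refine Finset.sum_le_sum fun z _ => ?_
        by_cases h : Ext ρ z.2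
        · simp only [h, if_true]
          exact_mod_cast (QAlg.card_queries_le _ _).trans (hT _ _)
        · simp [h]
    _ = q * (Fintype.card (Bool × ΩE) * (exts ρ).card) := by
        rw [Fintype.sum_prod_type]
        have : ∀ p : Bool × ΩE, ∑ f : D → R, (if Ext ρ f then (q : ℝ) else 0) =
            (exts ρ).card * q := by
          intro p
          rw [← Finset.sum_filter, Finset.sum_const, nsmul_eq_mul]
          rfl
        refine (Finset.sum_congr rfl fun p _ => this p).trans ?_
        rw [Finset.sum_const, nsmul_eq_mul, Finset.card_univ]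
        ring

end

end Pool.Agent.QPKE99
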