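import Pool.Agent.QPKE99.ClassEnc

/-!
# Classical encryption: the attack, for fixed knowledge before the ciphertext
-/

set_option autoImplicit false
set_option linter.unusedSectionVars false

open scoped BigOperators

namespace Pool.Agent.QPKE99

open Pool.Agent.PKE70

open Classical

variable {D R SK C WD ΩD ΩE I : Type} [Fintype D] [DecidableEq D]
  [AddCommGroup R] [Fintype R] [Fintype SK] [Fintype C]
  [Fintype ΩE] [Fintype WD] [Fintype ΩD] {q : ℕ}

/-- replacing the oracle in the amplitudes -/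
lemma amplitude_swap {α : Type} (s : Finset I) (a : I → (D → R) → ℂ) (T' : QAlg D R α) (n : ℕ)
    (ρ : D → Option R) (hT' : ∀ f ∈ exts ρ, T'.cost f ≤ n) (μ β : ℝ) (hβ0 : 0 ≤ β)
    (hμ : ∑ f ∈ exts ρ, ∑ i ∈ s, ‖a i f‖ ^ 2 = μ)
    (hβ : ∀ x, ρ x = none → ∑ f ∈ exts ρ, ∑ i ∈ s, ‖a i f - avx x (a i) f‖ ^ 2 ≤ β)
    (φ : (D → R) → (D → R) → I → ℝ) (hφ : ∀ f F i, |φ f F i| ≤ 1) :
    |∑ f ∈ exts ρ, ∑ F ∈ exts ρ, ∑ i ∈ s,
      (‖a i (ovr F (res (T'.queries f) f))‖ ^ 2 - ‖a i F‖ ^ 2) * φ f F i| ≤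
      (exts ρ).card * (4 * (n * Real.sqrt (μ * β))) := by
  set N : ℝ := ((exts ρ).card : ℝ) with hN
  have hμ0 : 0 ≤ μ := by
    rw [← hμ]
    exact Finset.sum_nonneg fun f _ => Finset.sum_nonneg fun i _ => by positivity
  have hsum : ∀ (H : (D → R) → (D → R) → I → ℝ),
      ∑ f ∈ exts ρ, ∑ F ∈ exts ρ, ∑ i ∈ s, H f F i =
      ∑ p ∈ exts ρ ×ˢ exts ρ ×ˢ s, H p.1 p.2.1 p.2.2 := by
    intro H
    rw [Finset.sum_product]
    refine Finset.sum_congr rfl fun f _ => ?_
    rw [Finset.sum_product]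
  set J := exts ρ ×ˢ exts ρ ×ˢ s with hJ
  let u : (D → R) × (D → R) × I → ℂ := fun p =>
    a p.2.2 (ovr p.2.1 (res (T'.queries p.1) p.1))
  let v : (D → R) × (D → R) × I → ℂ := fun p => a p.2.2 p.2.1
  have hu : ∑ p ∈ J, ‖u p‖ ^ 2 = N * μ := by
    have h := swap_sum_simple T' ρ (fun f => ∑ i ∈ s, ‖a i f‖ ^ 2)
    rw [hμ, hsum (fun f F i => ‖a i (ovr F (res (T'.queries f) f))‖ ^ 2)] at h
    exact h
  have hv : ∑ p ∈ J, ‖v p‖ ^ 2 = N * μ := by
    have h := hsum (fun _ F i => ‖a i F‖ ^ 2)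
    rw [← h, Finset.sum_const, nsmul_eq_mul, hμ]
  have huv : ∑ p ∈ J, ‖u p - v p‖ ^ 2 ≤ 4 * (N * β) * n ^ 2 := by
    have h := tree_decouple s T' n ρ a β hβ0 hT' hβ
    rw [hsum (fun f F i => ‖a i (ovr F (res (T'.queries f) f)) - a i F‖ ^ 2)] at h
    exact h
  rw [hsum (fun f F i => (‖a i (ovr F (res (T'.queries f) f))‖ ^ 2 - ‖a i F‖ ^ 2) * φ f F i)]
  have h1 : |∑ p ∈ J, (‖u p‖ ^ 2 - ‖v p‖ ^ 2) * φ p.1 p.2.1 p.2.2| ≤
      ∑ p ∈ J, (‖u p‖ + ‖v p‖) * ‖u p - v p‖ := by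
    refine (Finset.abs_sum_le_sum_abs _ _).trans (Finset.sum_le_sum fun p _ => ?_)
    rw [abs_mul]
    have h2 : |‖u p‖ ^ 2 - ‖v p‖ ^ 2| = (‖u p‖ + ‖v p‖) * |‖u p‖ - ‖v p‖| := by
      rw [show ‖u p‖ ^ 2 - ‖v p‖ ^ 2 = (‖u p‖ + ‖v p‖) * (‖u p‖ - ‖v p‖) by ring, abs_mul,
        abs_of_nonneg (by positivity)]
    have h3 : |‖u p‖ - ‖v p‖| ≤ ‖u p - v p‖ := abs_norm_sub_norm_le _ _
    rw [h2]
    calc (‖u p‖ + ‖v p‖) * |‖u p‖ - ‖v p‖| * |φ p.1 p.2.1 p.2.2|
        ≤ (‖u p‖ + ‖v p‖) * ‖u p - v p‖ * 1 := by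
          refine mul_le_mul (mul_le_mul_of_nonneg_left h3 (by positivity)) (hφ _ _ _)
            (abs_nonneg _) (by positivity)
      _ = (‖u p‖ + ‖v p‖) * ‖u p - v p‖ := mul_one _
  refine h1.trans ?_
  have h4 := Finset.sum_mul_sq_le_sq_mul_sq J (fun p => ‖u p‖ + ‖v p‖) (fun p => ‖u p - v p‖)
  have h5 : ∑ p ∈ J, (‖u p‖ + ‖v p‖) ^ 2 ≤ 4 * (N * μ) := by
    calc ∑ p ∈ J, (‖u p‖ + ‖v p‖) ^ 2 ≤ ∑ p ∈ J, (2 * ‖u p‖ ^ 2 + 2 * ‖v p‖ ^ 2) :=
          Finset.sum_le_sum fun p _ => by nlinarith [sq_nonneg (‖u p‖ - ‖v p‖)]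
      _ = 4 * (N * μ) := by
          rw [Finset.sum_add_distrib, ← Finset.mul_sum, ← Finset.mul_sum, hu, hv]
          ring
  have h6 : (∑ p ∈ J, (‖u p‖ + ‖v p‖) * ‖u p - v p‖) ^ 2 ≤
      (N * (4 * (n * Real.sqrt (μ * β)))) ^ 2 := by
    refine h4.trans ?_
    calc (∑ p ∈ J, (‖u p‖ + ‖v p‖) ^ 2) * ∑ p ∈ J, ‖u p - v p‖ ^ 2
        ≤ (4 * (N * μ)) * (4 * (N * β) * n ^ 2) :=
          mul_le_mul h5 huv (Finset.sum_nonneg fun p _ => by positivity) (by positivity)
      _ = (N * (4 * (n * Real.sqrt (μ * β)))) ^ 2 := by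
          rw [mul_pow, mul_pow, mul_pow, Real.sq_sqrt (by positivity)]
          ring
  exact (pow_le_pow_iff_left₀ (Finset.sum_nonneg fun p _ => by positivity) (by positivity)
    two_ne_zero).mp h6

section

variable (T : Bool × ΩE → QAlg D R C) (dec : SK → C → Alg D R WD ΩD Bool q)

/-- the number of compatible pairs in which the bit is `b` -/
noncomputable def nb (c : C) (σ : D → Option R) (b : Bool) : ℝ :=
  ((consE T c σ).filter fun z => z.1.1 = b).card

/-- the more likely bit -/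
noncomputable def bit (c : C) (σ : D → Option R) : Bool :=
  if nb T c σ false ≤ nb T c σ true then true else false

lemma nb_le (c : C) (σ : D → Option R) (b : Bool) : nb T c σ b ≤ nb T c σ (bit T c σ) := by
  unfold bit
  by_cases h : nb T c σ false ≤ nb T c σ true
  · rw [if_pos h]
    cases b
    · exact h
    · exact le_rfl
  · rw [if_neg h]
    cases b
    · exact le_rfl
    · exact (not_le.mp h).le

/-- The attack for fixed knowledge `ρ`: after the second learning stage, the more likely bit is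
correct with almost the probability of the decryption. -/
theorem local_attack_enc (hT : ∀ p f, (T p).cost f ≤ q) (s : Finset I) (a : I → (D → R) → ℂ)
    (key : I → SK) (ρ : D → Option R) (t : ℕ) (μ β γ : ℝ) (hβ0 : 0 ≤ β)
    (hμ : ∑ f ∈ exts ρ, ∑ i ∈ s, ‖a i f‖ ^ 2 = μ)
    (hβ : ∀ x, ρ x = none → ∑ f ∈ exts ρ, ∑ i ∈ s, ‖a i f - avx x (a i) f‖ ^ 2 ≤ β)
    (hγ : ∑ c, ∑ σ ∈ views orc (wenc T c) t ρ, best orc (wenc T c) σ ≤
      (Fintype.card (Bool × ΩE) * (exts ρ).card) * γ) :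
    ∑ p : Bool × ΩE, ∑ f ∈ exts ρ, ∑ i ∈ s,
        ‖a i f‖ ^ 2 * (dec (key i) ((T p).run f)).prob f p.1 ≤
      ∑ p : Bool × ΩE, ∑ f ∈ exts ρ, ∑ i ∈ s,
        ‖a i f‖ ^ 2 * (if bit T ((T p).run f) (kn T t ρ p f) = p.1 then 1 else 0) +
      Fintype.card (Bool × ΩE) * (8 * ((q + t) * Real.sqrt (μ * β)) +
        4 * (μ * (q * Real.sqrt γ))) := by
  set N : ℝ := ((exts ρ).card : ℝ) with hN
  set nE : ℝ := (Fintype.card (Bool × ΩE) : ℝ) with hnE
  have hμ0 : 0 ≤ μ := by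
    rw [← hμ]
    exact Finset.sum_nonneg fun f _ => Finset.sum_nonneg fun i _ => by positivity
  rcases Finset.eq_empty_or_nonempty (exts ρ) with hemp | hne
  · rw [hemp]
    simp only [Finset.sum_empty, Finset.sum_const_zero, zero_add]
    positivity
  have hN0 : 0 < N := by rw [hN]; exact_mod_cast hne.card_pos
  let g : Bool × ΩE → (D → R) → (D → R) → (D → R) := fun p f F =>
    ovr F (res ((comb T t ρ p).queries f) f)
  have hgrun : ∀ p f F, (T p).run (g p f F) = (T p).run f ∧ kn T t ρ p (g p f F) = kn T t ρ p f := by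
    intro p f F
    have h := ((comb T t ρ p).local_run (f := f) (f' := g p f F) (fun x hx => by
      simp only [g]
      rw [ovr_res, if_pos hx])).1
    rw [run_comb, run_comb, Prod.mk.injEq] at h
    exact h
  have hcost : ∀ p, ∀ f ∈ exts ρ, (comb T t ρ p).cost f ≤ q + t := fun p f _ =>
    cost_comb T hT t ρ p f
  -- step A
  have hA : N * ∑ p : Bool × ΩE, ∑ f ∈ exts ρ, ∑ i ∈ s,
        ‖a i f‖ ^ 2 * (dec (key i) ((T p).run f)).prob f p.1 =
      ∑ p : Bool × ΩE, ∑ f ∈ exts ρ, ∑ F ∈ exts ρ, ∑ i ∈ s,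
        ‖a i (g p f F)‖ ^ 2 * (dec (key i) ((T p).run f)).prob (g p f F) p.1 := by
    rw [Finset.mul_sum]
    refine Finset.sum_congr rfl fun p _ => ?_
    rw [← swap_sum_simple (comb T t ρ p) ρ (fun f => ∑ i ∈ s,
      ‖a i f‖ ^ 2 * (dec (key i) ((T p).run f)).prob f p.1)]
    refine Finset.sum_congr rfl fun f _ => Finset.sum_congr rfl fun F _ =>
      Finset.sum_congr rfl fun i _ => ?_
    have h := (hgrun p f F).1
    simp only [g] at h
    rw [h]
  have hE : N * ∑ p : Bool × ΩE, ∑ f ∈ exts ρ, ∑ i ∈ s,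
        ‖a i f‖ ^ 2 * (if bit T ((T p).run f) (kn T t ρ p f) = p.1 then 1 else 0) =
      ∑ p : Bool × ΩE, ∑ f ∈ exts ρ, ∑ F ∈ exts ρ, ∑ i ∈ s,
        ‖a i (g p f F)‖ ^ 2 * (if bit T ((T p).run f) (kn T t ρ p f) = p.1 then 1 else 0) := by
    rw [Finset.mul_sum]
    refine Finset.sum_congr rfl fun p _ => ?_
    rw [← swap_sum_simple (comb T t ρ p) ρ (fun f => ∑ i ∈ s,
      ‖a i f‖ ^ 2 * (if bit T ((T p).run f) (kn T t ρ p f) = p.1 then 1 else 0))]
    refine Finset.sum_congr rfl fun f _ => Finset.sum_congr rfl fun F _ =>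
      Finset.sum_congr rfl fun i _ => ?_
    have h := hgrun p f F
    simp only [g] at h
    rw [h.1, h.2]
  -- steps B and E
  set B : ℝ := N * (4 * ((q + t : ℕ) * Real.sqrt (μ * β))) with hB
  have hBstep : ∀ φ : Bool × ΩE → (D → R) → (D → R) → I → ℝ, (∀ p f F i, |φ p f F i| ≤ 1) →
      |∑ p : Bool × ΩE, ∑ f ∈ exts ρ, ∑ F ∈ exts ρ, ∑ i ∈ s, ‖a i (g p f F)‖ ^ 2 * φ p f F i -
        ∑ p : Bool × ΩE, ∑ f ∈ exts ρ, ∑ F ∈ exts ρ, ∑ i ∈ s, ‖a i F‖ ^ 2 * φ p f F i| ≤
      nE * B := by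
    intro φ hφ
    rw [← Finset.sum_sub_distrib]
    refine (Finset.abs_sum_le_sum_abs _ _).trans ?_
    have h1 : nE * B = ∑ _p : Bool × ΩE, B := by
      rw [Finset.sum_const, nsmul_eq_mul, Finset.card_univ]
    rw [h1]
    refine Finset.sum_le_sum fun p _ => ?_
    have h := amplitude_swap s a (comb T t ρ p) (q + t) ρ (hcost p) μ β hβ0 hμ hβ (φ p) (hφ p)
    refine le_trans (le_of_eq ?_) h
    congr 1
    rw [← Finset.sum_sub_distrib]
    refine Finset.sum_congr rfl fun f _ => ?_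
    rw [← Finset.sum_sub_distrib]
    refine Finset.sum_congr rfl fun F _ => ?_
    rw [← Finset.sum_sub_distrib]
    refine Finset.sum_congr rfl fun i _ => ?_
    simp only [g]
    ring
  have hprob : ∀ (k : SK) (c : C) (f : D → R) (b : Bool), |(dec k c).prob f b| ≤ 1 := by
    intro k c f b
    rw [abs_of_nonneg ((dec k c).prob_nonneg f b)]
    exact (dec k c).prob_le_one f b
  have hB1 := hBstep (fun p f F i => (dec (key i) ((T p).run f)).prob (g p f F) p.1)
    (fun p f F i => hprob _ _ _ _)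
  have hB2 := hBstep (fun p f F i => if bit T ((T p).run f) (kn T t ρ p f) = p.1 then 1 else 0)
    (fun p f F i => by split_ifs <;> simp)
  -- step C
  have hC : |∑ p : Bool × ΩE, ∑ f ∈ exts ρ, ∑ F ∈ exts ρ, ∑ i ∈ s,
        ‖a i F‖ ^ 2 * (dec (key i) ((T p).run f)).prob (g p f F) p.1 -
      ∑ p : Bool × ΩE, ∑ f ∈ exts ρ, ∑ F ∈ exts ρ, ∑ i ∈ s,
        ‖a i F‖ ^ 2 * (dec (key i) ((T p).run f)).prob (ovr F (kn T t ρ p f)) p.1| ≤
      N * (nE * (4 * (μ * (q * Real.sqrt γ)))) := by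
    have hpt : ∀ (i : I), ∀ F ∈ exts ρ, ∑ p : Bool × ΩE, ∑ f ∈ exts ρ,
        |(dec (key i) ((T p).run f)).prob (g p f F) p.1 -
          (dec (key i) ((T p).run f)).prob (ovr F (kn T t ρ p f)) p.1| ≤
        4 * (nE * N * (q * Real.sqrt γ)) := by
      intro i F hF
      have h1 : ∀ (p : Bool × ΩE), ∀ f ∈ exts ρ,
          |(dec (key i) ((T p).run f)).prob (g p f F) p.1 -
            (dec (key i) ((T p).run f)).prob (ovr F (kn T t ρ p f)) p.1| ≤
          4 * Real.sqrt (q * ∑ x, if x ∈ (T p).queries f ∧ kn T t ρ p f x = none then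
            (dec (key i) ((T p).run f)).wt (ovr F (kn T t ρ p f)) x else 0) := by
        intro p f hf
        have h2 := (dec (key i) ((T p).run f)).bbbv (g p f F) (ovr F (kn T t ρ p f))
          (fun b' => if b' = p.1 then 1 else 0) (fun b' => by split_ifs <;> simp)
        have h3 : ∑ b', (if b' = p.1 then (1 : ℝ) else 0) *
            ((dec (key i) ((T p).run f)).prob (g p f F) b' -
              (dec (key i) ((T p).run f)).prob (ovr F (kn T t ρ p f)) b') =
            (dec (key i) ((T p).run f)).prob (g p f F) p.1 -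
              (dec (key i) ((T p).run f)).prob (ovr F (kn T t ρ p f)) p.1 := by
          simp
        rw [h3] at h2
        refine h2.trans (mul_le_mul_of_nonneg_left (Real.sqrt_le_sqrt
          (mul_le_mul_of_nonneg_left (Finset.sum_le_sum fun x _ => ?_) (Nat.cast_nonneg q)))
          (by norm_num))
        by_cases hx : g p f F x ≠ ovr F (kn T t ρ p f) x
        · have h4 := ovr_comb_ne T (mem_exts.mp hf) (mem_exts.mp hF) hx
          simp [hx, h4]
        · simp only [hx, if_false]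
          split_ifs
          · exact Alg.wt_nonneg _ _ _
          · exact le_rfl
      refine (Finset.sum_le_sum fun p _ => Finset.sum_le_sum fun f hf => h1 p f hf).trans ?_
      rw [sum_consE T t ρ (fun p f c σ => 4 * Real.sqrt (q * ∑ x,
        if x ∈ (T p).queries f ∧ σ x = none then (dec (key i) c).wt (ovr F σ) x else 0))]
      simp only [← Finset.mul_sum]
      refine mul_le_mul_of_nonneg_left ?_ (by norm_num)
      have h5 : ∀ c, ∀ σ ∈ views orc (wenc T c) t ρ, ∑ z ∈ consE T c σ,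
          Real.sqrt (q * ∑ x, if x ∈ (T z.1).queries z.2 ∧ σ x = none then
            (dec (key i) c).wt (ovr F σ) x else 0) ≤
          q * Real.sqrt ((consE T c σ).card * best orc (wenc T c) σ) := by
        intro c σ _
        have h := avg_weight (consE T c σ) (fun z => (T z.1).queries z.2) (fun x => σ x = none)
          (best orc (wenc T c) σ) q (best_nonneg _ _ (wenc_nonneg T c) σ) (Nat.cast_nonneg q)
          (fun x hx => by
            rw [← act_wenc]
            exact act_le_best _ _ hx)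
          (fun x => (dec (key i) c).wt (ovr F σ) x) (Alg.wt_nonneg _ _) (Alg.sum_wt_le _ _)
        refine le_trans (le_of_eq (Finset.sum_congr rfl fun z _ => ?_)) h
        congr 2
        refine Finset.sum_congr rfl fun x _ => ?_
        split_ifs <;> rfl
      refine (Finset.sum_le_sum fun c _ => Finset.sum_le_sum fun σ hσ => h5 c σ hσ).trans ?_
      simp only [← Finset.mul_sum]
      have hcard : ∑ c, ∑ σ ∈ views orc (wenc T c) t ρ, ((consE T c σ).card : ℝ) = nE * N := by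
        have h6 := sum_consE T t ρ (fun _ _ _ _ => (1 : ℝ))
        simp only [Finset.sum_const, nsmul_eq_mul, mul_one, Finset.card_univ] at h6
        exact h6.symm
      have h7 : ∑ c, ∑ σ ∈ views orc (wenc T c) t ρ,
          Real.sqrt ((consE T c σ).card * best orc (wenc T c) σ) ≤ nE * N * Real.sqrt γ := by
        calc ∑ c, ∑ σ ∈ views orc (wenc T c) t ρ,
              Real.sqrt ((consE T c σ).card * best orc (wenc T c) σ)
            ≤ ∑ c, Real.sqrt ((∑ σ ∈ views orc (wenc T c) t ρ, ((consE T c σ).card : ℝ)) *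
                ∑ σ ∈ views orc (wenc T c) t ρ, best orc (wenc T c) σ) :=
              Finset.sum_le_sum fun c _ => sum_sqrt_mul_le _ _ _
                (fun _ _ => Nat.cast_nonneg _) (fun σ _ => best_nonneg _ _ (wenc_nonneg T c) σ)
          _ ≤ Real.sqrt ((∑ c, ∑ σ ∈ views orc (wenc T c) t ρ, ((consE T c σ).card : ℝ)) *
                ∑ c, ∑ σ ∈ views orc (wenc T c) t ρ, best orc (wenc T c) σ) :=
              sum_sqrt_mul_le _ _ _
                (fun _ _ => Finset.sum_nonneg fun _ _ => Nat.cast_nonneg _)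
                (fun c _ => Finset.sum_nonneg fun σ _ => best_nonneg _ _ (wenc_nonneg T c) σ)
          _ ≤ Real.sqrt ((nE * N) * ((nE * N) * γ)) := by
              rw [hcard]
              exact Real.sqrt_le_sqrt (mul_le_mul_of_nonneg_left hγ (by positivity))
          _ = nE * N * Real.sqrt γ := by
              rw [← mul_assoc, Real.sqrt_mul (by positivity), Real.sqrt_mul_self (by positivity)]
      calc (q : ℝ) * ∑ c, ∑ σ ∈ views orc (wenc T c) t ρ,
            Real.sqrt ((consE T c σ).card * best orc (wenc T c) σ)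
          ≤ q * (nE * N * Real.sqrt γ) := mul_le_mul_of_nonneg_left h7 (Nat.cast_nonneg q)
        _ = nE * N * (q * Real.sqrt γ) := by ring
    rw [← Finset.sum_sub_distrib]
    have h8 : ∑ p : Bool × ΩE, (∑ f ∈ exts ρ, ∑ F ∈ exts ρ, ∑ i ∈ s,
          ‖a i F‖ ^ 2 * (dec (key i) ((T p).run f)).prob (g p f F) p.1 -
        ∑ f ∈ exts ρ, ∑ F ∈ exts ρ, ∑ i ∈ s,
          ‖a i F‖ ^ 2 * (dec (key i) ((T p).run f)).prob (ovr F (kn T t ρ p f)) p.1) =
        ∑ F ∈ exts ρ, ∑ i ∈ s, ‖a i F‖ ^ 2 * ∑ p : Bool × ΩE, ∑ f ∈ exts ρ,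
          ((dec (key i) ((T p).run f)).prob (g p f F) p.1 -
            (dec (key i) ((T p).run f)).prob (ovr F (kn T t ρ p f)) p.1) := by
      have e1 : ∀ p : Bool × ΩE, (∑ f ∈ exts ρ, ∑ F ∈ exts ρ, ∑ i ∈ s,
          ‖a i F‖ ^ 2 * (dec (key i) ((T p).run f)).prob (g p f F) p.1 -
        ∑ f ∈ exts ρ, ∑ F ∈ exts ρ, ∑ i ∈ s,
          ‖a i F‖ ^ 2 * (dec (key i) ((T p).run f)).prob (ovr F (kn T t ρ p f)) p.1) =
          ∑ F ∈ exts ρ, ∑ i ∈ s, ∑ f ∈ exts ρ, ‖a i F‖ ^ 2 *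
          ((dec (key i) ((T p).run f)).prob (g p f F) p.1 -
            (dec (key i) ((T p).run f)).prob (ovr F (kn T t ρ p f)) p.1) := by
        intro p
        rw [← Finset.sum_sub_distrib]
        simp only [← Finset.sum_sub_distrib, ← mul_sub]
        rw [Finset.sum_comm]
        exact Finset.sum_congr rfl fun F _ => Finset.sum_comm
      rw [Finset.sum_congr rfl fun p _ => e1 p, Finset.sum_comm]
      refine Finset.sum_congr rfl fun F _ => ?_
      rw [Finset.sum_comm]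
      refine Finset.sum_congr rfl fun i _ => ?_
      rw [Finset.mul_sum]
      refine Finset.sum_congr rfl fun p _ => ?_
      rw [Finset.mul_sum]
    rw [h8]
    refine (Finset.abs_sum_le_sum_abs _ _).trans ?_
    calc ∑ F ∈ exts ρ, |∑ i ∈ s, ‖a i F‖ ^ 2 * ∑ p : Bool × ΩE, ∑ f ∈ exts ρ,
          ((dec (key i) ((T p).run f)).prob (g p f F) p.1 -
            (dec (key i) ((T p).run f)).prob (ovr F (kn T t ρ p f)) p.1)|
        ≤ ∑ F ∈ exts ρ, ∑ i ∈ s, ‖a i F‖ ^ 2 * (4 * (nE * N * (q * Real.sqrt γ))) := by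
          refine Finset.sum_le_sum fun F hF => (Finset.abs_sum_le_sum_abs _ _).trans
            (Finset.sum_le_sum fun i _ => ?_)
          rw [abs_mul, abs_of_nonneg (by positivity : (0 : ℝ) ≤ ‖a i F‖ ^ 2)]
          refine mul_le_mul_of_nonneg_left ?_ (by positivity)
          refine (Finset.abs_sum_le_sum_abs _ _).trans ?_
          exact (Finset.sum_le_sum fun p _ => Finset.abs_sum_le_sum_abs _ _).trans
            (hpt i F hF)
      _ = (∑ F ∈ exts ρ, ∑ i ∈ s, ‖a i F‖ ^ 2) * (4 * (nE * N * (q * Real.sqrt γ))) := by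
          simp only [Finset.sum_mul]
      _ = N * (nE * (4 * (μ * (q * Real.sqrt γ)))) := by
          rw [hμ]
          ring
  -- step D
  have hD : ∑ p : Bool × ΩE, ∑ f ∈ exts ρ, ∑ F ∈ exts ρ, ∑ i ∈ s,
        ‖a i F‖ ^ 2 * (dec (key i) ((T p).run f)).prob (ovr F (kn T t ρ p f)) p.1 ≤
      ∑ p : Bool × ΩE, ∑ f ∈ exts ρ, ∑ F ∈ exts ρ, ∑ i ∈ s,
        ‖a i F‖ ^ 2 * (if bit T ((T p).run f) (kn T t ρ p f) = p.1 then 1 else 0) := by
    let G : C → (D → Option R) → Bool → ℝ := fun c σ b =>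
      ∑ F ∈ exts ρ, ∑ i ∈ s, ‖a i F‖ ^ 2 * (dec (key i) c).prob (ovr F σ) b
    have hG0 : ∀ c σ b, 0 ≤ G c σ b := fun c σ b => Finset.sum_nonneg fun F _ =>
      Finset.sum_nonneg fun i _ => mul_nonneg (by positivity) ((dec (key i) c).prob_nonneg _ _)
    have hGs : ∀ c σ, ∑ b, G c σ b ≤ μ := by
      intro c σ
      simp only [G]
      rw [Finset.sum_comm, ← hμ]
      refine Finset.sum_le_sum fun F _ => ?_
      rw [Finset.sum_comm]
      refine Finset.sum_le_sum fun i _ => ?_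
      rw [← Finset.mul_sum]
      exact mul_le_of_le_one_right (by positivity) ((dec (key i) c).sum_prob_le _)
    have e1 := sum_consE T t ρ (fun p _ c σ => G c σ p.1)
    have e2 := sum_consE T t ρ (fun p _ c σ => if bit T c σ = p.1 then μ else 0)
    have e3 : ∑ p : Bool × ΩE, ∑ f ∈ exts ρ, ∑ F ∈ exts ρ, ∑ i ∈ s,
        ‖a i F‖ ^ 2 * (if bit T ((T p).run f) (kn T t ρ p f) = p.1 then 1 else 0) =
        ∑ p : Bool × ΩE, ∑ f ∈ exts ρ,
          if bit T ((T p).run f) (kn T t ρ p f) = p.1 then μ else 0 := by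
      refine Finset.sum_congr rfl fun p _ => Finset.sum_congr rfl fun f _ => ?_
      by_cases h : bit T ((T p).run f) (kn T t ρ p f) = p.1
      · simp only [h, if_true, mul_one]
        exact hμ
      · simp [h]
    rw [e3, e2]
    refine (le_of_eq e1).trans ?_
    refine Finset.sum_le_sum fun c _ => Finset.sum_le_sum fun σ _ => ?_
    have e4 : ∀ (h : Bool → ℝ), ∑ z ∈ consE T c σ, h z.1.1 = ∑ b, nb T c σ b * h b := by
      intro h
      rw [← Finset.sum_fiberwise_of_maps_to (s := consE T c σ) (t := Finset.univ)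
        (g := fun z => z.1.1) (fun z _ => Finset.mem_univ _)]
      refine Finset.sum_congr rfl fun b _ => ?_
      have : ∑ z ∈ (consE T c σ).filter (fun z => z.1.1 = b), h z.1.1 =
          ∑ z ∈ (consE T c σ).filter (fun z => z.1.1 = b), h b :=
        Finset.sum_congr rfl fun z hz => by rw [(Finset.mem_filter.mp hz).2]
      rw [this, Finset.sum_const, nsmul_eq_mul]
      rfl
    rw [e4 (fun b => G c σ b), e4 (fun b => if bit T c σ = b then μ else 0)]
    calc ∑ b, nb T c σ b * G c σ b ≤ ∑ b, nb T c σ (bit T c σ) * G c σ b :=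
          Finset.sum_le_sum fun b _ => mul_le_mul_of_nonneg_right (nb_le T c σ b) (hG0 c σ b)
      _ = nb T c σ (bit T c σ) * ∑ b, G c σ b := by rw [Finset.mul_sum]
      _ ≤ nb T c σ (bit T c σ) * μ :=
          mul_le_mul_of_nonneg_left (hGs c σ) (Nat.cast_nonneg _)
      _ = ∑ b, nb T c σ b * (if bit T c σ = b then μ else 0) := by
          simp
  -- assembling
  have h1 := (abs_le.mp hB1).2
  have h2 := (abs_le.mp hB2).1
  have h3 := (abs_le.mp hC).2
  have hfin : N * ∑ p : Bool × ΩE, ∑ f ∈ exts ρ, ∑ i ∈ s,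
        ‖a i f‖ ^ 2 * (dec (key i) ((T p).run f)).prob f p.1 ≤
      N * (∑ p : Bool × ΩE, ∑ f ∈ exts ρ, ∑ i ∈ s,
        ‖a i f‖ ^ 2 * (if bit T ((T p).run f) (kn T t ρ p f) = p.1 then 1 else 0) +
        nE * (8 * ((q + t) * Real.sqrt (μ * β)) + 4 * (μ * (q * Real.sqrt γ)))) := by
    rw [mul_add, hA, hE]
    rw [hB] at h1 h2
    push_cast at h1 h2
    linarith
  exact le_of_mul_le_mul_left hfin hN0

end

end Pool.Agent.QPKE99
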