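import Pool.Agent.QPKE99.ClassGen

/-!
# Classical key generation: the attack
-/

set_option autoImplicit false
set_option linter.unusedSectionVars false

open scoped BigOperators

namespace Pool.Agent.QPKE99

open Pool.Agent.PKE70

open Classical

variable {D R PK SK C WE ΩE WD ΩD ΩG WA ΩA : Type} [Fintype D] [DecidableEq D]
  [AddCommGroup R] [Fintype R] [Fintype PK] [Fintype SK] [Fintype C]
  [Fintype WE] [Fintype ΩE] [Fintype WD] [Fintype ΩD] [Fintype ΩG] [Fintype WA] [Fintype ΩA]
  {q : ℕ}

/-- the success probability of an adversary with oracle `f` and public key `pk` -/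
noncomputable def sucA (enc : PK → Bool → Alg D R WE ΩE C q)
    (A : PK → C → QAlg D R (Alg D R WA ΩA Bool q)) (pk : PK) (f : D → R) : ℝ :=
  𝔼 b : Bool, ∑ c, (enc pk b).prob f c * ((A pk c).run f).prob f b

/-- the weights for learning: hidden queries of key generation -/
noncomputable def wgen (T : ΩG → QAlg D R (PK × SK)) (pk : PK) (x : D) (z : ΩG × (D → R)) : ℝ :=
  if ((T z.1).run z.2).1 = pk ∧ x ∈ hid T z then 1 else 0

lemma wgen_nonneg (T : ΩG → QAlg D R (PK × SK)) (pk : PK) (x : D) (z : ΩG × (D → R)) :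
    0 ≤ wgen T pk x z := by
  unfold wgen
  split_ifs <;> norm_num

lemma act_wgen (T : ΩG → QAlg D R (PK × SK)) (pk : PK) (ρ : D → Option R) (x : D) :
    act (fun z : ΩG × (D → R) => z.2) (wgen T pk) ρ x =
      ((cons T pk ρ).filter fun z => x ∈ hid T z).card := by
  unfold act wgen cons
  rw [Finset.filter_filter, ← Finset.sum_boole]
  refine Finset.sum_congr rfl fun z _ => ?_
  by_cases h1 : Ext ρ z.2 <;> by_cases h2 : ((T z.1).run z.2).1 = pk <;>
    by_cases h3 : x ∈ hid T z <;> simp [h1, h2, h3]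

/-- grouping by public key and knowledge -/
lemma sum_cons (T : ΩG → QAlg D R (PK × SK)) (t : PK → ℕ)
    (H : ΩG × (D → R) → PK → (D → Option R) → ℝ) :
    ∑ z : ΩG × (D → R), H z ((T z.1).run z.2).1
        (know (fun z : ΩG × (D → R) => z.2) (wgen T ((T z.1).run z.2).1)
          (t ((T z.1).run z.2).1) (fun _ => none) z.2) =
      ∑ pk, ∑ σ ∈ views (fun z : ΩG × (D → R) => z.2) (wgen T pk) (t pk) (fun _ => none),
        ∑ z ∈ cons T pk σ, H z pk σ := by
  have h1 : ∀ pk, ∑ σ ∈ views (fun z : ΩG × (D → R) => z.2) (wgen T pk) (t pk)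
        (fun _ => none), ∑ z ∈ cons T pk σ, H z pk σ =
      ∑ z : ΩG × (D → R), if ((T z.1).run z.2).1 = pk then H z pk
        (know (fun z : ΩG × (D → R) => z.2) (wgen T pk) (t pk) (fun _ => none) z.2) else 0 := by
    intro pk
    have h2 := sum_views (fun z : ΩG × (D → R) => z.2) (wgen T pk)
      (fun z : ΩG × (D → R) => z.2) (t pk) (fun _ => none)
      (fun z σ => if ((T z.1).run z.2).1 = pk then H z pk σ else 0)
    have h3 : ∀ f : D → R, Ext (fun _ => none) f := fun f x y h => absurd h (by simp)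
    simp only [h3, if_true] at h2
    rw [h2]
    refine Finset.sum_congr rfl fun σ _ => ?_
    unfold cons
    rw [Finset.sum_filter]
    refine Finset.sum_congr rfl fun z _ => ?_
    by_cases h1 : Ext σ z.2 <;> by_cases h2 : ((T z.1).run z.2).1 = pk <;> simp [h1, h2]
  simp only [h1]
  rw [Finset.sum_comm]
  refine Finset.sum_congr rfl fun z _ => ?_
  rw [Finset.sum_ite_eq Finset.univ]
  simp

/-- The attack on schemes with classical key generation. -/
theorem attack_classGen (T : ΩG → QAlg D R (PK × SK)) (hT : ∀ ω f, (T ω).cost f ≤ q)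
    (enc : PK → Bool → Alg D R WE ΩE C q) (dec : SK → C → Alg D R WD ΩD Bool q)
    (hq : 1 ≤ q) (ε : ℝ) (hε : 0 < ε) :
    ∃ (A : PK → C → QAlg D R (Alg D R WD ΩD Bool q)),
      (∀ pk c f, ((A pk c).cost f : ℝ) ≤ 144 * q ^ 3 / ε ^ 2 + 1) ∧
      𝔼 z : ΩG × (D → R), suc enc dec ((T z.1).run z.2).1 z.2 (skey T z) z.2 ≤
        𝔼 z : ΩG × (D → R), sucA enc A ((T z.1).run z.2).1 z.2 + ε := by
  set Tm : ℕ := ⌈144 * (q : ℝ) ^ 3 / ε ^ 2⌉₊ with hTm
  have hq' : (1 : ℝ) ≤ q := by exact_mod_cast hq
  have hTm1 : 144 * (q : ℝ) ^ 3 / ε ^ 2 ≤ Tm := Nat.le_ceil _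
  have hTm2 : (Tm : ℝ) < 144 * (q : ℝ) ^ 3 / ε ^ 2 + 1 := Nat.ceil_lt_add_one (by positivity)
  have hTm0 : 0 < Tm := by
    rw [hTm]
    exact Nat.ceil_pos.mpr (by positivity)
  have hTm0' : (0 : ℝ) < Tm := by exact_mod_cast hTm0
  set F : ΩG × (D → R) → (D → R) := fun z => z.2 with hF
  set M : ℝ := (Fintype.card (ΩG × (D → R)) : ℝ) with hM
  -- the learning time
  have htot : ∑ t ∈ Finset.range Tm, ∑ pk, ∑ σ ∈ views F (wgen T pk) t (fun _ => none),
      best F (wgen T pk) σ ≤ q * M := by
    rw [Finset.sum_comm]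
    calc ∑ pk, ∑ t ∈ Finset.range Tm, ∑ σ ∈ views F (wgen T pk) t (fun _ => none),
          best F (wgen T pk) σ
        ≤ ∑ pk, ∑ z : ΩG × (D → R), ∑ x, wgen T pk x z := by
          refine Finset.sum_le_sum fun pk _ => ?_
          refine (sum_best_le F (wgen T pk) (wgen_nonneg T pk) Tm (fun _ => none)).trans ?_
          refine Finset.sum_le_sum fun z _ => ?_
          simp only [if_true]
          split_ifs
          · exact le_rfl
          · exact Finset.sum_nonneg fun x _ => wgen_nonneg T pk x z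
      _ = ∑ z : ΩG × (D → R), ((hid T z).card : ℝ) := by
          rw [Finset.sum_comm]
          refine Finset.sum_congr rfl fun z _ => ?_
          rw [Finset.sum_comm]
          unfold wgen
          have : ∀ x : D, ∑ pk, (if ((T z.1).run z.2).1 = pk ∧ x ∈ hid T z then (1 : ℝ) else 0) =
              if x ∈ hid T z then 1 else 0 := by
            intro x
            by_cases hx : x ∈ hid T z
            · simp [hx]
            · simp [hx]
          simp only [this]
          rw [Finset.sum_boole]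
          simp
      _ ≤ ∑ z : ΩG × (D → R), (q : ℝ) := by
          refine Finset.sum_le_sum fun z _ => ?_
          unfold hid
          exact_mod_cast (QAlg.card_queries_le _ _).trans (hT _ _)
      _ = q * M := by
          rw [Finset.sum_const, nsmul_eq_mul, Finset.card_univ, mul_comm]
  obtain ⟨t, ht, hbest⟩ := exists_time hTm0 _ _ htot
  -- the leaves
  have hleaf : ∀ (pk : PK) (σ : D → Option R), ∃ l : C → Alg D R WD ΩD Bool q,
      ∑ z ∈ cons T pk σ, suc enc dec pk z.2 (skey T z) z.2 ≤
        ∑ z ∈ cons T pk σ, (𝔼 b : Bool, ∑ c, (enc pk b).prob z.2 c * (l c).prob z.2 b) +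
          12 * (q * Real.sqrt ((cons T pk σ).card * best F (wgen T pk) σ)) := by
    intro pk σ
    by_cases hne : (cons T pk σ).Nonempty
    · obtain ⟨z', -, h⟩ := local_attack T enc dec pk σ (best F (wgen T pk) σ)
        (best_nonneg F _ (wgen_nonneg T pk) σ) (fun x hx => by
          rw [← act_wgen]
          exact act_le_best F (wgen T pk) hx) hne
      refine ⟨fun c => (dec (skey T z') c).ovrd (ans T z'), h.trans (le_of_eq ?_)⟩
      congr 1
      refine Finset.sum_congr rfl fun z _ => ?_
      unfold suc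
      refine Finset.expect_congr rfl fun b _ => Finset.sum_congr rfl fun c _ => ?_
      rw [Alg.prob_ovrd]
    · rw [Finset.not_nonempty_iff_eq_empty] at hne
      refine ⟨fun _ => Alg.classical (fun _ => QAlg.ret false) (fun _ _ => Nat.zero_le _), ?_⟩
      rw [hne]
      simp
  choose leaf hleaf using hleaf
  let A : PK → C → QAlg D R (Alg D R WD ΩD Bool q) := fun pk c =>
    (learnAlg F (wgen T pk) t (fun _ => none)).bind fun σ => QAlg.ret (leaf pk σ c)
  have hArun : ∀ pk c f, (A pk c).run f = leaf pk (know F (wgen T pk) t (fun _ => none) f) c := by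
    intro pk c f
    show ((learnAlg F (wgen T pk) t (fun _ => none)).bind _).run f = _
    rw [QAlg.run_bind, run_learnAlg, QAlg.run_ret]
  refine ⟨A, ?_, ?_⟩
  · intro pk c f
    have h1 : (A pk c).cost f ≤ t := by
      show ((learnAlg F (wgen T pk) t (fun _ => none)).bind _).cost f ≤ t
      rw [QAlg.cost_bind, QAlg.cost_ret, add_zero]
      exact cost_learnAlg _ _ _ _ _
    have h2 : ((A pk c).cost f : ℝ) ≤ Tm := by exact_mod_cast h1.trans ht.le
    linarith
  · have hreal := sum_cons T (fun _ => t)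
      (fun z pk _ => suc enc dec pk z.2 (skey T z) z.2)
    have hadv := sum_cons T (fun _ => t)
      (fun z pk σ => 𝔼 b : Bool, ∑ c, (enc pk b).prob z.2 c * (leaf pk σ c).prob z.2 b)
    have hcard := sum_cons T (fun _ => t) (fun _ _ _ => (1 : ℝ))
    simp only [Finset.sum_const, nsmul_eq_mul, mul_one, Finset.card_univ] at hcard
    have herr : ∑ pk, ∑ σ ∈ views F (wgen T pk) t (fun _ => none),
        Real.sqrt ((cons T pk σ).card * best F (wgen T pk) σ) ≤ M * Real.sqrt (q / Tm) := by
      calc ∑ pk, ∑ σ ∈ views F (wgen T pk) t (fun _ => none),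
            Real.sqrt ((cons T pk σ).card * best F (wgen T pk) σ)
          ≤ ∑ pk, Real.sqrt ((∑ σ ∈ views F (wgen T pk) t (fun _ => none),
              ((cons T pk σ).card : ℝ)) * ∑ σ ∈ views F (wgen T pk) t (fun _ => none),
              best F (wgen T pk) σ) :=
            Finset.sum_le_sum fun pk _ => sum_sqrt_mul_le _ _ _
              (fun _ _ => Nat.cast_nonneg _) (fun σ _ => best_nonneg F _ (wgen_nonneg T pk) σ)
        _ ≤ Real.sqrt ((∑ pk, ∑ σ ∈ views F (wgen T pk) t (fun _ => none),
              ((cons T pk σ).card : ℝ)) * ∑ pk, ∑ σ ∈ views F (wgen T pk) t (fun _ => none),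
              best F (wgen T pk) σ) :=
            sum_sqrt_mul_le _ _ _
              (fun _ _ => Finset.sum_nonneg fun _ _ => Nat.cast_nonneg _)
              (fun pk _ => Finset.sum_nonneg fun σ _ => best_nonneg F _ (wgen_nonneg T pk) σ)
        _ ≤ Real.sqrt (M * (q * M / Tm)) := by
            refine Real.sqrt_le_sqrt ?_
            have h0 : ∑ pk, ∑ σ ∈ views F (wgen T pk) t (fun _ => none),
              ((cons T pk σ).card : ℝ) = M := hcard.symm
            rw [h0]
            exact mul_le_mul_of_nonneg_left hbest (Nat.cast_nonneg _)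
        _ = M * Real.sqrt (q / Tm) := by
            rw [show M * (q * M / Tm) = M ^ 2 * (q / Tm) by ring,
              Real.sqrt_mul (by positivity), Real.sqrt_sq (Nat.cast_nonneg _)]
    have hfin : ∑ z : ΩG × (D → R), suc enc dec ((T z.1).run z.2).1 z.2 (skey T z) z.2 ≤
        ∑ z : ΩG × (D → R), sucA enc A ((T z.1).run z.2).1 z.2 + M * ε := by
      have e1 : ∑ z : ΩG × (D → R), sucA enc A ((T z.1).run z.2).1 z.2 =
          ∑ pk, ∑ σ ∈ views F (wgen T pk) t (fun _ => none), ∑ z ∈ cons T pk σ,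
            𝔼 b : Bool, ∑ c, (enc pk b).prob z.2 c * (leaf pk σ c).prob z.2 b := by
        rw [← hadv]
        refine Finset.sum_congr rfl fun z _ => ?_
        unfold sucA
        refine Finset.expect_congr rfl fun b _ => Finset.sum_congr rfl fun c _ => ?_
        rw [hArun]
      rw [e1]
      refine (le_of_eq hreal).trans ?_
      have e2 : ∑ pk, ∑ σ ∈ views F (wgen T pk) t (fun _ => none),
          ∑ z ∈ cons T pk σ, suc enc dec pk z.2 (skey T z) z.2 ≤
          ∑ pk, ∑ σ ∈ views F (wgen T pk) t (fun _ => none), ((∑ z ∈ cons T pk σ,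
            𝔼 b : Bool, ∑ c, (enc pk b).prob z.2 c * (leaf pk σ c).prob z.2 b) +
            12 * (q * Real.sqrt ((cons T pk σ).card * best F (wgen T pk) σ))) :=
        Finset.sum_le_sum fun pk _ => Finset.sum_le_sum fun σ _ => hleaf pk σ
      refine e2.trans ?_
      simp only [Finset.sum_add_distrib]
      refine add_le_add le_rfl ?_
      simp only [← Finset.mul_sum]
      have e3 : 12 * (q * Real.sqrt (q / Tm)) ≤ ε := by
        have h1 : Real.sqrt (q / Tm) ≤ ε / (12 * q) := by
          refine Real.sqrt_le_iff.mpr ⟨by positivity, ?_⟩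
          rw [div_le_iff₀ hTm0', div_pow]
          have h2 : ε ^ 2 / (12 * (q : ℝ)) ^ 2 * (144 * (q : ℝ) ^ 3 / ε ^ 2) = q := by
            field_simp
            ring
          calc (q : ℝ) = ε ^ 2 / (12 * (q : ℝ)) ^ 2 * (144 * (q : ℝ) ^ 3 / ε ^ 2) := h2.symm
            _ ≤ ε ^ 2 / (12 * (q : ℝ)) ^ 2 * Tm :=
                mul_le_mul_of_nonneg_left hTm1 (by positivity)
        calc 12 * (q * Real.sqrt (q / Tm)) ≤ 12 * (q * (ε / (12 * q))) := by gcongr
          _ = ε := by field_simp
      calc 12 * (q * ∑ pk, ∑ σ ∈ views F (wgen T pk) t (fun _ => none),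
            Real.sqrt ((cons T pk σ).card * best F (wgen T pk) σ))
          ≤ 12 * (q * (M * Real.sqrt (q / Tm))) := by gcongr
        _ = M * (12 * (q * Real.sqrt (q / Tm))) := by ring
        _ ≤ M * ε := mul_le_mul_of_nonneg_left e3 (Nat.cast_nonneg _)
    rw [Finset.expect_eq_sum_div_card, Finset.expect_eq_sum_div_card]
    simp only [Finset.card_univ]
    by_cases hM0 : M = 0
    · rw [← hM, hM0]
      simp only [div_zero, zero_add]
      exact hε.le
    · have hMpos : 0 < M := lt_of_le_of_ne (Nat.cast_nonneg _) (Ne.symm hM0)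
      rw [← hM, div_add' _ _ _ hM0, div_le_div_iff_of_pos_right hMpos]
      linarith

end Pool.Agent.QPKE99
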