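import Pool.Agent.QPKE99.ClassEncLocal
import Pool.Agent.QPKE99.Activity
import Pool.Agent.QPKE99.ClassGenMain

/-!
# Classical encryption: the attack
-/

set_option autoImplicit false
set_option linter.unusedSectionVars false

open scoped BigOperators

namespace Pool.Agent.QPKE99

open Pool.Agent.PKE70

open Classical

variable {D R PK SK C WG ΩE WE WD ΩD : Type} [Fintype D] [DecidableEq D]
  [AddCommGroup R] [Fintype R] [Fintype PK] [Fintype SK] [Fintype C] [Fintype WG]
  [Fintype ΩE] [Fintype WE] [Fintype WD] [Fintype ΩD] {q : ℕ}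

/-- the basis states in which key generation outputs the public key `pk` -/
noncomputable def ix (K : Circuit D R WG (PK × SK) q) (pk : PK) : Finset (R × WG) :=
  Finset.univ.filter fun i => (K.out i).1 = pk

/-- the amplitudes -/
noncomputable def amp (K : Circuit D R WG (PK × SK) q) (i : R × WG) (f : D → R) : ℂ :=
  K.state f q i

/-- the activity of the amplitudes -/
noncomputable def wamp (K : Circuit D R WG (PK × SK) q) (pk : PK) (x : D) (f : D → R) : ℝ :=
  ∑ i ∈ ix K pk, ‖amp K i f - avx x (amp K i) f‖ ^ 2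

lemma wamp_nonneg (K : Circuit D R WG (PK × SK) q) (pk : PK) (x : D) (f : D → R) :
    0 ≤ wamp K pk x f := Finset.sum_nonneg fun i _ => by positivity

lemma act_wamp (K : Circuit D R WG (PK × SK) q) (pk : PK) (ρ : D → Option R) (x : D) :
    act (fun f : D → R => f) (wamp K pk) ρ x =
      ∑ f ∈ exts ρ, ∑ i ∈ ix K pk, ‖amp K i f - avx x (amp K i) f‖ ^ 2 := by
  unfold act exts
  rw [Finset.sum_filter]
  rfl

/-- grouping by public key and knowledge -/
lemma sum_ix (K : Circuit D R WG (PK × SK) q) (t : ℕ)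
    (H : R × WG → (D → R) → PK → (D → Option R) → ℝ) :
    ∑ f : D → R, ∑ i, H i f (K.out i).1
        (know (fun f : D → R => f) (wamp K (K.out i).1) t (fun _ => none) f) =
      ∑ pk, ∑ σ ∈ views (fun f : D → R => f) (wamp K pk) t (fun _ => none),
        ∑ f ∈ exts σ, ∑ i ∈ ix K pk, H i f pk σ := by
  have h1 : ∀ pk, ∑ σ ∈ views (fun f : D → R => f) (wamp K pk) t (fun _ => none),
        ∑ f ∈ exts σ, ∑ i ∈ ix K pk, H i f pk σ =
      ∑ f : D → R, ∑ i ∈ ix K pk, H i f pk
        (know (fun f : D → R => f) (wamp K pk) t (fun _ => none) f) := by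
    intro pk
    have h2 := sum_views (fun f : D → R => f) (wamp K pk) (fun f : D → R => f) t
      (fun _ => none) (fun f σ => ∑ i ∈ ix K pk, H i f pk σ)
    have h3 : ∀ f : D → R, Ext (fun _ => none) f := fun f x y h => absurd h (by simp)
    simp only [h3, if_true] at h2
    rw [h2]
    refine Finset.sum_congr rfl fun σ _ => ?_
    unfold exts
    rw [Finset.sum_filter]
  simp only [h1]
  rw [Finset.sum_comm (s := (Finset.univ : Finset PK))]
  refine Finset.sum_congr rfl fun f _ => ?_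
  unfold ix
  have h4 : ∀ pk, ∑ i ∈ Finset.univ.filter (fun i => (K.out i).1 = pk), H i f pk
      (know (fun f : D → R => f) (wamp K pk) t (fun _ => none) f) =
      ∑ i ∈ Finset.univ.filter (fun i => (K.out i).1 = pk), H i f (K.out i).1
      (know (fun f : D → R => f) (wamp K (K.out i).1) t (fun _ => none) f) := by
    intro pk
    refine Finset.sum_congr rfl fun i hi => ?_
    rw [(Finset.mem_filter.mp hi).2]
  simp only [h4]
  exact (Finset.sum_fiberwise_of_maps_to (s := Finset.univ) (t := Finset.univ)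
    (g := fun i => (K.out i).1) (fun i _ => Finset.mem_univ _)
    (fun i => H i f (K.out i).1
      (know (fun f : D → R => f) (wamp K (K.out i).1) t (fun _ => none) f))).symm

/-- the success probabilities as averages over the bit and the coins -/
lemma expect_pair (h : Bool → ΩE → ℝ) :
    𝔼 b : Bool, 𝔼 ω : ΩE, h b ω = (∑ p : Bool × ΩE, h p.1 p.2) / Fintype.card (Bool × ΩE) := by
  rw [← Finset.card_univ, ← Finset.expect_eq_sum_div_card, ← Finset.univ_product_univ,
    Finset.expect_product]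

/-- The attack on schemes with classical encryption and quantum key generation. -/
theorem attack_classEnc (K : Circuit D R WG (PK × SK) q)
    (T : PK → Bool × ΩE → QAlg D R C) (hT : ∀ pk p f, (T pk p).cost f ≤ q)
    (dec : SK → C → Alg D R WD ΩD Bool q)
    (hq : 1 ≤ q) (ε : ℝ) (hε : 0 < ε) (hε1 : ε ≤ 1) :
    ∃ (B : PK → C → QAlg D R Bool),
      (∀ pk c f, ((B pk c).cost f : ℝ) ≤ 1200000 * q ^ 7 / ε ^ 6) ∧
      ∑ f : D → R, ∑ i, ‖K.state f q i‖ ^ 2 * ∑ p : Bool × ΩE,
          (dec (K.out i).2 ((T (K.out i).1 p).run f)).prob f p.1 ≤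
        ∑ f : D → R, ∑ i, ‖K.state f q i‖ ^ 2 * ∑ p : Bool × ΩE,
          (if (B (K.out i).1 ((T (K.out i).1 p).run f)).run f = p.1 then 1 else 0) +
        Fintype.card (D → R) * (Fintype.card (Bool × ΩE) * ε) := by
  have hq' : (1 : ℝ) ≤ q := by exact_mod_cast hq
  set T2 : ℕ := ⌈64 * (q : ℝ) ^ 3 / ε ^ 2⌉₊ with hT2
  have hT2a : 64 * (q : ℝ) ^ 3 / ε ^ 2 ≤ T2 := Nat.le_ceil _
  have hT2b : (T2 : ℝ) < 64 * (q : ℝ) ^ 3 / ε ^ 2 + 1 := Nat.ceil_lt_add_one (by positivity)
  have hT20 : 0 < T2 := by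
    rw [hT2]; exact Nat.ceil_pos.mpr (by positivity)
  have hT20' : (0 : ℝ) < T2 := by exact_mod_cast hT20
  set T1 : ℕ := ⌈256 * ((q : ℝ) * (q + T2) ^ 2) / ε ^ 2⌉₊ with hT1
  have hT1a : 256 * ((q : ℝ) * (q + T2) ^ 2) / ε ^ 2 ≤ T1 := Nat.le_ceil _
  have hT1b : (T1 : ℝ) < 256 * ((q : ℝ) * (q + T2) ^ 2) / ε ^ 2 + 1 :=
    Nat.ceil_lt_add_one (by positivity)
  have hT10 : 0 < T1 := by
    rw [hT1]; exact Nat.ceil_pos.mpr (by positivity)
  have hT10' : (0 : ℝ) < T1 := by exact_mod_cast hT10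
  set F : (D → R) → (D → R) := fun f => f with hF
  set M : ℝ := (Fintype.card (D → R) : ℝ) with hM
  set nE : ℝ := (Fintype.card (Bool × ΩE) : ℝ) with hnE
  -- first learning stage
  have htot : ∑ t ∈ Finset.range T1, ∑ pk, ∑ σ ∈ views F (wamp K pk) t (fun _ => none),
      best F (wamp K pk) σ ≤ q * M := by
    rw [Finset.sum_comm]
    calc ∑ pk, ∑ t ∈ Finset.range T1, ∑ σ ∈ views F (wamp K pk) t (fun _ => none),
          best F (wamp K pk) σ
        ≤ ∑ pk, ∑ f : D → R, ∑ x, wamp K pk x f := by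
          refine Finset.sum_le_sum fun pk _ => ?_
          refine (sum_best_le F (wamp K pk) (wamp_nonneg K pk) T1 (fun _ => none)).trans ?_
          refine Finset.sum_le_sum fun f _ => ?_
          simp only [if_true]
          split_ifs
          · exact le_rfl
          · exact Finset.sum_nonneg fun x _ => wamp_nonneg K pk x f
      _ = ∑ x, actv x (fun f => K.state f q) := by
          rw [Finset.sum_comm]
          simp only [actv, wamp]
          rw [Finset.sum_comm (s := (Finset.univ : Finset D))]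
          refine Finset.sum_congr rfl fun f _ => ?_
          rw [Finset.sum_comm]
          refine Finset.sum_congr rfl fun x _ => ?_
          unfold ix
          exact Finset.sum_fiberwise_of_maps_to (s := Finset.univ) (t := Finset.univ)
            (g := fun i => (K.out i).1) (fun i _ => Finset.mem_univ _)
            (fun i => ‖amp K i f - avx x (amp K i) f‖ ^ 2)
      _ ≤ q * M := sum_actv_state K q
  obtain ⟨t1, ht1, hbest⟩ := exists_time hT10 _ _ htot
  -- second learning stage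
  have ht2 : ∀ (pk : PK) (σ : D → Option R), ∃ t < T2,
      ∑ c, ∑ τ ∈ views orc (wenc (T pk) c) t σ, best orc (wenc (T pk) c) τ ≤
      (Fintype.card (Bool × ΩE) * (exts σ).card) * ((q : ℝ) / T2) := by
    intro pk σ
    obtain ⟨t, ht, h⟩ := exists_time_enc (T pk) (hT pk) hT20 σ
    refine ⟨t, ht, h.trans (le_of_eq ?_)⟩
    ring
  choose t2 ht2 ht2' using ht2
  let B : PK → C → QAlg D R Bool := fun pk c =>
    (learnAlg F (wamp K pk) t1 (fun _ => none)).bind fun σ =>
      (learnAlg orc (wenc (T pk) c) (t2 pk σ) σ).bind fun τ => QAlg.ret (bit (T pk) c τ)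
  have hBrun : ∀ pk c f, (B pk c).run f = bit (T pk) c
      (know orc (wenc (T pk) c) (t2 pk (know F (wamp K pk) t1 (fun _ => none) f))
        (know F (wamp K pk) t1 (fun _ => none) f) f) := by
    intro pk c f
    show ((learnAlg F (wamp K pk) t1 (fun _ => none)).bind _).run f = _
    rw [QAlg.run_bind, run_learnAlg, QAlg.run_bind, run_learnAlg, QAlg.run_ret]
  refine ⟨B, ?_, ?_⟩
  · intro pk c f
    have h1 : (B pk c).cost f ≤ t1 + T2 := by
      show ((learnAlg F (wamp K pk) t1 (fun _ => none)).bind _).cost f ≤ _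
      rw [QAlg.cost_bind, QAlg.cost_bind, QAlg.cost_ret, add_zero]
      exact add_le_add (cost_learnAlg _ _ _ _ _)
        ((cost_learnAlg _ _ _ _ _).trans (ht2 _ _).le)
    have h2 : ((B pk c).cost f : ℝ) ≤ T1 + T2 := by
      exact_mod_cast h1.trans (Nat.add_le_add_right ht1.le _)
    have hX : 1 ≤ (q : ℝ) ^ 3 / ε ^ 2 := by
      rw [le_div_iff₀ (by positivity), one_mul]
      calc ε ^ 2 ≤ 1 := pow_le_one₀ hε.le hε1
        _ ≤ (q : ℝ) ^ 3 := one_le_pow₀ hq'
    have hX' : (q : ℝ) ≤ (q : ℝ) ^ 3 / ε ^ 2 := by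
      rw [le_div_iff₀ (by positivity)]
      calc (q : ℝ) * ε ^ 2 ≤ q * 1 := by
            refine mul_le_mul_of_nonneg_left (pow_le_one₀ hε.le hε1) (by positivity)
        _ = (q : ℝ) ^ 1 := by ring
        _ ≤ (q : ℝ) ^ 3 := pow_le_pow_right₀ hq' (by norm_num)
    have hq2 : (q : ℝ) + T2 ≤ 66 * ((q : ℝ) ^ 3 / ε ^ 2) := by
      have : 64 * (q : ℝ) ^ 3 / ε ^ 2 = 64 * ((q : ℝ) ^ 3 / ε ^ 2) := by ring
      rw [this] at hT2b
      linarith
    have hX7 : 1 ≤ (q : ℝ) ^ 7 / ε ^ 6 := by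
      rw [le_div_iff₀ (by positivity), one_mul]
      calc ε ^ 6 ≤ 1 := pow_le_one₀ hε.le hε1
        _ ≤ (q : ℝ) ^ 7 := one_le_pow₀ hq'
    have hX37 : (q : ℝ) ^ 3 / ε ^ 2 ≤ (q : ℝ) ^ 7 / ε ^ 6 := by
      rw [div_le_div_iff₀ (by positivity) (by positivity)]
      calc (q : ℝ) ^ 3 * ε ^ 6 ≤ (q : ℝ) ^ 7 * ε ^ 6 :=
            mul_le_mul_of_nonneg_right (pow_le_pow_right₀ hq' (by norm_num)) (by positivity)
        _ ≤ (q : ℝ) ^ 7 * ε ^ 2 :=
            mul_le_mul_of_nonneg_left (pow_le_pow_of_le_one hε.le hε1 (by norm_num))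
              (by positivity)
    have hT1c : (T1 : ℝ) ≤ 1115137 * ((q : ℝ) ^ 7 / ε ^ 6) := by
      have h3 : 256 * ((q : ℝ) * (q + T2) ^ 2) / ε ^ 2 ≤ 1115136 * ((q : ℝ) ^ 7 / ε ^ 6) := by
        calc 256 * ((q : ℝ) * (q + T2) ^ 2) / ε ^ 2
            ≤ 256 * ((q : ℝ) * (66 * ((q : ℝ) ^ 3 / ε ^ 2)) ^ 2) / ε ^ 2 := by gcongr
          _ = 1115136 * ((q : ℝ) ^ 7 / ε ^ 6) := by field_simp; ring
      linarith
    have hT2c : (T2 : ℝ) ≤ 65 * ((q : ℝ) ^ 7 / ε ^ 6) := by
      have : 64 * (q : ℝ) ^ 3 / ε ^ 2 = 64 * ((q : ℝ) ^ 3 / ε ^ 2) := by ring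
      rw [this] at hT2b
      linarith
    have h4 : 1200000 * (q : ℝ) ^ 7 / ε ^ 6 = 1200000 * ((q : ℝ) ^ 7 / ε ^ 6) := by ring
    rw [h4]
    linarith
  · -- masses
    let μ : PK → (D → Option R) → ℝ := fun pk σ =>
      ∑ f ∈ exts σ, ∑ i ∈ ix K pk, ‖amp K i f‖ ^ 2
    have hμ0 : ∀ pk σ, 0 ≤ μ pk σ := fun pk σ =>
      Finset.sum_nonneg fun f _ => Finset.sum_nonneg fun i _ => by positivity
    have hmass : ∑ pk, ∑ σ ∈ views F (wamp K pk) t1 (fun _ => none), μ pk σ = M := by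
      have h := sum_ix K t1 (fun i f _ _ => ‖amp K i f‖ ^ 2)
      rw [← hF] at h
      rw [← h]
      have h1 : ∀ f : D → R, ∑ i, ‖amp K i f‖ ^ 2 = 1 := by
        intro f
        unfold amp
        rw [← norm_sq_eq, K.norm_state, one_pow]
      simp only [h1]
      simp [hM]
    have hloc : ∀ pk σ, ∑ p : Bool × ΩE, ∑ f ∈ exts σ, ∑ i ∈ ix K pk,
          ‖amp K i f‖ ^ 2 * (dec (K.out i).2 ((T pk p).run f)).prob f p.1 ≤
        ∑ p : Bool × ΩE, ∑ f ∈ exts σ, ∑ i ∈ ix K pk,
          ‖amp K i f‖ ^ 2 * (if bit (T pk) ((T pk p).run f)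
            (kn (T pk) (t2 pk σ) σ p f) = p.1 then 1 else 0) +
        nE * (8 * ((q + T2) * Real.sqrt (μ pk σ * best F (wamp K pk) σ)) +
          4 * (μ pk σ * (q * Real.sqrt (q / T2)))) := by
      intro pk σ
      have h := local_attack_enc (T pk) dec (hT pk) (ix K pk) (amp K) (fun i => (K.out i).2) σ
        (t2 pk σ) (μ pk σ) (best F (wamp K pk) σ) ((q : ℝ) / T2)
        (best_nonneg F _ (wamp_nonneg K pk) σ) rfl (fun x hx => by
          rw [← act_wamp]
          exact act_le_best F (wamp K pk) hx) (ht2' pk σ)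
      refine h.trans (add_le_add le_rfl ?_)
      refine mul_le_mul_of_nonneg_left ?_ (Nat.cast_nonneg _)
      refine add_le_add ?_ le_rfl
      have h1 : ((t2 pk σ : ℕ) : ℝ) ≤ T2 := by exact_mod_cast (ht2 pk σ).le
      gcongr
    have hreal : ∑ f : D → R, ∑ i, ‖K.state f q i‖ ^ 2 * ∑ p : Bool × ΩE,
          (dec (K.out i).2 ((T (K.out i).1 p).run f)).prob f p.1 =
        ∑ pk, ∑ σ ∈ views F (wamp K pk) t1 (fun _ => none),
          ∑ p : Bool × ΩE, ∑ f ∈ exts σ, ∑ i ∈ ix K pk,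
          ‖amp K i f‖ ^ 2 * (dec (K.out i).2 ((T pk p).run f)).prob f p.1 := by
      have h := sum_ix K t1 (fun i f pk _ => ‖amp K i f‖ ^ 2 * ∑ p : Bool × ΩE,
        (dec (K.out i).2 ((T pk p).run f)).prob f p.1)
      refine h.trans ?_
      refine Finset.sum_congr rfl fun pk _ => Finset.sum_congr rfl fun σ _ => ?_
      rw [Finset.sum_comm (s := (Finset.univ : Finset (Bool × ΩE)))]
      refine Finset.sum_congr rfl fun f _ => ?_
      rw [Finset.sum_comm (s := (Finset.univ : Finset (Bool × ΩE)))]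
      refine Finset.sum_congr rfl fun i _ => ?_
      rw [Finset.mul_sum]
    have hadv : ∑ f : D → R, ∑ i, ‖K.state f q i‖ ^ 2 * ∑ p : Bool × ΩE,
          (if (B (K.out i).1 ((T (K.out i).1 p).run f)).run f = p.1 then (1 : ℝ) else 0) =
        ∑ pk, ∑ σ ∈ views F (wamp K pk) t1 (fun _ => none),
          ∑ p : Bool × ΩE, ∑ f ∈ exts σ, ∑ i ∈ ix K pk,
          ‖amp K i f‖ ^ 2 * (if bit (T pk) ((T pk p).run f)
            (kn (T pk) (t2 pk σ) σ p f) = p.1 then 1 else 0) := by
      have h := sum_ix K t1 (fun i f pk σ => ‖amp K i f‖ ^ 2 * ∑ p : Bool × ΩE,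
        (if bit (T pk) ((T pk p).run f) (kn (T pk) (t2 pk σ) σ p f) = p.1 then (1 : ℝ) else 0))
      refine Eq.trans ?_ (h.trans ?_)
      · refine Finset.sum_congr rfl fun f _ => Finset.sum_congr rfl fun i _ => ?_
        simp only [hBrun]
        rfl
      · refine Finset.sum_congr rfl fun pk _ => Finset.sum_congr rfl fun σ _ => ?_
        rw [Finset.sum_comm (s := (Finset.univ : Finset (Bool × ΩE)))]
        refine Finset.sum_congr rfl fun f _ => ?_
        rw [Finset.sum_comm (s := (Finset.univ : Finset (Bool × ΩE)))]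
        refine Finset.sum_congr rfl fun i _ => ?_
        rw [Finset.mul_sum]
    rw [hreal, hadv]
    refine (Finset.sum_le_sum fun pk _ => Finset.sum_le_sum fun σ _ => hloc pk σ).trans ?_
    simp only [Finset.sum_add_distrib]
    refine add_le_add le_rfl ?_
    have herr : ∑ pk, ∑ σ ∈ views F (wamp K pk) t1 (fun _ => none),
        Real.sqrt (μ pk σ * best F (wamp K pk) σ) ≤ M * Real.sqrt (q / T1) := by
      calc ∑ pk, ∑ σ ∈ views F (wamp K pk) t1 (fun _ => none),
            Real.sqrt (μ pk σ * best F (wamp K pk) σ)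
          ≤ ∑ pk, Real.sqrt ((∑ σ ∈ views F (wamp K pk) t1 (fun _ => none), μ pk σ) *
              ∑ σ ∈ views F (wamp K pk) t1 (fun _ => none), best F (wamp K pk) σ) :=
            Finset.sum_le_sum fun pk _ => sum_sqrt_mul_le _ _ _
              (fun _ _ => hμ0 _ _) (fun σ _ => best_nonneg F _ (wamp_nonneg K pk) σ)
        _ ≤ Real.sqrt ((∑ pk, ∑ σ ∈ views F (wamp K pk) t1 (fun _ => none), μ pk σ) *
              ∑ pk, ∑ σ ∈ views F (wamp K pk) t1 (fun _ => none), best F (wamp K pk) σ) :=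
            sum_sqrt_mul_le _ _ _ (fun _ _ => Finset.sum_nonneg fun _ _ => hμ0 _ _)
              (fun pk _ => Finset.sum_nonneg fun σ _ => best_nonneg F _ (wamp_nonneg K pk) σ)
        _ ≤ Real.sqrt (M * (q * M / T1)) := by
            rw [hmass]
            exact Real.sqrt_le_sqrt (mul_le_mul_of_nonneg_left hbest (Nat.cast_nonneg _))
        _ = M * Real.sqrt (q / T1) := by
            rw [show M * (q * M / T1) = M ^ 2 * (q / T1) by ring,
              Real.sqrt_mul (by positivity), Real.sqrt_sq (Nat.cast_nonneg _)]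
    have e1 : 8 * (((q : ℝ) + T2) * Real.sqrt (q / T1)) ≤ ε / 2 := by
      have h1 : Real.sqrt (q / T1) ≤ ε / (16 * (q + T2)) := by
        refine Real.sqrt_le_iff.mpr ⟨by positivity, ?_⟩
        rw [div_le_iff₀ hT10', div_pow]
        have h2 : ε ^ 2 / (16 * ((q : ℝ) + T2)) ^ 2 *
            (256 * ((q : ℝ) * (q + T2) ^ 2) / ε ^ 2) = q := by
          field_simp
          ring
        calc (q : ℝ) = ε ^ 2 / (16 * ((q : ℝ) + T2)) ^ 2 *
              (256 * ((q : ℝ) * (q + T2) ^ 2) / ε ^ 2) := h2.symm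
          _ ≤ ε ^ 2 / (16 * ((q : ℝ) + T2)) ^ 2 * T1 :=
              mul_le_mul_of_nonneg_left hT1a (by positivity)
      calc 8 * (((q : ℝ) + T2) * Real.sqrt (q / T1))
          ≤ 8 * (((q : ℝ) + T2) * (ε / (16 * (q + T2)))) := by gcongr
        _ = ε / 2 := by field_simp; ring
    have e2 : 4 * ((q : ℝ) * Real.sqrt (q / T2)) ≤ ε / 2 := by
      have h1 : Real.sqrt (q / T2) ≤ ε / (8 * q) := by
        refine Real.sqrt_le_iff.mpr ⟨by positivity, ?_⟩
        rw [div_le_iff₀ hT20', div_pow]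
        have h2 : ε ^ 2 / (8 * (q : ℝ)) ^ 2 * (64 * (q : ℝ) ^ 3 / ε ^ 2) = q := by
          field_simp
          ring
        calc (q : ℝ) = ε ^ 2 / (8 * (q : ℝ)) ^ 2 * (64 * (q : ℝ) ^ 3 / ε ^ 2) := h2.symm
          _ ≤ ε ^ 2 / (8 * (q : ℝ)) ^ 2 * T2 :=
              mul_le_mul_of_nonneg_left hT2a (by positivity)
      calc 4 * ((q : ℝ) * Real.sqrt (q / T2)) ≤ 4 * ((q : ℝ) * (ε / (8 * q))) := by gcongr
        _ = ε / 2 := by field_simp; ring
    have e3 : ∑ pk, ∑ σ ∈ views F (wamp K pk) t1 (fun _ => none),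
        nE * (8 * ((q + T2) * Real.sqrt (μ pk σ * best F (wamp K pk) σ)) +
          4 * (μ pk σ * (q * Real.sqrt (q / T2)))) =
        nE * (8 * ((q + T2) * ∑ pk, ∑ σ ∈ views F (wamp K pk) t1 (fun _ => none),
          Real.sqrt (μ pk σ * best F (wamp K pk) σ)) +
          4 * ((∑ pk, ∑ σ ∈ views F (wamp K pk) t1 (fun _ => none), μ pk σ) *
            (q * Real.sqrt (q / T2)))) := by
      simp only [← Finset.mul_sum, Finset.sum_add_distrib, ← Finset.sum_mul]
    rw [e3, hmass]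
    calc nE * (8 * ((q + T2) * ∑ pk, ∑ σ ∈ views F (wamp K pk) t1 (fun _ => none),
          Real.sqrt (μ pk σ * best F (wamp K pk) σ)) + 4 * (M * (q * Real.sqrt (q / T2))))
        ≤ nE * (8 * ((q + T2) * (M * Real.sqrt (q / T1))) +
            4 * (M * (q * Real.sqrt (q / T2)))) := by gcongr
      _ = nE * (M * (8 * ((q + T2) * Real.sqrt (q / T1)) + 4 * (q * Real.sqrt (q / T2)))) := by
          ring
      _ ≤ nE * (M * (ε / 2 + ε / 2)) := by gcongr
      _ = M * (nE * ε) := by ring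

end Pool.Agent.QPKE99
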