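import Pool.Agent.PKE70.Defs

/-!
# Public-key encryption in the quantum random oracle model

Oracle algorithms are quantum circuits with oracle gates, or classical adaptive algorithms
(`QAlg`, defined in `Pool.Agent.PKE70.Defs`).
-/

set_option autoImplicit false

open scoped BigOperators

namespace Pool.Agent.QPKE99

open Pool.Agent.PKE70

/-- The permutation of the basis states `(y, w)` of an answer register `R` and a work register `W`
that adds `f x` to `y` if `s w = some x`, and does nothing if `s w = none`. -/
def shift {D R W : Type} [AddCommGroup R] (s : W → Option D) (f : D → R) :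
    Equiv.Perm (R × W) where
  toFun i := (i.1 + ((s i.2).map f).getD 0, i.2)
  invFun i := (i.1 - ((s i.2).map f).getD 0, i.2)
  left_inv i := by simp
  right_inv i := by simp

/-- The oracle gate: the unitary operator that permutes the basis states by `shift s f`. -/
noncomputable def gate {D R W : Type} [AddCommGroup R] [Fintype R] [Fintype W]
    (s : W → Option D) (f : D → R) :
    EuclideanSpace ℂ (R × W) ≃ₗᵢ[ℂ] EuclideanSpace ℂ (R × W) :=
  LinearIsometryEquiv.piLpCongrLeft 2 ℂ ℂ (shift s f)

/-- A quantum circuit with `q` oracle gates for a function `D → R` and with a classical output in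
`α`. Its state space has the orthonormal basis `R × W` (answer register and work register). It
starts in the basis state `start` and applies the unitary operators `U 0, …, U q`, and after each
of the first `q` of them an oracle gate: the gate after `U t` queries, in superposition, the
points `site t w`. At the end the registers are measured in the standard basis, and the
output is `out` of the result. -/
structure Circuit (D R W α : Type) [Fintype R] [Fintype W] (q : ℕ) where
  start : R × W
  U : ℕ → EuclideanSpace ℂ (R × W) ≃ₗᵢ[ℂ] EuclideanSpace ℂ (R × W)
  site : ℕ → W → Option D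
  out : R × W → α

section

variable {D R W α : Type} [AddCommGroup R] [Fintype R] [Fintype W] {q : ℕ}

open Classical in
/-- The state of the circuit with oracle `f` after the unitary operator `U t`. -/
noncomputable def Circuit.state (K : Circuit D R W α q) (f : D → R) :
    ℕ → EuclideanSpace ℂ (R × W)
  | 0 => K.U 0 (EuclideanSpace.single K.start 1)
  | t + 1 => K.U (t + 1) (gate (K.site t) f (K.state f t))

open Classical in
/-- The probability that the circuit with oracle `f` outputs `a`. -/
noncomputable def Circuit.prob (K : Circuit D R W α q) (f : D → R) (a : α) : ℝ :=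
  ∑ i, if K.out i = a then ‖K.state f q i‖ ^ 2 else 0

end

/-- An oracle algorithm with output in `α` and at most `q` queries: a quantum circuit, or a
classical algorithm with random coins `Ω` that queries the oracle adaptively. -/
inductive Alg (D R W Ω α : Type) [Fintype R] [Fintype W] (q : ℕ)
  | quantum (K : Circuit D R W α q)
  | classical (T : Ω → QAlg D R α) (hT : ∀ ω f, (T ω).cost f ≤ q)

section

variable {D R W Ω α : Type} [AddCommGroup R] [Fintype R] [Fintype W] [Fintype Ω] {q : ℕ}

/-- The algorithm is classical. -/
def Alg.IsClassical : Alg D R W Ω α q → Prop
  | quantum _ => False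
  | classical _ _ => True

open Classical in
/-- The probability that the algorithm with oracle `f` outputs `a`. -/
noncomputable def Alg.prob (f : D → R) (a : α) : Alg D R W Ω α q → ℝ
  | quantum K => K.prob f a
  | classical T _ => 𝔼 ω : Ω, if (T ω).run f = a then 1 else 0

end

/-- A public-key encryption scheme for one-bit messages relative to an oracle `D → R`, with public
keys `PK`, secret keys `SK` and ciphertexts `C`. Key generation, encryption and decryption make at
most `q` queries each. -/
structure Scheme (D R PK SK C WG ΩG WE ΩE WD ΩD : Type) [Fintype R] [Fintype WG] [Fintype WE]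
    [Fintype WD] (q : ℕ) where
  gen : Alg D R WG ΩG (PK × SK) q
  enc : PK → Bool → Alg D R WE ΩE C q
  dec : SK → C → Alg D R WD ΩD Bool q

namespace Scheme

variable {D R PK SK C WG ΩG WE ΩE WD ΩD WA ΩA : Type} [Fintype D] [DecidableEq D]
  [AddCommGroup R] [Fintype R] [Fintype PK] [Fintype SK] [Fintype C] [Fintype WG] [Fintype ΩG]
  [Fintype WE] [Fintype ΩE] [Fintype WD] [Fintype ΩD] [Fintype WA] [Fintype ΩA] {q : ℕ}

/-- The probability that the decryption of an encryption of a random bit `b` is `b`, over a
uniformly random oracle `f`. -/
noncomputable def decProb (S : Scheme D R PK SK C WG ΩG WE ΩE WD ΩD q) : ℝ :=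
  𝔼 f : D → R, ∑ pk, ∑ sk, S.gen.prob f (pk, sk) *
    𝔼 b : Bool, ∑ c, (S.enc pk b).prob f c * (S.dec sk c).prob f b

/-- The probability that the adversary `A`, given the public key and an encryption of a random bit
`b`, finds `b`, over a uniformly random oracle `f`. The adversary makes classical queries, and
then runs an algorithm with at most `q` queries that may depend on the answers. -/
noncomputable def advProb (S : Scheme D R PK SK C WG ΩG WE ΩE WD ΩD q)
    (A : PK → C → QAlg D R (Alg D R WA ΩA Bool q)) : ℝ :=
  𝔼 f : D → R, ∑ pk, ∑ sk, S.gen.prob f (pk, sk) *
    𝔼 b : Bool, ∑ c, (S.enc pk b).prob f c * ((A pk c).run f).prob f b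

end Scheme

end Pool.Agent.QPKE99
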