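import Pool.Agent.PKE70.Basic

/-!
# Learning the most active points
-/

set_option autoImplicit false
set_option linter.unusedSectionVars false

open scoped BigOperators

namespace Pool.Agent.QPKE99

open Pool.Agent.PKE70

variable {D R Z : Type} [Fintype D] [DecidableEq D] [Fintype R] [Fintype Z]

/-- the function `f` extends the partial function `ρ` -/
def Ext (ρ : D → Option R) (f : D → R) : Prop := ∀ x y, ρ x = some y → f x = y

lemma Ext.ovr_eq {ρ : D → Option R} {f : D → R} (h : Ext ρ f) : ovr f ρ = f := by
  funext x
  rcases hx : ρ x with _ | y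
  · exact ovr_of_none hx
  · rw [ovr_some hx, h x y hx]

lemma ext_ovr (ρ : D → Option R) (f : D → R) : Ext ρ (ovr f ρ) := fun _ _ h => ovr_some h

open Classical

section learn

variable (F : Z → D → R) (w : D → Z → ℝ)

/-- the activity of the point `x`, given `ρ` -/
noncomputable def act (ρ : D → Option R) (x : D) : ℝ := ∑ z, if Ext ρ (F z) then w x z else 0

lemma act_nonneg (hw : ∀ x z, 0 ≤ w x z) (ρ : D → Option R) (x : D) : 0 ≤ act F w ρ x :=
  Finset.sum_nonneg fun z _ => by
    split_ifs
    · exact hw x z
    · exact le_rfl

/-- a most active point outside the domain of `ρ`, if there is one -/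
noncomputable def pick (ρ : D → Option R) : Option D :=
  if h : (Finset.univ.filter fun x => ρ x = none).Nonempty then
    some (Classical.choose (Finset.exists_max_image _ (act F w ρ) h)) else none

lemma pick_eq_none {ρ : D → Option R} (h : pick F w ρ = none) (x : D) : ρ x ≠ none := by
  intro hx
  unfold pick at h
  have hne : (Finset.univ.filter fun x => ρ x = none).Nonempty := ⟨x, by simp [hx]⟩
  rw [dif_pos hne] at h
  exact absurd h (by simp)

lemma pick_eq_some {ρ : D → Option R} {x : D} (h : pick F w ρ = some x) :
    ρ x = none ∧ ∀ x', ρ x' = none → act F w ρ x' ≤ act F w ρ x := by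
  unfold pick at h
  by_cases hne : (Finset.univ.filter fun x => ρ x = none).Nonempty
  · rw [dif_pos hne] at h
    have hspec := Classical.choose_spec (Finset.exists_max_image _ (act F w ρ) hne)
    rw [Option.some.inj h] at hspec
    refine ⟨(Finset.mem_filter.mp hspec.1).2, fun x' hx' => hspec.2 x' ?_⟩
    simp [hx']
  · rw [dif_neg hne] at h
    exact absurd h (by simp)

/-- the weight of the picked point -/
noncomputable def wpick (ρ : D → Option R) (z : Z) : ℝ :=
  match pick F w ρ with
  | none => 0
  | some x => w x z

/-- the greatest activity outside the domain of `ρ` -/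
noncomputable def best (ρ : D → Option R) : ℝ := ∑ z, if Ext ρ (F z) then wpick F w ρ z else 0

lemma wpick_nonneg (hw : ∀ x z, 0 ≤ w x z) (ρ : D → Option R) (z : Z) : 0 ≤ wpick F w ρ z := by
  unfold wpick
  split
  · exact le_rfl
  · exact hw _ _

lemma best_nonneg (hw : ∀ x z, 0 ≤ w x z) (ρ : D → Option R) : 0 ≤ best F w ρ :=
  Finset.sum_nonneg fun z _ => by
    split_ifs
    · exact wpick_nonneg F w hw ρ z
    · exact le_rfl

lemma act_le_best {ρ : D → Option R} {x : D} (hx : ρ x = none) :
    act F w ρ x ≤ best F w ρ := by
  rcases hp : pick F w ρ with _ | x0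
  · exact absurd hx (pick_eq_none F w hp x)
  · refine ((pick_eq_some F w hp).2 x hx).trans (le_of_eq ?_)
    unfold best act wpick
    simp [hp]

/-- one learning step with oracle `f` -/
noncomputable def step (f : D → R) (ρ : D → Option R) : D → Option R :=
  match pick F w ρ with
  | none => ρ
  | some x => Function.update ρ x (some (f x))

/-- the knowledge after `t` learning steps, starting from `ρ` -/
noncomputable def know (t : ℕ) (ρ : D → Option R) (f : D → R) : D → Option R :=
  (step F w f)^[t] ρ

/-- the learning algorithm -/
noncomputable def learnAlg : ℕ → (D → Option R) → QAlg D R (D → Option R)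
  | 0, ρ => QAlg.ret ρ
  | t + 1, ρ => match pick F w ρ with
    | none => QAlg.ret ρ
    | some x => QAlg.ask x fun y => learnAlg t (Function.update ρ x (some y))

lemma know_zero (ρ : D → Option R) (f : D → R) : know F w 0 ρ f = ρ := rfl

lemma know_succ (t : ℕ) (ρ : D → Option R) (f : D → R) :
    know F w (t + 1) ρ f = know F w t (step F w f ρ) f := by
  unfold know
  rw [Function.iterate_succ_apply]

lemma know_succ' (t : ℕ) (ρ : D → Option R) (f : D → R) :
    know F w (t + 1) ρ f = step F w f (know F w t ρ f) := by
  unfold know
  rw [Function.iterate_succ_apply']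

lemma step_of_none {ρ : D → Option R} (h : pick F w ρ = none) (f : D → R) :
    step F w f ρ = ρ := by
  unfold step
  rw [h]

lemma step_of_some {ρ : D → Option R} {x : D} (h : pick F w ρ = some x) (f : D → R) :
    step F w f ρ = Function.update ρ x (some (f x)) := by
  unfold step
  rw [h]

lemma know_of_none {ρ : D → Option R} (h : pick F w ρ = none) (t : ℕ) (f : D → R) :
    know F w t ρ f = ρ := by
  induction t with
  | zero => rfl
  | succ t ih => rw [know_succ, step_of_none F w h, ih]

lemma run_learnAlg (t : ℕ) (ρ : D → Option R) (f : D → R) :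
    (learnAlg F w t ρ).run f = know F w t ρ f := by
  induction t generalizing ρ with
  | zero => rfl
  | succ t ih =>
    rcases hp : pick F w ρ with _ | x
    · simp only [learnAlg, hp, QAlg.run_ret, know_of_none F w hp]
    · simp only [learnAlg, hp, QAlg.run_ask, ih]
      rw [know_succ, step_of_some F w hp]

lemma cost_learnAlg (t : ℕ) (ρ : D → Option R) (f : D → R) :
    (learnAlg F w t ρ).cost f ≤ t := by
  induction t generalizing ρ with
  | zero => exact le_rfl
  | succ t ih =>
    rcases hp : pick F w ρ with _ | x
    · simp only [learnAlg, hp, QAlg.cost_ret]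
      exact Nat.zero_le _
    · simp only [learnAlg, hp, QAlg.cost_ask]
      exact Nat.add_le_add_right (ih _) 1

lemma know_eq_queries (t : ℕ) (ρ : D → Option R) (f : D → R) (x : D) :
    know F w t ρ f x = if x ∈ (learnAlg F w t ρ).queries f then some (f x) else ρ x := by
  induction t generalizing ρ with
  | zero => simp [learnAlg, know_zero]
  | succ t ih =>
    rcases hp : pick F w ρ with _ | x0
    · simp [learnAlg, hp, know_of_none F w hp]
    · rw [know_succ, step_of_some F w hp, ih]
      simp only [learnAlg, hp, QAlg.queries_ask, Finset.mem_insert]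
      by_cases h1 : x ∈ (learnAlg F w t (Function.update ρ x0 (some (f x0)))).queries f
      · simp [h1]
      · by_cases h2 : x = x0
        · subst h2
          simp [h1]
        · simp [h1, h2]

lemma step_ext {ρ : D → Option R} {f : D → R} (h : Ext ρ f) : Ext (step F w f ρ) f := by
  rcases hp : pick F w ρ with _ | x
  · rwa [step_of_none F w hp]
  · rw [step_of_some F w hp]
    intro x' y hy
    by_cases hx : x' = x
    · subst hx
      simpa using hy
    · rw [Function.update_of_ne hx] at hy
      exact h x' y hy

lemma know_ext {ρ : D → Option R} {f : D → R} (h : Ext ρ f) (t : ℕ) :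
    Ext (know F w t ρ f) f := by
  induction t with
  | zero => exact h
  | succ t ih => rw [know_succ']; exact step_ext F w ih

lemma step_mono (ρ : D → Option R) (f : D → R) {x : D} {y : R} (h : ρ x = some y) :
    step F w f ρ x = some y := by
  rcases hp : pick F w ρ with _ | x0
  · rwa [step_of_none F w hp]
  · rw [step_of_some F w hp]
    have hx : x ≠ x0 := by
      rintro rfl
      rw [(pick_eq_some F w hp).1] at h
      exact absurd h (by simp)
    rwa [Function.update_of_ne hx]

lemma know_mono (t : ℕ) (ρ : D → Option R) (f : D → R) {x : D} {y : R} (h : ρ x = some y) :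
    know F w t ρ f x = some y := by
  induction t with
  | zero => exact h
  | succ t ih => rw [know_succ']; exact step_mono F w _ f ih

lemma ext_of_know {t : ℕ} {ρ : D → Option R} {f f' : D → R} (h : Ext (know F w t ρ f) f') :
    Ext ρ f' := fun x y hy => h x y (know_mono F w t ρ f hy)

lemma know_congr {t : ℕ} {ρ : D → Option R} {f f' : D → R} (h : Ext (know F w t ρ f) f') :
    know F w t ρ f' = know F w t ρ f := by
  induction t with
  | zero => rfl
  | succ t ih =>
    rw [know_succ'] at h
    have h1 : Ext (know F w t ρ f) f' := fun x y hy => h x y (step_mono F w _ f hy)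
    rw [know_succ', know_succ', ih h1]
    rcases hp : pick F w (know F w t ρ f) with _ | x
    · rw [step_of_none F w hp, step_of_none F w hp]
    · rw [step_of_some F w hp, step_of_some F w hp]
      rw [step_of_some F w hp] at h
      have h2 : f' x = f x := h x (f x) (by simp)
      rw [h2]

/-- the possible states of knowledge after `t` steps -/
noncomputable def views (t : ℕ) (ρ : D → Option R) : Finset (D → Option R) :=
  (Finset.univ.filter fun f : D → R => Ext ρ f).image (know F w t ρ)

/-- Sums may be grouped according to the knowledge after `t` steps. -/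
theorem sum_views {Z' : Type} [Fintype Z'] (F' : Z' → D → R) (t : ℕ) (ρ : D → Option R)
    (G : Z' → (D → Option R) → ℝ) :
    ∑ z, (if Ext ρ (F' z) then G z (know F w t ρ (F' z)) else 0) =
      ∑ σ ∈ views F w t ρ, ∑ z, if Ext σ (F' z) then G z σ else 0 := by
  rw [← Finset.sum_filter]
  rw [← Finset.sum_fiberwise_of_maps_to (s := Finset.univ.filter fun z => Ext ρ (F' z))
    (t := views F w t ρ) (g := fun z => know F w t ρ (F' z))
    (fun z hz => Finset.mem_image.mpr ⟨F' z, by simpa using hz, rfl⟩)]
  refine Finset.sum_congr rfl fun σ hσ => ?_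
  rw [← Finset.sum_filter, Finset.filter_filter]
  obtain ⟨f, hf, rfl⟩ := Finset.mem_image.mp hσ
  have hset : (Finset.univ.filter fun z => Ext ρ (F' z) ∧ know F w t ρ (F' z) =
      know F w t ρ f) = Finset.univ.filter fun z => Ext (know F w t ρ f) (F' z) := by
    ext z
    simp only [Finset.mem_filter, Finset.mem_univ, true_and]
    constructor
    · rintro ⟨h1, h2⟩
      rw [← h2]
      exact know_ext F w h1 t
    · intro h
      exact ⟨ext_of_know F w h, know_congr F w h⟩
  rw [hset]
  refine Finset.sum_congr rfl fun z hz => ?_
  have h : Ext (know F w t ρ f) (F' z) := by simpa using hz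
  rw [know_congr F w h]

lemma sum_wpick_le (hw : ∀ x z, 0 ≤ w x z) (T : ℕ) (ρ : D → Option R) (f : D → R) (z : Z) :
    ∑ t ∈ Finset.range T, wpick F w (know F w t ρ f) z ≤
      ∑ x, if ρ x = none then w x z else 0 := by
  induction T generalizing ρ with
  | zero =>
    simp only [Finset.range_zero, Finset.sum_empty]
    exact Finset.sum_nonneg fun x _ => by
      split_ifs
      · exact hw x z
      · exact le_rfl
  | succ T ih =>
    rw [Finset.sum_range_succ', know_zero]
    simp only [know_succ]
    rcases hp : pick F w ρ with _ | x0
    · rw [step_of_none F w hp]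
      have h1 : ∀ t, know F w t ρ f = ρ := fun t => know_of_none F w hp t f
      have h2 : wpick F w ρ z = 0 := by unfold wpick; rw [hp]
      simp only [h1, h2, Finset.sum_const_zero, add_zero]
      exact Finset.sum_nonneg fun x _ => by
        split_ifs
        · exact hw x z
        · exact le_rfl
    · have h2 : wpick F w ρ z = w x0 z := by unfold wpick; rw [hp]
      rw [h2]
      have h3 := ih (step F w f ρ)
      rw [step_of_some F w hp] at h3 ⊢
      have h4 : (∑ x, if Function.update ρ x0 (some (f x0)) x = none then w x z else 0) + w x0 z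
          = ∑ x, if ρ x = none then w x z else 0 := by
        have h5 : (∑ x, if x = x0 then w x0 z else 0) = w x0 z := by simp
        rw [← h5, ← Finset.sum_add_distrib]
        refine Finset.sum_congr rfl fun x _ => ?_
        by_cases hx : x = x0
        · subst hx
          simp [(pick_eq_some F w hp).1]
        · simp [hx]
      linarith

/-- Over `T` steps the activities of the picked points add up to at most the total activity. -/
theorem sum_best_le (hw : ∀ x z, 0 ≤ w x z) (T : ℕ) (ρ : D → Option R) :
    ∑ t ∈ Finset.range T, ∑ σ ∈ views F w t ρ, best F w σ ≤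
      ∑ z, if Ext ρ (F z) then (∑ x, if ρ x = none then w x z else 0) else 0 := by
  have h1 : ∀ t, ∑ σ ∈ views F w t ρ, best F w σ =
      ∑ z, if Ext ρ (F z) then wpick F w (know F w t ρ (F z)) z else 0 := by
    intro t
    rw [sum_views F w F t ρ (fun z σ => wpick F w σ z)]
    rfl
  simp only [h1]
  rw [Finset.sum_comm]
  refine Finset.sum_le_sum fun z _ => ?_
  by_cases h : Ext ρ (F z)
  · simp only [h, if_true]
    exact sum_wpick_le F w hw T ρ (F z) z
  · simp [h]

end learn

/-- choosing a good time -/
lemma exists_time {T : ℕ} (hT : 0 < T) (a : ℕ → ℝ) (A : ℝ)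
    (h : ∑ t ∈ Finset.range T, a t ≤ A) : ∃ t < T, a t ≤ A / T := by
  have hT' : (0 : ℝ) < T := by exact_mod_cast hT
  by_contra hcon
  push Not at hcon
  have h1 : ∑ t ∈ Finset.range T, A / T < ∑ t ∈ Finset.range T, a t := by
    refine Finset.sum_lt_sum_of_nonempty ⟨0, by simpa using hT⟩ fun t ht => ?_
    exact hcon t (Finset.mem_range.mp ht)
  rw [Finset.sum_const, Finset.card_range, nsmul_eq_mul, mul_div_cancel₀ _ hT'.ne'] at h1
  linarith

end Pool.Agent.QPKE99
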