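import Pool.Agent.QPKE99.ClassEncMain

/-!
# One classical party
-/

set_option autoImplicit false
set_option linter.unusedSectionVars false

open scoped BigOperators

namespace Pool.Agent.QPKE99

open Pool.Agent.PKE70

section

variable {D R W Ω α : Type} [AddCommGroup R] [Fintype R] [Fintype W] [Fintype Ω] {q : ℕ}

lemma sum_prob_classical [Fintype α] (T : Ω → QAlg D R α) (hT : ∀ ω f, (T ω).cost f ≤ q)
    (f : D → R) (d : α → ℝ) :
    ∑ a, (Alg.classical T hT : Alg D R W Ω α q).prob f a * d a = 𝔼 ω : Ω, d ((T ω).run f) := by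
  have h := Alg.sum_classical T f d
  simp only [mul_comm (d _)] at h
  exact h

lemma sum_prob_quantum [Fintype α] (K : Circuit D R W α q) (f : D → R) (d : α → ℝ) :
    ∑ a, (Alg.quantum K : Alg D R W Ω α q).prob f a * d a =
      ∑ i, ‖K.state f q i‖ ^ 2 * d (K.out i) := by
  have h := K.sum_prob_mul f d
  simp only [mul_comm (d _)] at h
  exact h

end

variable {D R PK SK C WG ΩG WE ΩE WD ΩD : Type} [Fintype D] [DecidableEq D]
  [AddCommGroup R] [Fintype R] [Fintype PK] [Fintype SK] [Fintype C] [Fintype WG] [Fintype ΩG]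
  [Fintype WE] [Fintype ΩE] [Fintype WD] [Fintype ΩD] {q : ℕ}

/-! ### Classical key generation -/

/-- an average over the keys of a classical key generation -/
lemma expect_classical_gen (T : ΩG → QAlg D R (PK × SK)) (hT : ∀ ω f, (T ω).cost f ≤ q)
    (h : (D → R) → PK → SK → ℝ) :
    𝔼 f : D → R, ∑ pk, ∑ sk,
        (Alg.classical T hT : Alg D R WG ΩG (PK × SK) q).prob f (pk, sk) * h f pk sk =
      𝔼 z : ΩG × (D → R), h z.2 ((T z.1).run z.2).1 (skey T z) := by
  rw [← Finset.univ_product_univ, Finset.expect_product, Finset.expect_comm]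
  refine Finset.expect_congr rfl fun f _ => ?_
  have h1 := sum_prob_classical (W := WG) T hT f (fun a : PK × SK => h f a.1 a.2)
  rw [Fintype.sum_prod_type] at h1
  exact h1

/-- The case of classical key generation. -/
theorem main_classGen (S : Scheme D R PK SK C WG ΩG WE ΩE WD ΩD q) (hq : 1 ≤ q)
    (hS : S.gen.IsClassical) (ε : ℝ) (hε : 0 < ε) :
    ∃ A : PK → C → QAlg D R (Alg D R WD ΩD Bool q),
      (∀ pk c f, ((A pk c).cost f : ℝ) ≤ 144 * q ^ 3 / ε ^ 2 + 1) ∧
      S.decProb ≤ S.advProb A + ε := by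
  obtain ⟨gen, enc, dec⟩ := S
  cases gen with
  | quantum K => exact absurd hS (by simp [Alg.IsClassical])
  | classical T hT =>
    obtain ⟨A, hA1, hA2⟩ := attack_classGen T hT enc dec hq ε hε
    refine ⟨A, hA1, ?_⟩
    have h1 := expect_classical_gen (WG := WG) T hT (fun f pk sk => suc enc dec pk f sk f)
    have h2 := expect_classical_gen (WG := WG) T hT (fun f pk _ => sucA enc A pk f)
    rw [← h1, ← h2] at hA2
    exact hA2

/-! ### Quantum key generation, classical encryption -/

/-- an average over the keys of a quantum key generation -/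
lemma expect_quantum_gen (K : Circuit D R WG (PK × SK) q) (h : (D → R) → PK → SK → ℝ) :
    𝔼 f : D → R, ∑ pk, ∑ sk,
        (Alg.quantum K : Alg D R WG ΩG (PK × SK) q).prob f (pk, sk) * h f pk sk =
      (∑ f : D → R, ∑ i, ‖K.state f q i‖ ^ 2 * h f (K.out i).1 (K.out i).2) /
        Fintype.card (D → R) := by
  rw [Finset.expect_eq_sum_div_card, Finset.card_univ]
  congr 1
  refine Finset.sum_congr rfl fun f _ => ?_
  have h1 := sum_prob_quantum (Ω := ΩG) K f (fun a : PK × SK => h f a.1 a.2)
  rw [Fintype.sum_prod_type] at h1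
  exact h1

/-- an average over the bit and the ciphertexts -/
lemma expect_classical_enc (T : Bool → ΩE → QAlg D R C) (hT : ∀ b ω f, (T b ω).cost f ≤ q)
    (f : D → R) (g : Bool → C → ℝ) :
    𝔼 b : Bool, ∑ c, (Alg.classical (T b) (hT b) : Alg D R WE ΩE C q).prob f c * g b c =
      (∑ p : Bool × ΩE, g p.1 ((T p.1 p.2).run f)) / Fintype.card (Bool × ΩE) := by
  rw [← expect_pair (fun b ω => g b ((T b ω).run f))]
  refine Finset.expect_congr rfl fun b _ => ?_
  exact sum_prob_classical (T b) (hT b) f (fun c => g b c)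

/-- The case of quantum key generation and classical encryption. -/
theorem main_classEnc (K : Circuit D R WG (PK × SK) q)
    (T : PK → Bool → ΩE → QAlg D R C) (hT : ∀ pk b ω f, (T pk b ω).cost f ≤ q)
    (dec : SK → C → Alg D R WD ΩD Bool q) (hΩ : Nonempty ΩD)
    (hq : 1 ≤ q) (ε : ℝ) (hε : 0 < ε) (hε1 : ε ≤ 1) :
    ∃ A : PK → C → QAlg D R (Alg D R WD ΩD Bool q),
      (∀ pk c f, ((A pk c).cost f : ℝ) ≤ 1200000 * q ^ 7 / ε ^ 6) ∧
      (Scheme.mk (Alg.quantum K : Alg D R WG ΩG (PK × SK) q)
        (fun pk b => (Alg.classical (T pk b) (hT pk b) : Alg D R WE ΩE C q)) dec).decProb ≤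
      (Scheme.mk (Alg.quantum K : Alg D R WG ΩG (PK × SK) q)
        (fun pk b => (Alg.classical (T pk b) (hT pk b) : Alg D R WE ΩE C q)) dec).advProb A +
        ε := by
  classical
  obtain ⟨B, hB1, hB2⟩ := attack_classEnc K (fun pk p => T pk p.1 p.2)
    (fun pk p f => hT pk p.1 p.2 f) dec hq ε hε hε1
  set A : PK → C → QAlg D R (Alg D R WD ΩD Bool q) := fun pk c => (B pk c).bind fun b =>
    QAlg.ret (Alg.classical (fun _ => QAlg.ret b) (fun _ _ => Nat.zero_le _)) with hA
  have h2 : ∀ (f : D → R) (pk : PK) (c : C) (b : Bool), ((A pk c).run f).prob f b =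
      if (B pk c).run f = b then 1 else 0 := by
    intro f pk c b
    rw [hA]
    simp only
    rw [QAlg.run_bind, QAlg.run_ret]
    simp only [Alg.prob, QAlg.run_ret]
    rw [Fintype.expect_const]
    congr
  refine ⟨A, ?_, ?_⟩
  · intro pk c f
    rw [hA]
    simp only
    rw [QAlg.cost_bind, QAlg.cost_ret, add_zero]
    exact hB1 pk c f
  · have e1 := expect_quantum_gen (ΩG := ΩG) K (fun f pk sk => 𝔼 b : Bool, ∑ c,
      (Alg.classical (T pk b) (hT pk b) : Alg D R WE ΩE C q).prob f c * (dec sk c).prob f b)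
    have e2 := expect_quantum_gen (ΩG := ΩG) K (fun f pk _ => 𝔼 b : Bool, ∑ c,
      (Alg.classical (T pk b) (hT pk b) : Alg D R WE ΩE C q).prob f c *
        ((A pk c).run f).prob f b)
    simp only [h2] at e2
    have e3 : ∀ (f : D → R) (i : R × WG), 𝔼 b : Bool, ∑ c,
        (Alg.classical (T (K.out i).1 b) (hT (K.out i).1 b) : Alg D R WE ΩE C q).prob f c *
          (dec (K.out i).2 c).prob f b =
        (∑ p : Bool × ΩE, (dec (K.out i).2 ((T (K.out i).1 p.1 p.2).run f)).prob f p.1) /
          Fintype.card (Bool × ΩE) :=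
      fun f i => expect_classical_enc (T (K.out i).1) (hT (K.out i).1) f
        (fun b c => (dec (K.out i).2 c).prob f b)
    have e4 : ∀ (f : D → R) (i : R × WG), 𝔼 b : Bool, ∑ c,
        (Alg.classical (T (K.out i).1 b) (hT (K.out i).1 b) : Alg D R WE ΩE C q).prob f c *
          (if (B (K.out i).1 c).run f = b then (1 : ℝ) else 0) =
        (∑ p : Bool × ΩE, if (B (K.out i).1 ((T (K.out i).1 p.1 p.2).run f)).run f = p.1
          then (1 : ℝ) else 0) / Fintype.card (Bool × ΩE) :=
      fun f i => expect_classical_enc (T (K.out i).1) (hT (K.out i).1) f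
        (fun b c => if (B (K.out i).1 c).run f = b then 1 else 0)
    simp only [e3] at e1
    simp only [e4] at e2
    unfold Scheme.decProb Scheme.advProb
    simp only [h2]
    refine (le_of_eq e1).trans (le_trans ?_ (add_le_add (le_of_eq e2.symm) le_rfl))
    set M : ℝ := (Fintype.card (D → R) : ℝ) with hM
    set nE : ℝ := (Fintype.card (Bool × ΩE) : ℝ) with hnE
    have hM0 : 0 < M := by
      rw [hM]
      exact_mod_cast Fintype.card_pos
    rcases isEmpty_or_nonempty ΩE with hE | hE
    · have hn : nE = 0 := by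
        rw [hnE]
        simp
      simp only [hn, div_zero, mul_zero, Finset.sum_const_zero, zero_div, zero_add]
      exact hε.le
    · have hn : 0 < nE := by
        rw [hnE]
        exact_mod_cast Fintype.card_pos
      simp only [mul_div_assoc', ← Finset.sum_div]
      rw [div_div, div_div, div_add' _ _ _ (by positivity), div_le_div_iff_of_pos_right
        (by positivity)]
      refine hB2.trans (le_of_eq ?_)
      ring

/-- One classical party. -/
theorem main (S : Scheme D R PK SK C WG ΩG WE ΩE WD ΩD q) (hΩ : Nonempty ΩD) (hq : 1 ≤ q)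
    (hS : S.gen.IsClassical ∨ ∀ pk b, (S.enc pk b).IsClassical)
    (ε : ℝ) (hε : 0 < ε) (hε1 : ε ≤ 1) :
    ∃ A : PK → C → QAlg D R (Alg D R WD ΩD Bool q),
      (∀ pk c f, ((A pk c).cost f : ℝ) ≤ 1200000 * q ^ 7 / ε ^ 6) ∧
      S.decProb ≤ S.advProb A + ε := by
  have hq' : (1 : ℝ) ≤ q := by exact_mod_cast hq
  by_cases hG : S.gen.IsClassical
  · obtain ⟨A, hA1, hA2⟩ := main_classGen S hq hG ε hε
    refine ⟨A, fun pk c f => (hA1 pk c f).trans ?_, hA2⟩
    have h1 : (q : ℝ) ^ 3 ≤ (q : ℝ) ^ 7 := pow_le_pow_right₀ hq' (by norm_num)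
    have h2 : ε ^ 6 ≤ ε ^ 2 := pow_le_pow_of_le_one hε.le hε1 (by norm_num)
    have h3 : (1 : ℝ) ≤ (q : ℝ) ^ 7 := one_le_pow₀ hq'
    have h4 : ε ^ 6 ≤ 1 := pow_le_one₀ hε.le hε1
    have h5 : 144 * (q : ℝ) ^ 3 / ε ^ 2 ≤ 144 * q ^ 7 / ε ^ 6 := by
      refine div_le_div₀ (by positivity) ?_ (by positivity) h2
      linarith
    have h6 : 1 ≤ (q : ℝ) ^ 7 / ε ^ 6 := by
      rw [le_div_iff₀ (by positivity)]
      linarith
    have h7 : 1200000 * (q : ℝ) ^ 7 / ε ^ 6 = 144 * q ^ 7 / ε ^ 6 + 1199856 * (q ^ 7 / ε ^ 6) := by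
      ring
    rw [h7]
    linarith
  · have hE : ∀ pk b, (S.enc pk b).IsClassical := hS.resolve_left hG
    obtain ⟨gen, enc, dec⟩ := S
    cases gen with
    | classical T hT => exact absurd trivial hG
    | quantum K =>
      have hE' : ∀ pk b, ∃ (T : ΩE → QAlg D R C) (hT : ∀ ω f, (T ω).cost f ≤ q),
          enc pk b = Alg.classical T hT := by
        intro pk b
        have h := hE pk b
        simp only at h
        rcases hc : enc pk b with K' | ⟨T, hT⟩
        · rw [hc] at h
          exact absurd h (by simp [Alg.IsClassical])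
        · exact ⟨T, hT, rfl⟩
      choose T hT he using hE'
      have he' : enc = fun pk b => Alg.classical (T pk b) (hT pk b) := by
        funext pk b
        exact he pk b
      subst he'
      exact main_classEnc K T hT dec hΩ hq ε hε hε1

end Pool.Agent.QPKE99
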