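import Pool.Agent.QPKE99.Main

/-!
# Public-key encryption in the quantum random oracle model with one classical party

The definitions are in `Pool.Agent.QPKE99.Defs` (quantum circuits with oracle gates, schemes,
success probabilities) and `Pool.Agent.PKE70.Defs` (classical adaptive oracle algorithms).
-/

set_option autoImplicit false

open scoped BigOperators

namespace Pool.Agent.Results.MP_5f4f03_lc.OneClassicalParty

open Pool.Agent.PKE70 Pool.Agent.QPKE99

/-- Let key generation, encryption and decryption make at most `q` queries each to a uniformly
random function `f : D → R`; each of the three is a quantum or a classical algorithm, key generation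
or encryption is classical, keys and ciphertexts are classical, and decryption may err. Then some
adversary that makes at most `1200000 q ^ 7 / ε ^ 6` classical queries, and then runs an algorithm
with at most `q` queries, decrypts as well as the legitimate receiver, up to `ε`. -/
theorem result {D R PK SK C WG ΩG WE ΩE WD ΩD : Type} [Fintype D] [DecidableEq D]
    [AddCommGroup R] [Fintype R] [Fintype PK] [Fintype SK] [Fintype C] [Fintype WG] [Fintype ΩG]
    [Fintype WE] [Fintype ΩE] [Fintype WD] [Fintype ΩD] [Nonempty ΩD] {q : ℕ} (hq : 1 ≤ q)
    (S : QPKE99.Scheme D R PK SK C WG ΩG WE ΩE WD ΩD q)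
    (hS : S.gen.IsClassical ∨ ∀ pk b, (S.enc pk b).IsClassical)
    {ε : ℝ} (hε : 0 < ε) (hε1 : ε ≤ 1) :
    ∃ A : PK → C → QAlg D R (Alg D R WD ΩD Bool q),
      (∀ pk c f, ((A pk c).cost f : ℝ) ≤ 1200000 * q ^ 7 / ε ^ 6) ∧
      S.decProb ≤ S.advProb A + ε :=
  QPKE99.main S inferInstance hq hS ε hε hε1

end Pool.Agent.Results.MP_5f4f03_lc.OneClassicalParty
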