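import Pool.Agent.QPKE99.Alg
import Pool.Agent.QPKE99.Learn

/-!
# Exchanging the unqueried part of the oracle; averaging the hybrid bound
-/

set_option autoImplicit false
set_option linter.unusedSectionVars false

open scoped BigOperators

namespace Pool.Agent.QPKE99

open Pool.Agent.PKE70

/-- Cauchy-Schwarz -/
lemma sum_mul_sqrt_le {Z : Type} (s : Finset Z) (a r : Z → ℝ) (ha : ∀ z ∈ s, 0 ≤ a z)
    (hr : ∀ z ∈ s, 0 ≤ r z) :
    ∑ z ∈ s, a z * Real.sqrt (r z) ≤ Real.sqrt ((∑ z ∈ s, a z) * ∑ z ∈ s, a z * r z) := by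
  refine Real.le_sqrt_of_sq_le ?_
  have h := Finset.sum_mul_sq_le_sq_mul_sq s (fun z => Real.sqrt (a z))
    (fun z => Real.sqrt (a z) * Real.sqrt (r z))
  have h1 : ∀ z ∈ s, Real.sqrt (a z) * (Real.sqrt (a z) * Real.sqrt (r z)) =
      a z * Real.sqrt (r z) := fun z hz => by
    rw [← mul_assoc, Real.mul_self_sqrt (ha z hz)]
  have h2 : ∀ z ∈ s, Real.sqrt (a z) ^ 2 = a z := fun z hz => Real.sq_sqrt (ha z hz)
  have h3 : ∀ z ∈ s, (Real.sqrt (a z) * Real.sqrt (r z)) ^ 2 = a z * r z := fun z hz => by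
    rw [mul_pow, Real.sq_sqrt (ha z hz), Real.sq_sqrt (hr z hz)]
  rw [Finset.sum_congr rfl h1, Finset.sum_congr rfl h2, Finset.sum_congr rfl h3] at h
  exact h

lemma sum_sqrt_mul_le {Z : Type} (s : Finset Z) (a r : Z → ℝ) (ha : ∀ z ∈ s, 0 ≤ a z)
    (hr : ∀ z ∈ s, 0 ≤ r z) :
    ∑ z ∈ s, Real.sqrt (a z * r z) ≤ Real.sqrt ((∑ z ∈ s, a z) * ∑ z ∈ s, r z) := by
  refine Real.le_sqrt_of_sq_le ?_
  have h := Finset.sum_mul_sq_le_sq_mul_sq s (fun z => Real.sqrt (a z))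
    (fun z => Real.sqrt (r z))
  have h2 : ∀ z ∈ s, Real.sqrt (a z) ^ 2 = a z := fun z hz => Real.sq_sqrt (ha z hz)
  have h3 : ∀ z ∈ s, Real.sqrt (r z) ^ 2 = r z := fun z hz => Real.sq_sqrt (hr z hz)
  have h1 : ∀ z ∈ s, Real.sqrt (a z * r z) = Real.sqrt (a z) * Real.sqrt (r z) := fun z hz =>
    Real.sqrt_mul (ha z hz) _
  rw [Finset.sum_congr rfl h2, Finset.sum_congr rfl h3] at h
  rw [Finset.sum_congr rfl h1]
  exact h

variable {D R : Type} [Fintype D] [DecidableEq D] [Fintype R]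

open Classical

/-- the extensions of a partial function -/
noncomputable def exts (ρ : D → Option R) : Finset (D → R) := Finset.univ.filter fun f => Ext ρ f

lemma mem_exts {ρ : D → Option R} {f : D → R} : f ∈ exts ρ ↔ Ext ρ f := by simp [exts]

lemma ovr_res_mem_exts {ρ : D → Option R} {f F : D → R} (hf : Ext ρ f) (hF : Ext ρ F)
    (A : Finset D) : Ext ρ (ovr F (res A f)) := by
  intro x y h
  rw [ovr_res]
  split_ifs
  · exact hf x y h
  · exact hF x y h

variable {Ω α : Type} [Fintype Ω]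

/-- The part of the oracle not queried by the algorithm `T` may be replaced by the corresponding
part of an independent oracle. -/
theorem swap_sum (T : Ω → QAlg D R α) (ρ : D → Option R) (P : Ω → α → Prop)
    (G : Ω → (D → R) → ℝ) :
    ∑ z ∈ Finset.univ.filter (fun z : Ω × (D → R) => Ext ρ z.2 ∧ P z.1 ((T z.1).run z.2)),
      ∑ F ∈ exts ρ, G z.1 (ovr F (res ((T z.1).queries z.2) z.2)) =
    (exts ρ).card * ∑ z ∈ Finset.univ.filter
      (fun z : Ω × (D → R) => Ext ρ z.2 ∧ P z.1 ((T z.1).run z.2)), G z.1 z.2 := by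
  set Zs := Finset.univ.filter (fun z : Ω × (D → R) => Ext ρ z.2 ∧ P z.1 ((T z.1).run z.2))
    with hZs
  have hr : (exts ρ).card * ∑ z ∈ Zs, G z.1 z.2 = ∑ z ∈ Zs, ∑ F ∈ exts ρ, G z.1 z.2 := by
    rw [Finset.mul_sum]
    refine Finset.sum_congr rfl fun z _ => ?_
    rw [Finset.sum_const, nsmul_eq_mul]
  rw [hr, ← Finset.sum_product', ← Finset.sum_product']
  let e : (Ω × (D → R)) × (D → R) → (Ω × (D → R)) × (D → R) := fun p =>
    ((p.1.1, ovr p.2 (res ((T p.1.1).queries p.1.2) p.1.2)),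
      ovr p.1.2 (res ((T p.1.1).queries p.1.2) p.2))
  have hloc : ∀ (ω : Ω) (f F : D → R), ∀ x ∈ (T ω).queries f,
      ovr F (res ((T ω).queries f) f) x = f x := fun ω f F x hx => by
    rw [ovr_res, if_pos hx]
  have hmem : ∀ p ∈ Zs ×ˢ exts ρ, e p ∈ Zs ×ˢ exts ρ := by
    rintro ⟨⟨ω, f⟩, F⟩ hp
    rw [Finset.mem_product] at hp ⊢
    obtain ⟨h1, h2⟩ := hp
    rw [hZs, Finset.mem_filter] at h1
    rw [mem_exts] at h2
    simp only [Finset.mem_univ, true_and] at h1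
    refine ⟨?_, mem_exts.mpr (ovr_res_mem_exts h2 h1.1 _)⟩
    rw [hZs, Finset.mem_filter]
    refine ⟨Finset.mem_univ _, ovr_res_mem_exts h1.1 h2 _, ?_⟩
    have h3 : (T ω).run (ovr F (res ((T ω).queries f) f)) = (T ω).run f :=
      ((T ω).local_run (hloc ω f F)).1
    show P ω ((T ω).run (ovr F (res ((T ω).queries f) f)))
    rw [h3]
    exact h1.2
  have hinv : ∀ p ∈ Zs ×ˢ exts ρ, e (e p) = p := by
    rintro ⟨⟨ω, f⟩, F⟩ -
    have h1 : (T ω).queries (ovr F (res ((T ω).queries f) f)) = (T ω).queries f :=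
      ((T ω).local_run (hloc ω f F)).2
    simp only [e, h1, Prod.mk.injEq, true_and]
    constructor
    · funext x
      rw [ovr_res, ovr_res, ovr_res]
      by_cases hx : x ∈ (T ω).queries f <;> simp [hx]
    · funext x
      rw [ovr_res, ovr_res, ovr_res]
      by_cases hx : x ∈ (T ω).queries f <;> simp [hx]
  refine Finset.sum_nbij' e e hmem hmem hinv hinv ?_
  intro p _
  rfl

/-- averaging the hybrid bound over the hidden queries -/
theorem avg_weight {Z : Type} (Zs : Finset Z) (Q : Z → Finset D) (P : D → Prop)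
    (β q : ℝ) (hβ0 : 0 ≤ β) (hq : 0 ≤ q)
    (hβ : ∀ x, P x → ((Zs.filter fun z => x ∈ Q z).card : ℝ) ≤ β) (u : D → ℝ)
    (hu : ∀ x, 0 ≤ u x) (hu1 : ∑ x, u x ≤ q) :
    ∑ z ∈ Zs, Real.sqrt (q * ∑ x, if x ∈ Q z ∧ P x then u x else 0) ≤
      q * Real.sqrt (Zs.card * β) := by
  have h0 : ∀ z, 0 ≤ ∑ x, (if x ∈ Q z ∧ P x then u x else 0) := fun z =>
    Finset.sum_nonneg fun x _ => by
      split_ifs
      · exact hu x
      · exact le_rfl
  have h1 := sum_mul_sqrt_le Zs (fun _ => 1)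
    (fun z => q * ∑ x, if x ∈ Q z ∧ P x then u x else 0) (fun _ _ => zero_le_one)
    (fun z _ => mul_nonneg hq (h0 z))
  simp only [one_mul, Finset.sum_const, nsmul_eq_mul, mul_one] at h1
  refine h1.trans ?_
  have h2 : ∑ z ∈ Zs, q * ∑ x, (if x ∈ Q z ∧ P x then u x else 0) ≤ q * (q * β) := by
    rw [← Finset.mul_sum, Finset.sum_comm]
    refine mul_le_mul_of_nonneg_left ?_ hq
    calc ∑ x, ∑ z ∈ Zs, (if x ∈ Q z ∧ P x then u x else 0)
        ≤ ∑ x, u x * β := by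
          refine Finset.sum_le_sum fun x _ => ?_
          by_cases hx : P x
          · simp only [hx, and_true]
            rw [← Finset.sum_filter, Finset.sum_const, nsmul_eq_mul, mul_comm]
            exact mul_le_mul_of_nonneg_left (hβ x hx) (hu x)
          · simp only [hx, and_false, if_false, Finset.sum_const_zero]
            exact mul_nonneg (hu x) hβ0
      _ = (∑ x, u x) * β := by rw [Finset.sum_mul]
      _ ≤ q * β := mul_le_mul_of_nonneg_right hu1 hβ0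
  have h3 : (Zs.card : ℝ) * ∑ z ∈ Zs, q * ∑ x, (if x ∈ Q z ∧ P x then u x else 0) ≤
      q ^ 2 * (Zs.card * β) := by
    calc (Zs.card : ℝ) * ∑ z ∈ Zs, q * ∑ x, (if x ∈ Q z ∧ P x then u x else 0)
        ≤ Zs.card * (q * (q * β)) := mul_le_mul_of_nonneg_left h2 (Nat.cast_nonneg _)
      _ = q ^ 2 * (Zs.card * β) := by ring
  calc Real.sqrt (Zs.card * ∑ z ∈ Zs, q * ∑ x, (if x ∈ Q z ∧ P x then u x else 0))
      ≤ Real.sqrt (q ^ 2 * (Zs.card * β)) := Real.sqrt_le_sqrt h3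
    _ = q * Real.sqrt (Zs.card * β) := by
        rw [Real.sqrt_mul (by positivity), Real.sqrt_sq hq]

end Pool.Agent.QPKE99
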