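import Pool.Agent.QPKE99.Avx

/-!
# Replacing the answers of a classical algorithm by fresh ones
-/

set_option autoImplicit false
set_option linter.unusedSectionVars false

open scoped BigOperators

namespace Pool.Agent.QPKE99

open Pool.Agent.PKE70

open Classical

variable {D R : Type} [Fintype D] [DecidableEq D] [Fintype R] [Nonempty R]

/-- If no point outside the domain of `ρ` has activity more than `m`, then replacing the answers to
the at most `n` queries of `T` by fresh ones changes the amplitudes `a` only a little. -/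
theorem tree_decouple {α I : Type} (s : Finset I) (T : QAlg D R α) :
    ∀ (n : ℕ) (ρ : D → Option R) (a : I → (D → R) → ℂ) (m : ℝ), 0 ≤ m →
      (∀ f ∈ exts ρ, T.cost f ≤ n) →
      (∀ x, ρ x = none → ∑ f ∈ exts ρ, ∑ i ∈ s, ‖a i f - avx x (a i) f‖ ^ 2 ≤ m) →
      ∑ f ∈ exts ρ, ∑ F ∈ exts ρ, ∑ i ∈ s,
        ‖a i (ovr F (res (T.queries f) f)) - a i F‖ ^ 2 ≤
          4 * ((exts ρ).card * m) * n ^ 2 := by
  induction T with
  | ret c =>
    intro n ρ a m hm _ _
    simp only [QAlg.queries_ret, res_empty, ovr_none, sub_self, norm_zero]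
    simp only [ne_eq, OfNat.ofNat_ne_zero, not_false_eq_true, zero_pow, Finset.sum_const_zero]
    positivity
  | ask x k ih =>
    intro n ρ a m hm hT hact
    rcases Finset.eq_empty_or_nonempty (exts ρ) with hemp | ⟨f0, hf0⟩
    · rw [hemp]
      simp
    have hn : 1 ≤ n := by
      have := hT f0 hf0
      rw [QAlg.cost_ask] at this
      omega
    obtain ⟨n', rfl⟩ : ∃ n', n = n' + 1 := ⟨n - 1, by omega⟩
    rcases hρ : ρ x with _ | y0
    · -- a new point
      set N : ℝ := ((exts ρ).card : ℝ) with hN
      set nR : ℝ := (Fintype.card R : ℝ) with hnR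
      have hnR0 : 0 < nR := by rw [hnR]; exact_mod_cast Fintype.card_pos
      have hN' : ∀ y, ((exts (upd ρ x y)).card : ℝ) = N / nR := by
        intro y
        have h := sum_exts_upd hρ (fun _ => (1 : ℝ)) (fun _ _ => rfl) y
        simp only [Finset.sum_const, nsmul_eq_mul, mul_one] at h
        rw [← hN, ← hnR] at h
        rw [h]
        field_simp
      let g : (D → R) → (D → R) → (D → R) := fun f F =>
        ovr F (res ((QAlg.ask x k).queries f) f)
      let e : I → (D → R) → ℂ := fun i => avx x (a i)
      -- the three parts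
      have hpart1 : ∑ f ∈ exts ρ, ∑ F ∈ exts ρ, ∑ i ∈ s, ‖a i (g f F) - e i (g f F)‖ ^ 2 ≤
          N * m := by
        have h := swap_sum_simple (QAlg.ask x k) ρ (fun f => ∑ i ∈ s, ‖a i f - e i f‖ ^ 2)
        rw [h]
        exact mul_le_mul_of_nonneg_left (hact x hρ) (Nat.cast_nonneg _)
      have hpart3 : ∑ f ∈ exts ρ, ∑ F ∈ exts ρ, ∑ i ∈ s, ‖e i F - a i F‖ ^ 2 ≤ N * m := by
        rw [Finset.sum_const, nsmul_eq_mul]
        refine mul_le_mul_of_nonneg_left ?_ (Nat.cast_nonneg _)
        refine le_trans (le_of_eq ?_) (hact x hρ)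
        refine Finset.sum_congr rfl fun F _ => Finset.sum_congr rfl fun i _ => ?_
        rw [norm_sub_rev]
      have hpart2 : ∑ f ∈ exts ρ, ∑ F ∈ exts ρ, ∑ i ∈ s, ‖e i (g f F) - e i F‖ ^ 2 ≤
          4 * (N * m) * n' ^ 2 := by
        have heupd : ∀ i (f : D → R) y, e i (Function.update f x y) = e i f := fun i f y =>
          avx_update x (a i) f y
        -- forget the value at x
        have h1 : ∀ f F, ∀ i, e i (g f F) = e i (ovr F (res ((k (f x)).queries f) f)) := by
          intro f F i
          have h2 : Function.update (g f F) x (ovr F (res ((k (f x)).queries f) f) x) =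
              ovr F (res ((k (f x)).queries f) f) := by
            funext z
            by_cases hz : z = x
            · subst hz; simp
            · rw [Function.update_of_ne hz]
              simp only [g]
              rw [ovr_res, ovr_res, QAlg.queries_ask]
              simp [hz]
          rw [← h2, heupd]
        have h3 : ∀ y, ∀ f ∈ exts (upd ρ x y), ∑ F ∈ exts ρ, ∑ i ∈ s,
            ‖e i (g f F) - e i F‖ ^ 2 = nR * ∑ F ∈ exts (upd ρ x y), ∑ i ∈ s,
              ‖e i (ovr F (res ((k y).queries f) f)) - e i F‖ ^ 2 := by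
          intro y f hf
          have hfx : f x = y := ((mem_exts_upd hρ).mp hf).2
          simp only [h1, hfx]
          refine sum_exts_upd hρ _ ?_ y
          intro F z
          refine Finset.sum_congr rfl fun i _ => ?_
          rw [heupd]
          have h2 : Function.update (ovr (Function.update F x z) (res ((k y).queries f) f)) x
              (ovr F (res ((k y).queries f) f) x) = ovr F (res ((k y).queries f) f) := by
            funext z'
            by_cases hz : z' = x
            · subst hz; simp
            · rw [Function.update_of_ne hz]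
              rw [ovr_res, ovr_res, Function.update_of_ne hz]
          rw [← h2, heupd]
        have h4 : ∀ y, ∑ f ∈ exts (upd ρ x y), ∑ F ∈ exts (upd ρ x y), ∑ i ∈ s,
            ‖e i (ovr F (res ((k y).queries f) f)) - e i F‖ ^ 2 ≤
            4 * ((N / nR) * (m / nR)) * n' ^ 2 := by
          intro y
          have h5 := ih y n' (upd ρ x y) e (m / nR) (by positivity) ?_ ?_
          · rw [hN'] at h5
            exact h5
          · intro f hf
            have hf' := (mem_exts_upd hρ).mp hf
            have := hT f hf'.1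
            rw [QAlg.cost_ask, hf'.2] at this
            omega
          · intro x' hx'
            have hne : x ≠ x' := by
              rintro rfl
              simp [upd] at hx'
            have hx2 : ρ x' = none := by
              unfold upd at hx'
              rwa [Function.update_of_ne (Ne.symm hne)] at hx'
            have h6 : ∀ i f, e i f - avx x' (e i) f =
                avx x (fun f => a i f - avx x' (a i) f) f := by
              intro i f
              rw [avx_sub, avx_comm hne]
            simp only [h6]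
            have h7 : ∀ i ∈ s, ∑ f ∈ exts (upd ρ x y),
                ‖avx x (fun f => a i f - avx x' (a i) f) f‖ ^ 2 ≤
                (∑ f ∈ exts ρ, ‖a i f - avx x' (a i) f‖ ^ 2) / nR := by
              intro i _
              have h8 := sum_exts_upd hρ
                (fun f => ‖avx x (fun f => a i f - avx x' (a i) f) f‖ ^ 2)
                (fun f z => by rw [avx_update]) y
              rw [le_div_iff₀ hnR0, mul_comm, ← h8]
              exact sum_norm_avx_le hρ _
            rw [Finset.sum_comm]
            refine (Finset.sum_le_sum h7).trans ?_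
            rw [← Finset.sum_div, Finset.sum_comm]
            exact div_le_div_of_nonneg_right (hact x' hx2) hnR0.le
        rw [sum_exts_split hρ]
        calc ∑ y, ∑ f ∈ exts (upd ρ x y), ∑ F ∈ exts ρ, ∑ i ∈ s, ‖e i (g f F) - e i F‖ ^ 2
            = ∑ y, nR * ∑ f ∈ exts (upd ρ x y), ∑ F ∈ exts (upd ρ x y), ∑ i ∈ s,
              ‖e i (ovr F (res ((k y).queries f) f)) - e i F‖ ^ 2 := by
              refine Finset.sum_congr rfl fun y _ => ?_
              rw [Finset.mul_sum]
              exact Finset.sum_congr rfl fun f hf => h3 y f hf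
          _ ≤ ∑ _y : R, nR * (4 * ((N / nR) * (m / nR)) * n' ^ 2) :=
              Finset.sum_le_sum fun y _ => mul_le_mul_of_nonneg_left (h4 y) hnR0.le
          _ = 4 * (N * m) * n' ^ 2 := by
              rw [Finset.sum_const, nsmul_eq_mul, Finset.card_univ, ← hnR]
              field_simp
      -- combine
      have hsum : ∀ (H : (D → R) → (D → R) → I → ℝ),
          ∑ f ∈ exts ρ, ∑ F ∈ exts ρ, ∑ i ∈ s, H f F i =
          ∑ p ∈ exts ρ ×ˢ exts ρ ×ˢ s, H p.1 p.2.1 p.2.2 := by
        intro H
        rw [Finset.sum_product]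
        refine Finset.sum_congr rfl fun f _ => ?_
        rw [Finset.sum_product]
      have hU : ∑ p ∈ exts ρ ×ˢ exts ρ ×ˢ s,
          ‖(a p.2.2 (g p.1 p.2.1) - e p.2.2 (g p.1 p.2.1)) +
            (e p.2.2 p.2.1 - a p.2.2 p.2.1)‖ ^ 2 ≤ 4 * (N * m) := by
        rw [hsum (fun f F i => ‖a i (g f F) - e i (g f F)‖ ^ 2)] at hpart1
        rw [hsum (fun f F i => ‖e i F - a i F‖ ^ 2)] at hpart3
        have h1 : ∀ p ∈ exts ρ ×ˢ exts ρ ×ˢ s,
            ‖(a p.2.2 (g p.1 p.2.1) - e p.2.2 (g p.1 p.2.1)) +
              (e p.2.2 p.2.1 - a p.2.2 p.2.1)‖ ^ 2 ≤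
            2 * ‖a p.2.2 (g p.1 p.2.1) - e p.2.2 (g p.1 p.2.1)‖ ^ 2 +
              2 * ‖e p.2.2 p.2.1 - a p.2.2 p.2.1‖ ^ 2 := by
          intro p _
          have h2 := pow_le_pow_left₀ (norm_nonneg _)
            (norm_add_le (a p.2.2 (g p.1 p.2.1) - e p.2.2 (g p.1 p.2.1))
              (e p.2.2 p.2.1 - a p.2.2 p.2.1)) 2
          nlinarith [sq_nonneg (‖a p.2.2 (g p.1 p.2.1) - e p.2.2 (g p.1 p.2.1)‖ -
            ‖e p.2.2 p.2.1 - a p.2.2 p.2.1‖)]
        refine (Finset.sum_le_sum h1).trans ?_
        rw [Finset.sum_add_distrib, ← Finset.mul_sum, ← Finset.mul_sum]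
        linarith
      rw [hsum (fun f F i => ‖e i (g f F) - e i F‖ ^ 2)] at hpart2
      have h := mink (exts ρ ×ˢ exts ρ ×ˢ s) _ _ _ n' hU hpart2
      rw [hsum (fun f F i => ‖a i (ovr F (res ((QAlg.ask x k).queries f) f)) - a i F‖ ^ 2)]
      push_cast
      refine le_trans (le_of_eq ?_) h
      refine Finset.sum_congr rfl fun p _ => ?_
      simp only [g]
      congr 2
      ring
    · -- a known point
      have h1 : ∀ f ∈ exts ρ, ∀ F ∈ exts ρ, ovr F (res ((QAlg.ask x k).queries f) f) =
          ovr F (res ((k y0).queries f) f) := by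
        intro f hf F hF
        have hfx : f x = y0 := (mem_exts.mp hf) x y0 hρ
        have hFx : F x = y0 := (mem_exts.mp hF) x y0 hρ
        funext z
        rw [ovr_res, ovr_res, QAlg.queries_ask, hfx]
        by_cases hz : z = x
        · subst hz
          simp [hfx, hFx]
        · simp [hz]
      have h2 : ∑ f ∈ exts ρ, ∑ F ∈ exts ρ, ∑ i ∈ s,
          ‖a i (ovr F (res ((QAlg.ask x k).queries f) f)) - a i F‖ ^ 2 =
          ∑ f ∈ exts ρ, ∑ F ∈ exts ρ, ∑ i ∈ s,
            ‖a i (ovr F (res ((k y0).queries f) f)) - a i F‖ ^ 2 :=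
        Finset.sum_congr rfl fun f hf => Finset.sum_congr rfl fun F hF =>
          Finset.sum_congr rfl fun i _ => by rw [h1 f hf F hF]
      rw [h2]
      refine (ih y0 n' ρ a m hm ?_ hact).trans ?_
      · intro f hf
        have := hT f hf
        rw [QAlg.cost_ask, (mem_exts.mp hf) x y0 hρ] at this
        omega
      · refine mul_le_mul_of_nonneg_left ?_ (by positivity)
        push_cast
        have h0 : (0 : ℝ) ≤ n' := Nat.cast_nonneg _
        nlinarith

end Pool.Agent.QPKE99
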